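import Pool.Agent.H78.UX.FO
import Pool.Agent.H64.NC.SFM
import Pool.Agent.H64.NC.PRT
import Pool.Agent.H64.PF.ONE
import Pool.Agent.H31.UDC.Ud

/-!
# THEOREM UD for all rational maps of all families: the theorem for one map

`uds_img`, `kj_img`: invariance under bi-Lipschitz conjugacies. `sph_all`: Julia set = sphere, from the chart with three fixed
points. `ud_all`: all families, no hypothesis on the Julia set.
-/

set_option autoImplicit false

open Filter Topology Polynomial Metric Set MeasureTheory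

namespace Pool.Agent.H78.UX

open Pool.Agent.H44.Fatou (rat rat_continuous ev wv crit_coe)
open Pool.Agent.H56.HR (FS EqAt)
open Pool.Agent.H32.BT Pool.Agent.H79.Eul Pool.Agent.H79.Par Pool.Agent.H47.NN Pool.Agent.H44.ND
open Pool.Agent.H79.ES Pool.Agent.H35.EX Pool.Agent.H44.RC Pool.Agent.H47.RJ Pool.Agent.H84.BR
open Pool.Agent.H57.CF Pool.Agent.H47.NM Pool.Agent.H47.PS
open Pool.Agent.H64.NC Pool.Agent.H83.UP Pool.Agent.H27.BR Pool.Agent.H66.IL
open Pool.Agent.H64.JS (KJ)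

variable {d : ℕ}

/-- uniformly disconnected sets are invariant under bi-Lipschitz homeomorphisms -/
theorem uds_img {φ : OnePoint ℂ ≃ₜ OnePoint ℂ} {K : ℝ}
    (bil : ∀ x y, chord (φ x) (φ y) ≤ K * chord x y ∧ chord x y ≤ K * chord (φ x) (φ y)) {Q Q' : Set (OnePoint ℂ)}
    (h : ∀ x, φ x ∈ Q' ↔ x ∈ Q) (hU : UDs Q) : UDs Q' := by
  obtain ⟨C, hC, hU⟩ := hU
  have hK : 0 < K := by
    have h1 : 0 < chord ((0 : ℂ) : OnePoint ℂ) OnePoint.infty := chord_pos (OnePoint.coe_ne_infty _)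
    have h2 := (bil ((0 : ℂ) : OnePoint ℂ) OnePoint.infty).2
    have h3 : 0 < chord (φ ((0 : ℂ) : OnePoint ℂ)) (φ OnePoint.infty) :=
      chord_pos fun h4 => OnePoint.coe_ne_infty _ (φ.injective h4)
    by_contra hcon
    push Not at hcon
    have := mul_nonpos_of_nonpos_of_nonneg hcon h3.le
    linarith
  refine ⟨C * K ^ 2, by positivity, fun x' hx' r hr => ?_⟩
  obtain ⟨x, rfl⟩ := φ.surjective x'
  obtain ⟨A, hAQ, hxA, hA1, hA2⟩ := hU x ((h x).1 hx') (r / K) (by positivity)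
  refine ⟨φ '' A, ?_, ⟨x, hxA, rfl⟩, ?_, ?_⟩
  · rintro _ ⟨a, ha, rfl⟩
    exact (h a).2 (hAQ ha)
  · rintro _ ⟨a, ha, rfl⟩
    have h1 := hA1 a ha
    rw [lt_div_iff₀ hK] at h1
    have h2 := (bil x a).1
    linarith
  · rintro _ ⟨a, ha, rfl⟩ p' hp' hpA
    obtain ⟨p, rfl⟩ := φ.surjective p'
    have hp : p ∉ A := fun h3 => hpA ⟨p, h3, rfl⟩
    have h1 := hA2 a ha p ((h p).1 hp') hp
    rw [div_le_iff₀ hK] at h1
    have h2 := (bil a p).2
    calc r ≤ C * chord a p * K := h1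
      _ ≤ C * (K * chord (φ a) (φ p)) * K := by gcongr
      _ = C * K ^ 2 * chord (φ a) (φ p) := by ring

/-- the postcritical sets of conjugate maps -/
theorem kj_img {f g : OnePoint ℂ → OnePoint ℂ} {φ : OnePoint ℂ ≃ₜ OnePoint ℂ} (hφ : ∀ x, g (φ x) = φ (f x)) (x : OnePoint ℂ) :
    φ x ∈ KJ {c | IsCrit g c} (JS g) g ↔ x ∈ KJ {c | IsCrit f c} (JS f) f := by
  have h1 : {y | ∃ c, c ∈ {c | IsCrit g c} ∧ c ∈ JS g ∧ ∃ n : ℕ, 1 ≤ n ∧ g^[n] c = y} =
      φ '' {y | ∃ c, c ∈ {c | IsCrit f c} ∧ c ∈ JS f ∧ ∃ n : ℕ, 1 ≤ n ∧ f^[n] c = y} := by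
    ext y
    constructor
    · rintro ⟨c', hc, hcJ, n, hn, rfl⟩
      obtain ⟨c, rfl⟩ := φ.surjective c'
      refine ⟨f^[n] c, ⟨c, (isCrit_conj φ hφ c).1 hc, (js_conj φ (fun y => (hφ y).symm) c).1 hcJ, n, hn, rfl⟩, ?_⟩
      exact (iter_conj φ hφ n c).symm
    · rintro ⟨_, ⟨c, hc, hcJ, n, hn, rfl⟩, rfl⟩
      exact ⟨φ c, (isCrit_conj φ hφ c).2 hc, (js_conj φ (fun y => (hφ y).symm) c).2 hcJ, n, hn, iter_conj φ hφ n c⟩
  unfold KJ
  rw [h1, ← φ.image_closure]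
  exact φ.injective.mem_set_image

/-- Julia set = sphere -/
theorem sph_all {v : E d} (hd : 2 ≤ d) (hcop : IsCoprime (pol v.1) (pol v.2))
    (hdeg : max (pol v.1).natDegree (pol v.2).natDegree = d) (hup : ¬ Up v) (hJ : JS (Rf v) = univ) :
    ¬ UDs (KJ {c | IsCrit (Rf v) c} (JS (Rf v)) (Rf v)) := by
  intro hU
  obtain ⟨q1, q2, q3, n12, n13, n23, e1, e2, e3⟩ := three_fix hd hcop hdeg hup hJ
  obtain ⟨L, G, φ, K, hch, -, f0, f1, fi⟩ := ch_three (d := d) hd n12 n13 n23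
  obtain ⟨hcop1, hdeg1, hφ⟩ := hch.conj v hcop hdeg
  have hup1 : ¬ Up (L v) := fun h =>
    hup (up_chart hd hch.cG hch.invL hch.invR (fun v h3 h4 => (hch.conj v h3 h4).2.2) hcop hdeg h)
  have hJS1 : JS (Rf (L v)) = univ := by
    rw [eq_univ_iff_forall]
    intro y
    obtain ⟨x, rfl⟩ := φ.surjective y
    exact (js_conj φ (fun y => (hφ y).symm) x).2 (hJ ▸ mem_univ x)
  have h0 : Rf (L v) ((0 : ℂ) : OnePoint ℂ) = ((0 : ℂ) : OnePoint ℂ) := by rw [← f0, hφ, e1]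
  have h1 : Rf (L v) ((1 : ℂ) : OnePoint ℂ) = ((1 : ℂ) : OnePoint ℂ) := by rw [← f1, hφ, e2]
  have hi : Rf (L v) OnePoint.infty = OnePoint.infty := by rw [← fi, hφ, e3]
  exact sph_one hd hcop1 hdeg1 hup1 hJS1 h0 h1 hi (uds_img hch.bil (kj_img hφ) hU)

/-- THE THEOREM FOR ONE MAP, all families -/
theorem ud_all {m : ℕ} (hd : 2 ≤ d) (hm : m ≤ d) {x : Em d m} (hcop : IsCoprime (pol x.1) (pol x.2))
    (hdeg : max (pol x.1).natDegree (pol x.2).natDegree = d) (hup : ¬ UpF d m x) :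
    (∀ c, IsCrit (Rf (ex d m x)) c → c ∉ JS (Rf (ex d m x))) ∨
      ¬ UDs (KJ {c | IsCrit (Rf (ex d m x)) c} (JS (Rf (ex d m x))) (Rf (ex d m x))) := by
  by_cases hJ : JS (Rf (ex d m x)) = univ
  · right
    rcases Nat.lt_or_ge m 2 with h2 | h2
    · have hup1 : ¬ Up (ex d m x) := by
        rcases Nat.lt_or_ge m 1 with h1 | h1
        · obtain rfl : m = 0 := by omega
          exact fun h => hup (up_zero h)
        · obtain rfl : m = 1 := by omega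
          exact fun h => hup (Pool.Agent.H64.PF.up_one hd hcop hdeg h)
      exact sph_all hd (ex_cop hcop) (ex_deg hdeg) hup1 hJ
    · exfalso
      obtain ⟨D, u, φ, K, T, h, -⟩ := Pool.Agent.H31.UDC.cdx_upF hd h2 hm hcop hdeg hup
      obtain ⟨y, hy⟩ := φ.surjective OnePoint.infty
      have h3 : φ y ∈ JS (Rf u) := (js_conj φ (fun y => (h.conj y).symm) y).2 (hJ ▸ mem_univ y)
      rw [hy] at h3
      exact h3 h.ga.fi
  · exact Pool.Agent.H31.UDC.ud_map hd hm hcop hdeg hup hJ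

end Pool.Agent.H78.UX
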