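import Pool.Agent.H78.UX.PM

/-!
# THEOREM UD for Julia set = sphere, chapter D: lifts of collars which close after one or two turns come from pull back units (PB)

Port of Pool/Agent/H55/PB (`Pool.Agent.H55.PB.pbk`) to the setting `SS` (`J := P` in `dm`). One change: smallness (`sh2`) is used in
H55/PB for every step; here the step without a critical value in `φ1 '' {|β1 v| < ρ0}` uses `SS.lift1` instead (star shaped open set
`{|β1 v| < ρ0}`), and only if `f c ∈ φ1 '' {|β1 v| < ρ0}` for a `c ∈ Cr` the set `φ1 '' {|β1 v| < ρ0}` meets `P` (`SS.CP`) and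
`sh2` (UX/DB) with `SS.loc` at `y = f c` applies.
-/

set_option autoImplicit false

open Filter Topology Metric Set MeasureTheory

namespace Pool.Agent.H78.UX

open Pool.Agent.H56.UD

variable {f : ℂ → ℂ} {U P Cr : Set ℂ} {δ : ℝ} {η : ℂ → ℂ → ℂ} {ρ : ℝ}

theorem pbk (h : SS f U P Cr δ η ρ) {θ C : ℝ} (hθ : 0 < θ) (hθ1 : θ < 1) (hC : 1 ≤ C) :
    ∃ δ2 : ℝ, 0 < δ2 ∧ ∀ (k : ℕ) (x : ℂ) (r : ℝ) (ψ q : ℂ → ℂ), x ∈ P → 0 < r → r < δ2 → GD θ C P x r ψ →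
      Lf (f^[k]) (dm f U P δ k) θ ψ q → Cls θ 2 q →
      ∃ φ β : ℂ → ℂ, PU (f^[k]) (dm f U P δ k) θ ψ φ β ∧ q '' Qc θ ⊆ φ '' ball 0 1 ∧ (Cls θ 1 q → ∀ v, β v = v) :=
  pbk0 (C := C) h hθ hθ1

end Pool.Agent.H78.UX
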