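import Pool.Agent.H56.UD.Defs

/-!
# THEOREM UD for Julia set = sphere: definitions

The chart: `∞` is a repelling fixed point outside `P` (an iterate of the map, in a chart). `SS`: the planar setting; the sets
`dm f U P δ k`, `Lf`, `PU`, `ST`, `LS` are those of H56/UD with `J := P` (the targets are in the `δ`-neighbourhood of `P`).
`oU f U k`: the points whose orbit of length `k` stays in `U` (the complement of the poles).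
`SX`: the field `X` with `∂̄ X = μ`; `nc`: there are no cones (UX/NC: from the family of all fields `X p`).
See think 1502.
-/

set_option autoImplicit false

open Filter Topology Metric Set MeasureTheory

namespace Pool.Agent.H78.UX

/-- the points whose orbit of length `k` stays in `U` -/
def oU (f : ℂ → ℂ) (U : Set ℂ) (k : ℕ) : Set ℂ := {z | ∀ j < k, f^[j] z ∈ U}

/-- the planar setting for Julia set = sphere: `P` is the postcritical set, `Cr` the set of the critical points (all simple),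
`η c` the square root coordinate at `c` -/
structure SS (f : ℂ → ℂ) (U P Cr : Set ℂ) (δ : ℝ) (η : ℂ → ℂ → ℂ) (ρ : ℝ) : Prop where
  hδ : 0 < δ
  Uo : IsOpen U
  fd : DifferentiableOn ℂ f U
  Pc : IsCompact P
  Pn : P.Nonempty
  PU : P ⊆ U
  Pf : ∀ z ∈ P, f z ∈ P
  lift1 : ∀ (S : Set ℂ) (H : ℂ → ℂ) (p q z : ℂ), p ∈ S → StarConvex ℝ p S → IsOpen S → DifferentiableOn ℂ H S →
    (∀ u ∈ S, ∀ c ∈ Cr, H u ≠ f c) → q ∈ S → z ∈ U → f z = H q →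
    ∃ G : ℂ → ℂ, DifferentiableOn ℂ G S ∧ G q = z ∧ ∀ u ∈ S, G u ∈ U ∧ f (G u) = H u
  leo : ∀ O : Set ℂ, IsOpen O → O.Nonempty → ∀ R : ℝ, ∃ N : ℕ, ∀ n ≥ N, ball 0 R ⊆ f^[n] '' (O ∩ oU f U n)
  inf : ∃ A B : ℝ, thickening δ P ⊆ ball 0 A ∧ ∀ z : ℂ, B ≤ ‖z‖ → (∀ k : ℕ, f^[k] z ∈ U) →
    ∃ m : ℕ, A ≤ ‖f^[m] z‖ ∧ ‖f^[m] z‖ ≤ B
  Cf : Cr.Finite
  CU : Cr ⊆ U
  CP : ∀ c ∈ Cr, f c ∈ P
  hρ : 0 < ρ
  nf : ∀ c ∈ Cr, DifferentiableOn ℂ (η c) (ball 0 ρ) ∧ InjOn (η c) (ball 0 ρ) ∧ η c 0 = c ∧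
    ∀ v ∈ ball (0 : ℂ) ρ, η c v ∈ U ∧ f (η c v) = f c + v ^ 2
  loc : ∃ δ1 : ℝ, 0 < δ1 ∧ δ1 ≤ δ ∧ ∀ y ∈ P, ∀ z ∈ U, f z ∈ ball y δ1 →
    (∃ g : ℂ → ℂ, DifferentiableOn ℂ g (ball y δ1) ∧ g (f z) = z ∧ ∀ u ∈ ball y δ1, g u ∈ U ∧ f (g u) = u) ∨
    (∃ c ∈ Cr, ball y δ1 ⊆ ball (f c) (ρ ^ 2 / 4) ∧ z ∈ η c '' ball 0 ρ)

/-- the field `X` with `∂̄ X = μ`; the compact set `E` of uniformly typical points -/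
structure SX (f : ℂ → ℂ) (U P E : Set ℂ) (X h μ : ℂ → ℂ) (b0 : ℝ) : Prop where
  hb : 0 < b0
  Xc : Continuous X
  hd : DifferentiableOn ℂ h U
  eq : ∀ z ∈ U, X (f z) = deriv f z * X z + h z
  Ec : IsCompact E
  EU : ∀ z ∈ E, ∀ k : ℕ, f^[k] z ∈ U
  EP : ∀ z ∈ E, ∀ k : ℕ, f^[k] z ∉ P
  Ep : 0 < volume E
  lb : ∀ z ∈ E, b0 ≤ ‖μ z‖ ∧ ‖μ z‖ ≤ 1
  T : ∀ ε : ℝ, 0 < ε → ∃ ρ : ℝ, 0 < ρ ∧ ∀ z ∈ E, ∀ r : ℝ, 0 < r → r < ρ →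
    ∃ H : ℂ → ℂ, DifferentiableOn ℂ H (ball z r) ∧
      ∀ w ∈ ball z r, ‖X w - μ z * (starRingEnd ℂ) (w - z) - H w‖ ≤ ε * r
  nc : ∀ δ' M R0 : ℝ, 0 < δ' → ∃ ε : ℝ, 0 < ε ∧ ∀ z ∈ E, ∀ (k : ℕ) (y : ℂ) (σ : ℝ) (G : ℂ → ℂ), ‖y‖ ≤ R0 → 0 < σ →
    DifferentiableOn ℂ G (ball y δ') →
    (∀ u ∈ ball y δ', G u ∈ oU f U k ∧ f^[k] (G u) = u ∧ ‖G u - z‖ ≤ M * σ) → σ ≤ M * ‖deriv G y‖ → ε ≤ σ

end Pool.Agent.H78.UX
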