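import Pool.Agent.H56.UD.DA
import Pool.Agent.H78.UX.Defs
import Pool.Agent.H80.AJ.Cover
import Pool.Agent.H80.AJ.Distort

/-!
# THEOREM UD for Julia set = sphere, chapter D: base lemmas on the planar setting

All proofs are short. `dm_open`: induction with `dm_succ` (`dm (k+1) = U ∩ f ⁻¹' dm k`, `f` continuous on the open set `U`). `dm_diff`: chain rule.
`br_ball`: `PS.lift` with `H = id`, `S = ball w r`. `lift_unique`: the set of the `u ∈ S` with `G u = G' u` is closed in `S` and open in `S` (at such a `u` the iterate is injective near `G u` since its derivative is not `0`: `HasStrictDerivAt.eventually_...` or `Complex` local inverse; both lifts are continuous).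
`der_ne`: chain rule for `f^[k] ∘ G = H`.
-/

set_option autoImplicit false

open Filter Topology Metric Set MeasureTheory

namespace Pool.Agent.H78.UX

open Pool.Agent.H56.UD

variable {f : ℂ → ℂ} {U P Cr : Set ℂ} {δ : ℝ} {η : ℂ → ℂ → ℂ} {ρ : ℝ}

theorem ou_succ (k : ℕ) (z : ℂ) : z ∈ oU f U (k + 1) ↔ z ∈ U ∧ f z ∈ oU f U k := by
  constructor
  · intro h1
    refine ⟨h1 0 (Nat.succ_pos k), fun j hj => ?_⟩
    have := h1 (j + 1) (by omega)
    rwa [Function.iterate_succ_apply] at this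
  · rintro ⟨h0, h1⟩ j hj
    rcases j with _ | j
    · exact h0
    · rw [Function.iterate_succ_apply]
      exact h1 j (by omega)

theorem ou_dm {k : ℕ} {z : ℂ} (h : z ∈ oU f U k) (h2 : f^[k] z ∈ thickening δ P) : z ∈ dm f U P δ k := ⟨h, h2⟩

theorem dm_open (h : SS f U P Cr δ η ρ) (k : ℕ) : IsOpen (dm f U P δ k) := by
  induction k with
  | zero =>
    rw [dm_zero]
    exact isOpen_thickening
  | succ k ih =>
    have he : dm f U P δ (k + 1) = U ∩ f ⁻¹' (dm f U P δ k) := by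
      ext z
      exact dm_succ k z
    rw [he]
    exact h.fd.continuousOn.isOpen_inter_preimage h.Uo ih

theorem dm_diff (h : SS f U P Cr δ η ρ) (k : ℕ) : DifferentiableOn ℂ (f^[k]) (dm f U P δ k) := by
  induction k with
  | zero => simpa using differentiableOn_id
  | succ k ih =>
    rw [Function.iterate_succ]
    exact ih.comp (h.fd.mono fun z hz => ((dm_succ k z).1 hz).1) fun z hz => ((dm_succ k z).1 hz).2

theorem P_it (h : SS f U P Cr δ η ρ) (k : ℕ) {z : ℂ} (hz : z ∈ P) : f^[k] z ∈ P := by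
  induction k with
  | zero => simpa using hz
  | succ k ih =>
    rw [Function.iterate_succ_apply']
    exact h.Pf _ ih

theorem P_dm (h : SS f U P Cr δ η ρ) (k : ℕ) : P ⊆ dm f U P δ k := by
  intro z hz
  exact ⟨fun j _ => h.PU (P_it h j hz), self_subset_thickening h.hδ P (P_it h k hz)⟩

/-- lifts along star shaped sets avoiding `P` -/
theorem lift_star (h : SS f U P Cr δ η ρ) : ∀ (k : ℕ) (S : Set ℂ) (H : ℂ → ℂ) (p q z : ℂ), p ∈ S → StarConvex ℝ p S →
    IsOpen S → DifferentiableOn ℂ H S → (∀ u ∈ S, H u ∉ P) → q ∈ S → z ∈ oU f U k → f^[k] z = H q →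
    ∃ G : ℂ → ℂ, DifferentiableOn ℂ G S ∧ G q = z ∧ ∀ u ∈ S, G u ∈ oU f U k ∧ f^[k] (G u) = H u := by
  intro k
  induction k with
  | zero =>
    intro S H p q z _ _ _ hd _ _ _ he
    exact ⟨H, hd, he.symm, fun u _ => ⟨fun j hj => absurd hj (Nat.not_lt_zero j), rfl⟩⟩
  | succ k ih =>
    intro S H p q z hp hS hSo hd hP hq hz he
    have hzk : z ∈ oU f U k := fun j hj => hz j (by omega)
    have hyU : f^[k] z ∈ U := hz k (by omega)
    rw [Function.iterate_succ_apply'] at he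
    obtain ⟨G1, g1, g2, g3⟩ := h.lift1 S H p q (f^[k] z) hp hS hSo hd
      (fun u hu c hc he => hP u hu (by rw [he]; exact h.CP c hc)) hq hyU he
    have hG1P : ∀ u ∈ S, G1 u ∉ P := by
      intro u hu hPu
      refine hP u hu ?_
      rw [← (g3 u hu).2]
      exact h.Pf _ hPu
    obtain ⟨G, k1, k2, k3⟩ := ih S G1 p q z hp hS hSo g1 hG1P hq hzk g2.symm
    refine ⟨G, k1, k2, fun u hu => ⟨fun j hj => ?_, ?_⟩⟩
    · rcases Nat.lt_succ_iff_lt_or_eq.1 hj with h1 | h1
      · exact (k3 u hu).1 j h1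
      · rw [h1, (k3 u hu).2]
        exact (g3 u hu).1
    · rw [Function.iterate_succ_apply', (k3 u hu).2]
      exact (g3 u hu).2

/-- the property `lift` of the setting `PS` (H56/UD) -/
theorem lift_dm (h : SS f U P Cr δ η ρ) (k : ℕ) (S : Set ℂ) (H : ℂ → ℂ) (q z : ℂ) (hS : Convex ℝ S) (hSo : IsOpen S)
    (hd : DifferentiableOn ℂ H S) (hP : ∀ u ∈ S, H u ∈ thickening δ P ∧ H u ∉ P) (hq : q ∈ S)
    (hz : z ∈ dm f U P δ k) (he : f^[k] z = H q) :
    ∃ G : ℂ → ℂ, DifferentiableOn ℂ G S ∧ G q = z ∧ ∀ u ∈ S, G u ∈ dm f U P δ k ∧ f^[k] (G u) = H u := by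
  obtain ⟨G, g1, g2, g3⟩ := lift_star h k S H q q z hq (hS.starConvex hq) hSo hd (fun u hu => (hP u hu).2) hq hz.1 he
  refine ⟨G, g1, g2, fun u hu => ⟨⟨(g3 u hu).1, ?_⟩, (g3 u hu).2⟩⟩
  rw [(g3 u hu).2]
  exact (hP u hu).1

/-- inverse branches on discs avoiding `P` -/
theorem br_any (h : SS f U P Cr δ η ρ) {k : ℕ} {w z : ℂ} {r : ℝ}
    (hP : ∀ u ∈ ball w r, u ∉ P) (hz : z ∈ oU f U k) (hw : f^[k] z ∈ ball w r) :
    ∃ G : ℂ → ℂ, DifferentiableOn ℂ G (ball w r) ∧ G (f^[k] z) = z ∧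
      ∀ u ∈ ball w r, G u ∈ oU f U k ∧ f^[k] (G u) = u := by
  obtain ⟨G, hG1, hG2, hG3⟩ := lift_star h k (ball w r) id (f^[k] z) (f^[k] z) z hw ((convex_ball w r).starConvex hw)
    isOpen_ball differentiableOn_id (fun u hu => hP u hu) hw hz rfl
  exact ⟨G, hG1, hG2, hG3⟩

/-- inverse branches on discs -/
theorem br_ball (h : SS f U P Cr δ η ρ) {k : ℕ} {w z : ℂ} {r : ℝ} (hJ : ball w r ⊆ thickening δ P)
    (hP : ∀ u ∈ ball w r, u ∉ P) (hz : z ∈ dm f U P δ k) (hw : f^[k] z ∈ ball w r) :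
    ∃ G : ℂ → ℂ, DifferentiableOn ℂ G (ball w r) ∧ G (f^[k] z) = z ∧
      ∀ u ∈ ball w r, G u ∈ dm f U P δ k ∧ f^[k] (G u) = u := by
  obtain ⟨G, hG1, hG2, hG3⟩ := lift_dm h k (ball w r) id (f^[k] z) z (convex_ball w r) isOpen_ball differentiableOn_id
    (fun u hu => ⟨hJ hu, hP u hu⟩) hw hz rfl
  exact ⟨G, hG1, hG2, hG3⟩

/-- lifts are unique -/
theorem lift_unique (h : SS f U P Cr δ η ρ) {k : ℕ} {S : Set ℂ} (hS : IsPreconnected S) {G G' : ℂ → ℂ}
    (hG : ContinuousOn G S) (hG' : ContinuousOn G' S) (h1 : ∀ u ∈ S, G u ∈ dm f U P δ k)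
    (h1' : ∀ u ∈ S, G' u ∈ dm f U P δ k) (he : ∀ u ∈ S, f^[k] (G u) = f^[k] (G' u))
    (hd : ∀ u ∈ S, deriv (f^[k]) (G u) ≠ 0) {q : ℂ} (hq : q ∈ S) (hqq : G q = G' q) : EqOn G G' S := by
  have : PreconnectedSpace S := isPreconnected_iff_preconnectedSpace.1 hS
  have hGc : Continuous (fun u : S => G u) := continuousOn_iff_continuous_domRestrict.1 hG
  have hGc' : Continuous (fun u : S => G' u) := continuousOn_iff_continuous_domRestrict.1 hG'
  have hcl : IsClosed {u : S | G u = G' u} := isClosed_eq hGc hGc'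
  have hop : IsOpen {u : S | G u = G' u} := by
    rw [isOpen_iff_mem_nhds]
    rintro ⟨u, hu⟩ (hue : G u = G' u)
    have hdA : DifferentiableOn ℂ (f^[k]) (dm f U P δ k) := dm_diff h k
    have hAn : AnalyticAt ℂ (f^[k]) (G u) := hdA.analyticAt ((dm_open h k).mem_nhds (h1 u hu))
    have hsd : HasStrictDerivAt (f^[k]) (deriv (f^[k]) (G u)) (G u) := hAn.hasStrictDerivAt
    have hev := (hsd.hasStrictFDerivAt_equiv (hd u hu)).eventually_left_inverse
    have e1 : ∀ᶠ v : S in 𝓝 ⟨u, hu⟩, HasStrictFDerivAt.localInverse (f^[k]) _ (G u)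
        (hsd.hasStrictFDerivAt_equiv (hd u hu)) (f^[k] (G v)) = G v :=
      (hGc.tendsto ⟨u, hu⟩).eventually hev
    have e2 : ∀ᶠ v : S in 𝓝 ⟨u, hu⟩, HasStrictFDerivAt.localInverse (f^[k]) _ (G u)
        (hsd.hasStrictFDerivAt_equiv (hd u hu)) (f^[k] (G' v)) = G' v := by
      have ht : Tendsto (fun v : S => G' v) (𝓝 ⟨u, hu⟩) (𝓝 (G u)) := by
        have h5 : Tendsto (fun v : S => G' v) (𝓝 ⟨u, hu⟩) (𝓝 (G' u)) := hGc'.tendsto ⟨u, hu⟩
        rwa [← hue] at h5
      exact ht.eventually hev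
    filter_upwards [e1, e2] with v hv1 hv2
    show G v = G' v
    rw [← hv1, ← hv2, he v v.2]
  have huniv : {u : S | G u = G' u} = Set.univ := IsClopen.eq_univ ⟨hcl, hop⟩ ⟨⟨q, hq⟩, hqq⟩
  intro u hu
  have : (⟨u, hu⟩ : S) ∈ {u : S | G u = G' u} := by
    rw [huniv]
    trivial
  exact this

/-- the derivative of the iterate along a lift -/
theorem der_lift (h : SS f U P Cr δ η ρ) {k : ℕ} {S : Set ℂ} (hS : IsOpen S) {G H : ℂ → ℂ}
    (hG : DifferentiableOn ℂ G S) (h1 : ∀ u ∈ S, G u ∈ dm f U P δ k ∧ f^[k] (G u) = H u) {u : ℂ} (hu : u ∈ S) :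
    deriv (f^[k]) (G u) * deriv G u = deriv H u := by
  have hGu : DifferentiableAt ℂ G u := hG.differentiableAt (hS.mem_nhds hu)
  have hfu : DifferentiableAt ℂ (f^[k]) (G u) := (dm_diff h k).differentiableAt ((dm_open h k).mem_nhds (h1 u hu).1)
  have he : H =ᶠ[𝓝 u] (f^[k]) ∘ G := by
    filter_upwards [hS.mem_nhds hu] with v hv
    exact (h1 v hv).2.symm
  rw [he.deriv_eq, deriv_comp u hfu hGu]

/-- the cocycle of the field `X` along the iterates: `X (f^k z) = (f^k)' (z) X(z) + h_k(z)` with `h_k` holomorphic -/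
theorem X_it (h : SS f U P Cr δ η ρ) {E : Set ℂ} {X hh μ : ℂ → ℂ} {b0 : ℝ} (hX : SX f U P E X hh μ b0) (k : ℕ) :
    ∃ H : ℂ → ℂ, DifferentiableOn ℂ H (dm f U P δ k) ∧
      ∀ z ∈ dm f U P δ k, X (f^[k] z) = deriv (f^[k]) z * X z + H z := by
  induction k with
  | zero =>
    refine ⟨fun _ => 0, differentiableOn_const 0, fun z _ => ?_⟩
    simp
  | succ k ih =>
    obtain ⟨H, hH1, hH2⟩ := ih
    have hsub : ∀ z ∈ dm f U P δ (k + 1), z ∈ U := fun z hz => ((dm_succ k z).1 hz).1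
    have hmap : MapsTo f (dm f U P δ (k + 1)) (dm f U P δ k) := fun z hz => ((dm_succ k z).1 hz).2
    have hfd : DifferentiableOn ℂ f (dm f U P δ (k + 1)) := h.fd.mono hsub
    have hdd : DifferentiableOn ℂ (deriv (f^[k])) (dm f U P δ k) := (dm_diff h k).deriv (dm_open h k)
    refine ⟨fun z => deriv (f^[k]) (f z) * hh z + H (f z), ?_, fun z hz => ?_⟩
    · exact ((hdd.comp hfd hmap).mul (hX.hd.mono hsub)).add (hH1.comp hfd hmap)
    · have hzU := hsub z hz
      have hfz := hmap hz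
      have e1 := hH2 (f z) hfz
      have e2 := hX.eq z hzU
      have e3 : deriv (f^[k + 1]) z = deriv (f^[k]) (f z) * deriv f z := by
        rw [Function.iterate_succ]
        exact deriv_comp z ((dm_diff h k).differentiableAt ((dm_open h k).mem_nhds hfz))
          (h.fd.differentiableAt (h.Uo.mem_nhds hzU))
      rw [Function.iterate_succ_apply, e1, e2, e3]
      ring

end Pool.Agent.H78.UX
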