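import Pool.Agent.H56.UD.DD
import Pool.Agent.H78.UX.DC

import Pool.Agent.H78.UX.DD

/-!
# THEOREM UD for Julia set = sphere, chapter D: frames give limit systems

PROOF. `P0`: `x n ∈ P`. `Pc`, `Do`, `Fd`: preimages, chain rule (`dm_open`, `dm_diff`). `gap`: for `w ∈ Pn n` take the gap disc `ψ` of `P` at `x n + R n w` with the scale `|R n| r < r0` (eventually): `(ψ - x n) / R n`. `lift`: `PS.lift` for `x n + R n H` (`|R n| M < δ` eventually, so it is in `thickening δ P` since `x n ∈ J`): `(G - z n) / σ n`. `gal`: `galois`. `pb`: `pbk` (`|R n| M < δ2` eventually) for `x n + R n ψ`, `z n + σ n q`; a pull back unit `φ` gives `(φ - z n) / σ n`.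
`fr_deg`: if `σ → 0` and there are branches over discs of radius `c |R n|` near `x n`, comparable with `z n`, then `R n → 0`.
-/

set_option autoImplicit false

open Filter Topology Metric Set MeasureTheory

namespace Pool.Agent.H78.UX

open Pool.Agent.H56.UD

variable {f : ℂ → ℂ} {U P Cr E : Set ℂ} {δ b0 : ℝ} {η : ℂ → ℂ → ℂ} {ρ : ℝ} {X hh μ : ℂ → ℂ}

private theorem ev_small {𝒰 : Ultrafilter ℕ} {R : ℕ → ℂ} (h : Tendsto R (𝒰 : Filter ℕ) (𝓝 0))
    (A : ℝ) {B : ℝ} (hB : 0 < B) : ∀ᶠ n in (𝒰 : Filter ℕ), ‖R n‖ * A < B := by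
  have h1 : Tendsto (fun n => ‖R n‖ * A) (𝒰 : Filter ℕ) (𝓝 0) := by
    have h2 := h.norm.mul_const A
    rwa [norm_zero, zero_mul] at h2
  exact h1.eventually_lt_const hB

private theorem sc_norm {R : ℂ} (hR : R ≠ 0) (x w v : ℂ) : ‖(v - x) / R - w‖ = ‖v - (x + R * w)‖ / ‖R‖ := by
  rw [← norm_div]
  congr 1
  field_simp
  ring

private theorem sc_norm2 (R x w v : ℂ) : ‖x + R * v - (x + R * w)‖ = ‖R‖ * ‖v - w‖ := by
  rw [← norm_mul]
  congr 1
  ring

private theorem gd_scale {θ C : ℝ} {P : Set ℂ} {x R : ℂ} (hR : R ≠ 0) {w : ℂ} {r : ℝ} {ψ : ℂ → ℂ}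
    (h : GD θ C P (x + R * w) (‖R‖ * r) ψ) : GD θ C {v | x + R * v ∈ P} w r (fun u => (ψ u - x) / R) := by
  have hR' : 0 < ‖R‖ := norm_pos_iff.2 hR
  refine ⟨(h.diff.sub_const x).div_const R, ?_, ?_, ?_, ?_⟩
  · intro a ha b hb hab
    have h1 : ψ a - x = ψ b - x := (div_left_inj' hR).1 hab
    exact h.inj ha hb (sub_left_injective h1)
  · intro u hu
    rw [mem_ball, dist_eq_norm] at hu
    have h1 : x + R * u ∈ ball (x + R * w) (‖R‖ * r / C) := by
      rw [mem_ball, dist_eq_norm, sc_norm2, mul_div_assoc]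
      exact mul_lt_mul_of_pos_left hu hR'
    obtain ⟨v, hv, hvu⟩ := h.inn h1
    refine ⟨v, hv, ?_⟩
    show (ψ v - x) / R = u
    rw [hvu, add_sub_cancel_left, mul_div_cancel_left₀ _ hR]
  · rintro _ ⟨v, hv, rfl⟩
    have h1 := h.out ⟨v, hv, rfl⟩
    rw [mem_ball, dist_eq_norm] at h1 ⊢
    rw [sc_norm hR, div_lt_iff₀ hR', mul_comm r]
    exact h1
  · intro u h1 h2 h3
    refine h.col u h1 h2 ?_
    have h4 : x + R * ((ψ u - x) / R) = ψ u := by
      rw [mul_div_cancel₀ _ hR]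
      ring
    have h5 : x + R * ((ψ u - x) / R) ∈ P := h3
    rwa [h4] at h5

private theorem gd_unscale {θ C : ℝ} {P : Set ℂ} {x R : ℂ} (hR : R ≠ 0) {w : ℂ} {r : ℝ} {ψ : ℂ → ℂ}
    (h : GD θ C {v | x + R * v ∈ P} w r ψ) : GD θ C P (x + R * w) (‖R‖ * r) (fun u => x + R * ψ u) := by
  have hR' : 0 < ‖R‖ := norm_pos_iff.2 hR
  refine ⟨(h.diff.const_mul R).const_add x, ?_, ?_, ?_, ?_⟩
  · intro a ha b hb hab
    have h1 : R * ψ a = R * ψ b := add_left_cancel hab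
    exact h.inj ha hb (mul_left_cancel₀ hR h1)
  · intro u hu
    rw [mem_ball, dist_eq_norm] at hu
    have h1 : (u - x) / R ∈ ball w (r / C) := by
      rw [mem_ball, dist_eq_norm, sc_norm hR, div_lt_iff₀ hR']
      calc ‖u - (x + R * w)‖ < ‖R‖ * r / C := hu
        _ = r / C * ‖R‖ := by ring
    obtain ⟨v, hv, hvu⟩ := h.inn h1
    refine ⟨v, hv, ?_⟩
    show x + R * ψ v = u
    rw [hvu, mul_div_cancel₀ _ hR]
    ring
  · rintro _ ⟨v, hv, rfl⟩
    have h1 := h.out ⟨v, hv, rfl⟩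
    rw [mem_ball, dist_eq_norm] at h1
    show x + R * ψ v ∈ ball (x + R * w) (‖R‖ * r)
    rw [mem_ball, dist_eq_norm, sc_norm2]
    exact mul_lt_mul_of_pos_left h1 hR'
  · intro u h1 h2 h3
    exact h.col u h1 h2 h3

theorem fm_ls (h : SS f U P Cr δ η ρ) (hX : SX f U P E X hh μ b0) {θ C r0 : ℝ} (hθ : 0 < θ) (hθ1 : θ < 1) (hC : 1 ≤ C)
    (hr0 : 0 < r0) (hU : UG θ C r0 P) {𝒰 : Ultrafilter ℕ} {z : ℕ → ℂ} {k : ℕ → ℕ} {x R σ : ℕ → ℂ} (hm : Fm 𝒰 E P z k x R σ) :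
    LS 𝒰 (Fn f z k x R σ) (Dn f U P δ z k σ) (Pn P x R) θ C := by
  have hmap : ∀ n, Continuous fun w : ℂ => x n + R n * w := fun n => by fun_prop
  have hmap2 : ∀ n, Continuous fun w : ℂ => z n + σ n * w := fun n => by fun_prop
  have hback : ∀ n (v : ℂ), z n + σ n * ((v - z n) / σ n) = v := fun n v => by
    rw [mul_div_cancel₀ _ (hm.σ0 n)]
    ring
  have hFn : ∀ n (s v : ℂ), Fn f z k x R σ n s = v ↔ f^[k n] (z n + σ n * s) = x n + R n * v := by
    intro n s v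
    unfold Fn
    rw [div_eq_iff (hm.R0 n), sub_eq_iff_eq_add]
    constructor
    · intro h1
      rw [h1]
      ring
    · intro h1
      rw [h1]
      ring
  refine ⟨hθ, hθ1, hC, ?_, ?_, ?_, ?_, ?_, ?_, ?_, ?_⟩
  · exact fun n => h.Pc.isClosed.preimage (hmap n)
  · intro n
    show x n + R n * 0 ∈ P
    rw [mul_zero, add_zero]
    exact hm.xP n
  · exact fun n => (dm_open h (k n)).preimage (hmap2 n)
  · intro n
    have h1 : DifferentiableOn ℂ (fun s : ℂ => f^[k n] (z n + σ n * s)) (Dn f U P δ z k σ n) := by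
      have h2 : DifferentiableOn ℂ (fun w : ℂ => z n + σ n * w) (Dn f U P δ z k σ n) := by
        fun_prop
      exact (dm_diff h (k n)).comp h2 fun s hs => hs
    exact (h1.sub_const (x n)).div_const (R n)
  · intro r M hr
    filter_upwards [ev_small hm.Rt r hr0] with n hn w hw _
    have hR' : 0 < ‖R n‖ := norm_pos_iff.2 (hm.R0 n)
    obtain ⟨ψ, hψ⟩ := hU (x n + R n * w) hw (‖R n‖ * r) (mul_pos hR' hr) hn
    exact ⟨_, gd_scale (hm.R0 n) hψ⟩
  · intro M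
    filter_upwards [ev_small hm.Rt |M| h.hδ] with n hn S H q s hS hSo hH hHu hq hs hfs
    have hR' : 0 < ‖R n‖ := norm_pos_iff.2 (hm.R0 n)
    obtain ⟨G, hG1, hG2, hG3⟩ := lift_dm h (k n) S (fun u => x n + R n * H u) q (z n + σ n * s) hS hSo
      ((hH.const_mul (R n)).const_add (x n)) (fun u hu => by
        refine ⟨?_, (hHu u hu).2⟩
        rw [mem_thickening_iff]
        refine ⟨x n, (hm.xP n), ?_⟩
        rw [dist_eq_norm, add_sub_cancel_left, norm_mul]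
        have h1 : ‖H u‖ ≤ |M| := (hHu u hu).1.le.trans (le_abs_self M)
        exact lt_of_le_of_lt (mul_le_mul_of_nonneg_left h1 hR'.le) hn) hq hs
      ((hFn n s (H q)).1 hfs)
    refine ⟨fun u => (G u - z n) / σ n, (hG1.sub_const (z n)).div_const (σ n), ?_, fun u hu => ⟨?_, ?_⟩⟩
    · show (G q - z n) / σ n = s
      rw [hG2, add_sub_cancel_left, mul_div_cancel_left₀ _ (hm.σ0 n)]
    · show z n + σ n * ((G u - z n) / σ n) ∈ dm f U P δ (k n)
      rw [hback]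
      exact (hG3 u hu).1
    · rw [hFn, hback]
      exact (hG3 u hu).2
  · intro w r M G G' hr hG hG'
    exact galois h hX hm.zE hm.R0 hm.σ0 hm.σt hr hG hG'
  · intro M
    obtain ⟨δ2, hδ2, hpb⟩ := pbk h hθ hθ1 hC
    filter_upwards [ev_small hm.Rt M hδ2] with n hn w r ψ q hw _ hr hrM hψ hq hq2
    have hR' : 0 < ‖R n‖ := norm_pos_iff.2 (hm.R0 n)
    have hcls : ∀ m, Cls θ m q → Cls θ m fun ζ => z n + σ n * q ζ := by
      intro m hc ζ h1 h2
      show z n + σ n * q _ = z n + σ n * q ζ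
      rw [hc ζ h1 h2]
    obtain ⟨φ, β, hφ, hsub, hβ⟩ := hpb (k n) (x n + R n * w) (‖R n‖ * r)
      (fun u => x n + R n * ψ u) (fun ζ => z n + σ n * q ζ) hw (mul_pos hR' hr)
      (lt_of_le_of_lt (mul_le_mul_of_nonneg_left hrM hR'.le) hn) (gd_unscale (hm.R0 n) hψ)
      ⟨(hq.diff.const_mul (σ n)).const_add (z n), fun ζ hζ =>
        ⟨(hq.val ζ hζ).1, (hFn n _ _).1 (hq.val ζ hζ).2⟩⟩ (hcls 2 hq2)
    refine ⟨fun v => (φ v - z n) / σ n, β, ⟨(hφ.diff.sub_const (z n)).div_const (σ n), ?_, ?_, hφ.typ⟩,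
      ?_, fun h1 => hβ (hcls 1 h1)⟩
    · intro a ha b hb hab
      have h1 : φ a - z n = φ b - z n := (div_left_inj' (hm.σ0 n)).1 hab
      exact hφ.inj ha hb (sub_left_injective h1)
    · intro v hv
      refine ⟨?_, ?_⟩
      · show z n + σ n * ((φ v - z n) / σ n) ∈ dm f U P δ (k n)
        rw [hback]
        exact (hφ.val v hv).1
      · rw [hFn, hback]
        exact (hφ.val v hv).2
    · rintro _ ⟨ζ, hζ, rfl⟩
      obtain ⟨v, hv, hvq⟩ := hsub ⟨ζ, hζ, rfl⟩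
      refine ⟨v, hv, ?_⟩
      show (φ v - z n) / σ n = q ζ
      rw [hvq]
      show (z n + σ n * q ζ - z n) / σ n = q ζ
      rw [add_sub_cancel_left, mul_div_cancel_left₀ _ (hm.σ0 n)]

end Pool.Agent.H78.UX
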