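import Pool.Agent.H78.UX.DA
import Pool.Agent.H56.UD.DB

/-!
# THEOREM UD for Julia set = sphere, chapter D: small pull backs

`uni_ball`: univalent functions on the unit disc which are not small on `closedBall 0 ρ0` cover a fixed disc (distortion).
`not_small`: for `a` in a compact set the iterates do not map `ball a r` to small discs (`SS.leo`).
`sh`: pull backs of small discs which meet `P` (in `closedBall 0 ρ0`) are small.
-/

set_option autoImplicit false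

open Filter Topology Metric Set MeasureTheory

namespace Pool.Agent.H78.UX

open Pool.Agent.H56.UD

variable {f : ℂ → ℂ} {U P Cr : Set ℂ} {δ : ℝ} {η : ℂ → ℂ → ℂ} {ρ : ℝ}

private theorem db_seg {g : ℂ → ℂ} {S : Set ℂ} {r : ℝ} (hr : 0 < r) (hg : DifferentiableOn ℂ g S)
    (hi : InjOn g S) (N : ℕ) (p : ℕ → ℂ) (hp : ∀ j ≤ N, ball (p j) r ⊆ S)
    (hst : ∀ j < N, ‖p (j + 1) - p j‖ ≤ r / 2) :
    ‖deriv g (p N)‖ ≤ Pool.Agent.H80.AJ.KK ^ N * ‖deriv g (p 0)‖ ∧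
      ‖g (p N) - g (p 0)‖ ≤ N * Pool.Agent.H80.AJ.KK ^ N * r * ‖deriv g (p 0)‖ := by
  induction N with
  | zero =>
    refine ⟨by simp, by simp⟩
  | succ N ih =>
    obtain ⟨h1, h2⟩ := ih (fun j hj => hp j (by omega)) fun j hj => hst j (by omega)
    have hb := hp N (by omega)
    have hgb := hg.mono hb
    have hib := hi.mono hb
    have hw : p (N + 1) ∈ closedBall (p N) (r / 2) := by
      rw [mem_closedBall, dist_eq_norm]
      exact hst N (by omega)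
    have hc : p N ∈ closedBall (p N) (r / 2) := mem_closedBall_self (by linarith)
    have h3 := Pool.Agent.H80.AJ.distort hr hgb hib hw hc
    have h4 := Pool.Agent.H80.AJ.distort_lip hr hgb hib hw hc hc
    have hK := Pool.Agent.H80.AJ.one_le_KK
    have hK0 := Pool.Agent.H80.AJ.KK_pos
    have hKN : 0 < Pool.Agent.H80.AJ.KK ^ N := pow_pos hK0 N
    have hD := norm_nonneg (deriv g (p 0))
    refine ⟨?_, ?_⟩
    · calc ‖deriv g (p (N + 1))‖ ≤ Pool.Agent.H80.AJ.KK * ‖deriv g (p N)‖ := h3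
        _ ≤ Pool.Agent.H80.AJ.KK * (Pool.Agent.H80.AJ.KK ^ N * ‖deriv g (p 0)‖) := mul_le_mul_of_nonneg_left h1 hK0.le
        _ = Pool.Agent.H80.AJ.KK ^ (N + 1) * ‖deriv g (p 0)‖ := by ring
    · have h5 : ‖g (p (N + 1)) - g (p N)‖ ≤ Pool.Agent.H80.AJ.KK ^ (N + 1) * r * ‖deriv g (p 0)‖ := by
        calc ‖g (p (N + 1)) - g (p N)‖ ≤ Pool.Agent.H80.AJ.KK * ‖deriv g (p N)‖ * ‖p (N + 1) - p N‖ := h4
          _ ≤ Pool.Agent.H80.AJ.KK * (Pool.Agent.H80.AJ.KK ^ N * ‖deriv g (p 0)‖) * r := by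
              have h6 : ‖p (N + 1) - p N‖ ≤ r := (hst N (by omega)).trans (by linarith)
              exact mul_le_mul (mul_le_mul_of_nonneg_left h1 hK0.le) h6 (norm_nonneg _) (by positivity)
          _ = Pool.Agent.H80.AJ.KK ^ (N + 1) * r * ‖deriv g (p 0)‖ := by ring
      have h7 : ‖g (p (N + 1)) - g (p 0)‖ ≤ ‖g (p (N + 1)) - g (p N)‖ + ‖g (p N) - g (p 0)‖ := by
        have := norm_add_le (g (p (N + 1)) - g (p N)) (g (p N) - g (p 0))
        rwa [sub_add_sub_cancel] at this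
      have h8 : (N : ℝ) * Pool.Agent.H80.AJ.KK ^ N * r * ‖deriv g (p 0)‖ ≤
          N * Pool.Agent.H80.AJ.KK ^ (N + 1) * r * ‖deriv g (p 0)‖ := by
        have h9 : Pool.Agent.H80.AJ.KK ^ N ≤ Pool.Agent.H80.AJ.KK ^ (N + 1) :=
          pow_le_pow_right₀ hK (Nat.le_succ N)
        have h10 : (0 : ℝ) ≤ N := N.cast_nonneg
        gcongr
      push_cast
      linarith

/-- distortion on `closedBall 0 ρ0` -/
theorem dist_cb {ρ0 : ℝ} (h0 : 0 < ρ0) (h1 : ρ0 < 1) : ∃ M : ℝ, 1 ≤ M ∧ ∀ φ : ℂ → ℂ, DifferentiableOn ℂ φ (ball 0 1) →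
    InjOn φ (ball 0 1) → ∀ u ∈ closedBall (0 : ℂ) ρ0, ∀ v ∈ closedBall (0 : ℂ) ρ0,
      ‖deriv φ u‖ ≤ M * ‖deriv φ v‖ ∧ ‖φ u - φ v‖ ≤ M * ‖deriv φ v‖ := by
  have hr : 0 < 1 - ρ0 := by linarith
  obtain ⟨N, hN⟩ := exists_nat_gt (4 / (1 - ρ0))
  have hN4 : 4 < N * (1 - ρ0) := by
    rwa [div_lt_iff₀ hr] at hN
  have hN0 : (0 : ℝ) < N := by
    by_contra hcon
    push Not at hcon
    nlinarith
  have hK := Pool.Agent.H80.AJ.one_le_KK
  have hKN : 1 ≤ Pool.Agent.H80.AJ.KK ^ N := one_le_pow₀ hK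
  refine ⟨(N + 1) * Pool.Agent.H80.AJ.KK ^ N, by nlinarith, fun φ hd hi u hu v hv => ?_⟩
  obtain ⟨p, hp⟩ : ∃ p : ℕ → ℂ, p = fun j : ℕ => v + ((j : ℝ) / N : ℝ) • (u - v) := ⟨_, rfl⟩
  have hpj : ∀ j ≤ N, p j ∈ closedBall (0 : ℂ) ρ0 := by
    intro j hj
    have h2 := (convex_closedBall (0 : ℂ) ρ0).add_smul_sub_mem hv hu (t := (j : ℝ) / N)
      ⟨by positivity, by rw [div_le_one hN0]; exact_mod_cast hj⟩
    rw [hp]
    exact h2
  have hb : ∀ j ≤ N, ball (p j) (1 - ρ0) ⊆ ball (0 : ℂ) 1 := by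
    intro j hj w hw
    have h2 := hpj j hj
    rw [mem_closedBall] at h2
    rw [mem_ball] at hw ⊢
    have := dist_triangle w (p j) 0
    linarith
  have hst : ∀ j < N, ‖p (j + 1) - p j‖ ≤ (1 - ρ0) / 2 := by
    intro j _
    have e1 : p (j + 1) - p j = ((1 : ℝ) / N : ℝ) • (u - v) := by
      rw [hp]
      simp only [Complex.real_smul]
      push_cast
      ring
    rw [e1, norm_smul, Real.norm_eq_abs, abs_of_pos (by positivity)]
    have h2 : ‖u - v‖ ≤ 2 := by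
      rw [mem_closedBall_zero_iff] at hu hv
      have := norm_sub_le u v
      linarith
    rw [div_mul_eq_mul_div, one_mul, div_le_iff₀ hN0]
    linarith
  have hs := db_seg hr hd hi N p hb hst
  have p0 : p 0 = v := by
    rw [hp]
    simp
  have pN : p N = u := by
    rw [hp]
    show v + ((N : ℝ) / N : ℝ) • (u - v) = u
    rw [div_self hN0.ne', one_smul]
    ring
  rw [p0, pN] at hs
  have hD := norm_nonneg (deriv φ v)
  constructor
  · refine hs.1.trans (mul_le_mul_of_nonneg_right ?_ hD)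
    nlinarith
  · refine hs.2.trans (mul_le_mul_of_nonneg_right ?_ hD)
    have h3 : (N : ℝ) * Pool.Agent.H80.AJ.KK ^ N * (1 - ρ0) ≤ N * Pool.Agent.H80.AJ.KK ^ N :=
      mul_le_of_le_one_right (by positivity) (by linarith)
    nlinarith

/-- univalent functions which are not small cover a fixed disc -/
theorem uni_ball {ρ0 ε : ℝ} (h0 : 0 < ρ0) (h1 : ρ0 < 1) (hε : 0 < ε) : ∃ r : ℝ, 0 < r ∧ ∀ φ : ℂ → ℂ,
    DifferentiableOn ℂ φ (ball 0 1) → InjOn φ (ball 0 1) → ∀ v ∈ closedBall (0 : ℂ) ρ0,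
    (∃ u ∈ closedBall (0 : ℂ) ρ0, ∃ u' ∈ closedBall (0 : ℂ) ρ0, ε ≤ ‖φ u - φ u'‖) →
    ball (φ v) r ⊆ φ '' ball 0 1 := by
  obtain ⟨M, hM1, hM⟩ := dist_cb h0 h1
  have hr : 0 < 1 - ρ0 := by linarith
  refine ⟨(1 - ρ0) * (ε / (2 * M)) / 16, by positivity, fun φ hd hi v hv ⟨u, hu, u', hu', hge⟩ => ?_⟩
  have h2 := (hM φ hd hi u hu v hv).2
  have h3 := (hM φ hd hi u' hu' v hv).2
  have h4 : ε ≤ 2 * M * ‖deriv φ v‖ := by
    have := norm_sub_le (φ u - φ v) (φ u' - φ v)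
    rw [sub_sub_sub_cancel_right] at this
    linarith
  have h5 : ε / (2 * M) ≤ ‖deriv φ v‖ := by
    rw [div_le_iff₀ (by positivity)]
    linarith
  have hb : ball v (1 - ρ0) ⊆ ball (0 : ℂ) 1 := by
    intro w hw
    rw [mem_closedBall] at hv
    rw [mem_ball] at hw ⊢
    have := dist_triangle w v 0
    linarith
  have h6 := Pool.Agent.H80.AJ.univ_cover hr (hd.mono hb) (hi.mono hb)
  refine (ball_subset_ball ?_).trans (h6.trans (image_mono hb))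
  have : (1 - ρ0) * (ε / (2 * M)) ≤ (1 - ρ0) * ‖deriv φ v‖ := mul_le_mul_of_nonneg_left h5 hr.le
  linarith

/-- the iterates do not map discs of a fixed size to small discs -/
theorem not_small (h : SS f U P Cr δ η ρ) {K : Set ℂ} (hK : IsCompact K) {r : ℝ} (hr : 0 < r) :
    ∃ δ2 : ℝ, 0 < δ2 ∧ ∀ a ∈ K, ∀ (k : ℕ) (y : ℂ), ∃ s ∈ ball a r ∩ oU f U k, f^[k] s ∉ ball y δ2 := by
  refine hK.induction_on (p := fun K => ∃ δ2 : ℝ, 0 < δ2 ∧ ∀ a ∈ K, ∀ (k : ℕ) (y : ℂ),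
    ∃ s ∈ ball a r ∩ oU f U k, f^[k] s ∉ ball y δ2) ⟨1, one_pos, fun a ha => absurd ha (notMem_empty a)⟩ ?_ ?_ ?_
  · rintro A B hAB ⟨δ2, h1, h2⟩
    exact ⟨δ2, h1, fun a ha => h2 a (hAB ha)⟩
  · rintro A B ⟨δ2, h1, h2⟩ ⟨δ3, h3, h4⟩
    refine ⟨min δ2 δ3, lt_min h1 h3, fun a ha k y => ?_⟩
    rcases ha with ha | ha
    · obtain ⟨s, hs, hs2⟩ := h2 a ha k y
      exact ⟨s, hs, fun h5 => hs2 (ball_subset_ball (min_le_left _ _) h5)⟩
    · obtain ⟨s, hs, hs2⟩ := h4 a ha k y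
      exact ⟨s, hs, fun h5 => hs2 (ball_subset_ball (min_le_right _ _) h5)⟩
  · intro a _
    obtain ⟨N, hN⟩ := h.leo (ball a (r / 2)) isOpen_ball ⟨a, mem_ball_self (by linarith)⟩ 2
    have m0 : (0 : ℂ) ∈ ball (0 : ℂ) 2 := mem_ball_self two_pos
    have m1 : (1 : ℂ) ∈ ball (0 : ℂ) 2 := by rw [mem_ball_zero_iff, norm_one]; norm_num
    obtain ⟨s, hs, hs0⟩ := hN N le_rfl m0
    obtain ⟨t, ht, ht0⟩ := hN N le_rfl m1
    have hne : ∀ j ∈ Finset.range (N + 1), 0 < dist (f^[j] s) (f^[j] t) := by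
      intro j hj
      rw [Finset.mem_range] at hj
      rw [dist_pos]
      intro he
      have h2 : f^[N] s = f^[N] t := by
        rw [show N = (N - j) + j by omega, Function.iterate_add_apply, Function.iterate_add_apply, he]
      rw [hs0, ht0] at h2
      exact zero_ne_one h2
    obtain ⟨j0, hj0, hmin⟩ := Finset.exists_min_image (Finset.range (N + 1)) (fun j => dist (f^[j] s) (f^[j] t))
      ⟨0, Finset.mem_range.2 (by omega)⟩
    have hm := hne j0 hj0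
    refine ⟨ball a (r / 2), mem_nhdsWithin_of_mem_nhds (ball_mem_nhds a (by linarith)),
      min (dist (f^[j0] s) (f^[j0] t) / 2) (1 / 2), lt_min (by linarith) (by norm_num), fun b hb k y => ?_⟩
    have hsub : ball a (r / 2) ⊆ ball b r := by
      intro w hw
      rw [mem_ball] at hb hw ⊢
      have := dist_triangle_right w b a
      linarith
    by_contra hcon
    push Not at hcon
    rcases le_total N k with hk | hk
    · obtain ⟨s', hs', hs0'⟩ := hN k hk m0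
      obtain ⟨t', ht', ht0'⟩ := hN k hk m1
      have e1 := hcon s' ⟨hsub hs'.1, hs'.2⟩
      have e2 := hcon t' ⟨hsub ht'.1, ht'.2⟩
      rw [hs0', mem_ball] at e1
      rw [ht0', mem_ball] at e2
      have e3 := dist_triangle_right (0 : ℂ) 1 y
      have e4 : dist (0 : ℂ) 1 = 1 := by simp
      have e5 : min (dist (f^[j0] s) (f^[j0] t) / 2) (1 / 2) ≤ 1 / 2 := min_le_right _ _
      linarith
    · have e1 := hcon s ⟨hsub hs.1, fun j hj => hs.2 j (by omega)⟩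
      have e2 := hcon t ⟨hsub ht.1, fun j hj => ht.2 j (by omega)⟩
      rw [mem_ball] at e1 e2
      have e3 := dist_triangle_right (f^[k] s) (f^[k] t) y
      have e4 := hmin k (Finset.mem_range.2 (by omega))
      have e5 : min (dist (f^[j0] s) (f^[j0] t) / 2) (1 / 2) ≤ dist (f^[j0] s) (f^[j0] t) / 2 := min_le_left _ _
      linarith

/-- small pull backs -/
theorem sh (h : SS f U P Cr δ η ρ) {ρ0 ε : ℝ} (h0 : 0 < ρ0) (h1 : ρ0 < 1) (hε : 0 < ε) :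
    ∃ δ2 : ℝ, 0 < δ2 ∧ ∀ (k : ℕ) (φ : ℂ → ℂ) (y : ℂ), DifferentiableOn ℂ φ (ball 0 1) → InjOn φ (ball 0 1) →
      (∀ v ∈ ball (0 : ℂ) 1, f^[k] (φ v) ∈ ball y δ2) → (∃ v ∈ closedBall (0 : ℂ) ρ0, φ v ∈ P) →
      ∀ v ∈ closedBall (0 : ℂ) ρ0, ∀ v' ∈ closedBall (0 : ℂ) ρ0, ‖φ v - φ v'‖ < ε := by
  obtain ⟨r, hr, hu⟩ := uni_ball h0 h1 hε
  obtain ⟨δ2, hδ2, hn⟩ := not_small h h.Pc hr
  refine ⟨δ2, hδ2, fun k φ y hd hi hv ⟨v0, hv0, hv0P⟩ v hv1 v' hv2 => ?_⟩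
  by_contra hcon
  push Not at hcon
  have h2 := hu φ hd hi v0 hv0 ⟨v, hv1, v', hv2, hcon⟩
  obtain ⟨s, hs, hs2⟩ := hn (φ v0) hv0P k y
  obtain ⟨w, hw, rfl⟩ := h2 hs.1
  exact hs2 (hv w hw)

/-- small pull back units over gap discs -/
theorem sh2 (h : SS f U P Cr δ η ρ) {θ C ρ0 ε : ℝ} (hθ1 : θ < 1) (h0 : 0 < ρ0) (h1 : ρ0 < 1) (hε : 0 < ε) :
    ∃ δ2 : ℝ, 0 < δ2 ∧ ∀ (k : ℕ) (x : ℂ) (r : ℝ) (ψ φ β : ℂ → ℂ), r < δ2 → GD θ C P x r ψ →
      PU (f^[k]) (dm f U P δ k) θ ψ φ β → (∃ v ∈ closedBall (0 : ℂ) ρ0, φ v ∈ P) →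
      ∀ v ∈ closedBall (0 : ℂ) ρ0, ∀ v' ∈ closedBall (0 : ℂ) ρ0, ‖φ v - φ v'‖ < ε := by
  obtain ⟨δ2, hδ2, hsh⟩ := sh h h0 h1 hε
  refine ⟨δ2, hδ2, fun k x r ψ φ β hrδ hG hP hex => ?_⟩
  refine hsh k φ x hP.diff hP.inj (fun v hv => ?_) hex
  have hβ : β v ∈ ball (0 : ℂ) 1 := by
    rw [mem_ball_zero_iff] at hv ⊢
    rcases hP.typ with ht | ⟨α, hα, ht⟩
    · rw [ht]; exact hv
    · rw [ht]
      refine mob_lt (lt_of_le_of_lt hα hθ1) ?_
      rw [norm_pow]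
      nlinarith [norm_nonneg v]
  rw [(hP.val v hv).2]
  exact ball_subset_ball hrδ.le (hG.out ⟨β v, hβ, rfl⟩)

end Pool.Agent.H78.UX
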