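import Pool.Agent.H78.UX.DB
import Pool.Agent.H80.AJ.Porous

/-!
# THEOREM UD for Julia set = sphere: uniformly disconnected sets are null sets

A gap disc `ψ` at `x` with the radius `r` has a collar which contains a disc of radius `c r` (distortion); porous sets are null sets.
-/

set_option autoImplicit false

open Filter Topology Metric Set MeasureTheory

namespace Pool.Agent.H78.UX

open Pool.Agent.H56.UD

/-- the collar of a gap disc contains a disc -/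
theorem gd_ball {θ C : ℝ} (hθ : 0 < θ) (hθ1 : θ < 1) (hC : 1 ≤ C) : ∃ c : ℝ, 0 < c ∧ ∀ {P : Set ℂ} {x : ℂ} {r : ℝ} {ψ : ℂ → ℂ},
    0 < r → GD θ C P x r ψ → ∃ w : ℂ, ball w (c * r) ⊆ ball x r ∧ ∀ y ∈ ball w (c * r), y ∉ P := by
  obtain ⟨M, hM1, hM⟩ := dist_cb (ρ0 := (1 + θ) / 2) (by linarith) (by linarith)
  have hC0 : 0 < C := by linarith
  have hθ' : 0 < (1 - θ) / 2 := by linarith
  refine ⟨(1 - θ) / 2 * (1 / (4 * C * M)) / 16, by positivity, ?_⟩
  intro P x r ψ hr hG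
  obtain ⟨u1, hu1⟩ : ∃ u1 : ℂ, u1 = (((1 + θ) / 2 : ℝ) : ℂ) := ⟨_, rfl⟩
  have hn1 : ‖u1‖ = (1 + θ) / 2 := by
    rw [hu1, Complex.norm_real, Real.norm_of_nonneg (by linarith)]
  have hu1c : u1 ∈ closedBall (0 : ℂ) ((1 + θ) / 2) := by
    rw [mem_closedBall_zero_iff, hn1]
  have hsub : closedBall (0 : ℂ) ((1 + θ) / 2) ⊆ ball 0 1 := closedBall_subset_ball (by linarith)
  have hcol : ball u1 ((1 - θ) / 2) ⊆ {u : ℂ | θ < ‖u‖ ∧ ‖u‖ < 1} := by
    intro u hu
    rw [mem_ball, dist_eq_norm] at hu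
    have h1 := norm_sub_norm_le u1 u
    have h2 := norm_sub_norm_le u u1
    rw [norm_sub_rev] at h1
    rw [hn1] at h1 h2
    exact ⟨by linarith, by linarith⟩
  have hcol1 : ball u1 ((1 - θ) / 2) ⊆ ball (0 : ℂ) 1 := fun u hu => mem_ball_zero_iff.2 (hcol hu).2
  -- two points of the inner part
  have hx : x ∈ ball x (r / C) := mem_ball_self (by positivity)
  have hy : x + ((r / (2 * C) : ℝ) : ℂ) ∈ ball x (r / C) := by
    rw [mem_ball, dist_eq_norm, add_sub_cancel_left, Complex.norm_real, Real.norm_of_nonneg (by positivity)]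
    rw [div_lt_div_iff₀ (by positivity) hC0]
    nlinarith
  obtain ⟨a, ha, hax⟩ := hG.inn hx
  obtain ⟨b, hb, hbx⟩ := hG.inn hy
  have hac : a ∈ closedBall (0 : ℂ) ((1 + θ) / 2) := by
    rw [mem_ball_zero_iff] at ha
    rw [mem_closedBall_zero_iff]
    linarith
  have hbc : b ∈ closedBall (0 : ℂ) ((1 + θ) / 2) := by
    rw [mem_ball_zero_iff] at hb
    rw [mem_closedBall_zero_iff]
    linarith
  have h1 := (hM ψ hG.diff hG.inj a hac u1 hu1c).2
  have h2 := (hM ψ hG.diff hG.inj b hbc u1 hu1c).2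
  have h3 : r / (2 * C) ≤ 2 * M * ‖deriv ψ u1‖ := by
    have h4 : ψ b - ψ a = ((r / (2 * C) : ℝ) : ℂ) := by
      rw [hax, hbx]
      ring
    have h5 : ‖ψ b - ψ a‖ = r / (2 * C) := by
      rw [h4, Complex.norm_real, Real.norm_of_nonneg (by positivity)]
    have h6 := norm_sub_le (ψ b - ψ u1) (ψ a - ψ u1)
    rw [sub_sub_sub_cancel_right, h5] at h6
    linarith
  have h4 : 1 / (4 * C * M) * r ≤ ‖deriv ψ u1‖ := by
    rw [div_mul_eq_mul_div, one_mul, div_le_iff₀ (by positivity)]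
    rw [div_le_iff₀ (by positivity)] at h3
    linarith
  have h5 := Pool.Agent.H80.AJ.univ_cover hθ' (hG.diff.mono hcol1) (hG.inj.mono hcol1)
  have h6 : ball (ψ u1) ((1 - θ) / 2 * (1 / (4 * C * M)) / 16 * r) ⊆ ψ '' ball u1 ((1 - θ) / 2) := by
    refine (ball_subset_ball ?_).trans h5
    have h7 := mul_le_mul_of_nonneg_left h4 hθ'.le
    linarith
  refine ⟨ψ u1, h6.trans ((image_mono hcol1).trans hG.out), fun y hy => ?_⟩
  obtain ⟨u, hu, rfl⟩ := h6 hy
  exact hG.col u (hcol hu).1 (hcol hu).2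

/-- uniformly disconnected sets are null sets -/
theorem null_ug {θ C r0 : ℝ} {P : Set ℂ} (hθ : 0 < θ) (hθ1 : θ < 1) (hC : 1 ≤ C) (hr0 : 0 < r0) (hU : UG θ C r0 P) :
    volume P = 0 := by
  obtain ⟨c, hc, h⟩ := gd_ball hθ hθ1 hC
  refine Pool.Agent.H80.AJ.porous_null fun z hz => ⟨c, hc, fun ρ0 hρ0 => ?_⟩
  have hr : 0 < min ρ0 r0 / 2 := by positivity
  obtain ⟨ψ, hψ⟩ := hU z hz (min ρ0 r0 / 2) hr (by have := min_le_right ρ0 r0; linarith)
  obtain ⟨w, hw1, hw2⟩ := h hr hψ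
  exact ⟨min ρ0 r0 / 2, hr, by have := min_le_left ρ0 r0; linarith, w, hw1, hw2⟩

end Pool.Agent.H78.UX
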