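import Pool.Agent.H78.UX.MZ
import Pool.Agent.H78.UX.FN
import Pool.Agent.H27.BR.UDG
import Pool.Agent.H27.BR.FC
import Pool.Agent.H44.NR.Pdj
import Pool.Agent.H66.UX.FIN

/-!
# THEOREM UD for Julia set = sphere: final assembly, the theorem in the chart with three fixed points

`em_hom`: the chart map `em q` comes from a bi-Lipschitz homeomorphism. `sph_one`: a periodic point `q` outside the postcritical
set; `rz_ex`, `r1`, `r2` (H66/UX), `udm_gen`, `ug_of` (H27/BR), `core` (UX/MZ).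
-/

set_option autoImplicit false

open Filter Topology Polynomial Metric Set MeasureTheory

namespace Pool.Agent.H78.UX

open Pool.Agent.H44.Fatou (rat rat_continuous rat_coe rat_coe_of_ne pt crit_coe)
open Pool.Agent.H32.BT Pool.Agent.H79.Eul Pool.Agent.H79.Par
open Pool.Agent.H35.EX Pool.Agent.H44.RR Pool.Agent.H56.HR Pool.Agent.H44.RC Pool.Agent.H47.RJ
open Pool.Agent.H47.NM Pool.Agent.H47.NN Pool.Agent.H44.ND Pool.Agent.H79.ES Pool.Agent.H44.RG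
open Pool.Agent.H44.CP Pool.Agent.H47.PS Pool.Agent.H64.NC
open Pool.Agent.H61.TT (gg dg ww RatD)
open Pool.Agent.H27.BR (UDs UDm udm_gen uds_ne ug_of)
open Pool.Agent.H64.JS (KJ)
open Pool.Agent.H66.IL (em)
open Pool.Agent.H66.UX (PCs Pq rz_ex r1 r2)

variable {d : ℕ}

/-- the chart map -/
theorem em_hom (hd : 2 ≤ d) (q : ℂ) : ∃ (φ : OnePoint ℂ ≃ₜ OnePoint ℂ) (K : ℝ), 0 < K ∧
    (∀ x y, chord (φ x) (φ y) ≤ K * chord x y ∧ chord x y ≤ K * chord (φ x) (φ y)) ∧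
    ∀ w : ℂ, φ.symm (w : OnePoint ℂ) = em q w := by
  obtain ⟨G, φ, K, hch, h1, h2, h3⟩ := ch_mob (d := d) hd q
  refine ⟨φ, K, one_pos.trans_le hch.K1, hch.bil, fun w => ?_⟩
  rw [φ.symm_apply_eq]
  unfold Pool.Agent.H66.IL.em
  by_cases hw : w = 0
  · rw [if_pos hw, h3, hw]
  · rw [if_neg hw]
    have h4 : q + 1 / w ≠ q := by
      intro h5
      rw [add_eq_left, one_div, inv_eq_zero] at h5
      exact hw h5
    rw [h1 _ h4]
    congr 1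
    rw [add_sub_cancel_left, one_div, inv_inv]

/-- three fixed points `0`, `1`, `∞` -/
theorem sph_one {v : E d} (hd : 2 ≤ d) (hcop : IsCoprime (pol v.1) (pol v.2))
    (hdeg : max (pol v.1).natDegree (pol v.2).natDegree = d) (hup : ¬ Up v) (hJ : JS (Rf v) = univ)
    (h0 : Rf v ((0 : ℂ) : OnePoint ℂ) = ((0 : ℂ) : OnePoint ℂ))
    (h1 : Rf v ((1 : ℂ) : OnePoint ℂ) = ((1 : ℂ) : OnePoint ℂ)) (hi : Rf v OnePoint.infty = OnePoint.infty) :
    ¬ UDs (KJ {c | IsCrit (Rf v) c} (JS (Rf v)) (Rf v)) := by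
  intro hU
  have hU' : UDs (PCs v) := hU
  -- a periodic point outside the postcritical set
  have hcl : IsClosed (PCs v) := isClosed_closure
  obtain ⟨q, N, hN, hq, hqP⟩ : ∃ (q : ℂ) (N : ℕ), 1 ≤ N ∧ (Rf v)^[N] (q : OnePoint ℂ) = (q : OnePoint ℂ) ∧
      (q : OnePoint ℂ) ∉ PCs v := by
    have hne : ((PCs v)ᶜ).Nonempty := nonempty_compl.2 (uds_ne hU')
    obtain ⟨z, hz⟩ : ∃ z : ℂ, (z : OnePoint ℂ) ∈ (PCs v)ᶜ := by
      obtain ⟨y, hy, z, rfl⟩ := OnePoint.denseRange_coe.inter_open_nonempty _ hcl.isOpen_compl hne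
      exact ⟨z, hy⟩
    have hV : (PCs v)ᶜ ∩ {OnePoint.infty}ᶜ ∈ 𝓝 (z : OnePoint ℂ) :=
      (hcl.isOpen_compl.inter isClosed_singleton.isOpen_compl).mem_nhds ⟨hz, OnePoint.coe_ne_infty z⟩
    obtain ⟨p, ⟨hp1, hp2⟩, N, hN, hp⟩ := Pool.Agent.H44.NR.per_dense hd hcop hdeg (hJ ▸ mem_univ (z : OnePoint ℂ)) hV
    obtain ⟨q, hq⟩ := OnePoint.ne_infty_iff_exists.1 hp2
    refine ⟨q, N, hN, ?_, ?_⟩
    · rw [hq]
      exact hp
    · rw [hq]
      exact hp1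
  obtain ⟨A, B, hRZ, he⟩ := rz_ex hd hcop hdeg hup hJ h0 h1 hi hN hq hqP
  obtain ⟨φ, K, hK, bil, hφ⟩ := em_hom hd q
  obtain ⟨R, hR⟩ := hRZ.Pc.isBounded.exists_norm_le
  obtain ⟨C, hC⟩ := udm_gen (P := Pq v q) hK bil (fun z => by rw [hφ]; exact Iff.rfl) hR hU'
  obtain ⟨θ, C', hθ, hθ1, hC', hUG⟩ := ug_of (hC 1)
  have hvol := null_ug hθ hθ1 hC' one_pos hUG
  obtain ⟨η, ρ, hS⟩ := r1 hRZ one_pos
  obtain ⟨E, X, hh, μ, b0, hX⟩ := r2 hd hcop hdeg hup hJ h0 h1 hi hRZ he hvol hS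
  exact core hS hX hθ hθ1 hC' one_pos hUG

end Pool.Agent.H78.UX
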