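import Pool.Agent.H78.UX.MA

/-!
# THEOREM UD for Julia set = sphere, chapter M: the encounter lemma (ENC)

PROOF (think 1470, section 4; `C1 = 20`). Suppose not: for fixed `α, β` a sequence of states `(z n, k n, x n, R n; G n)` with `σ n = deriv (G n) 0 → 0` and critical points `c n ∈ Cr` with `20 exp α |R n| < |c n - x n| < |R n| exp β / 3`. `Cr` is finite: `c n = c` along `𝒰`. By `st_small` `R n → 0`. Write `ξ n = (c - x n) / R n → ξ0`, `20 exp α ≤ |ξ0| ≤ exp β / 3`.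
(1) `η c` is almost affine at the scale `|R n|`: `η c (v) - c = A v + O(v ^ 2)`, `A = deriv (η c) 0 ≠ 0`. For `w = x n + R n u`, `|u| ≤ exp β`: `w = η c (v)`, `v = R n (u - ξ n) / A + O(|R n| ^ 2)`, `f w = f c + v ^ 2`. So with `R' n = R n ^ 2 / A ^ 2`: `(f (x n + R n u) - f c) / R' n → (u - ξ0) ^ 2` uniformly for `|u| ≤ exp β`, and the two inverse branches: for `y` in the disc `V = ball (ξ0 ^ 2) (|ξ0| ^ 2 / 2)` the two branches of `f⁻¹` over `f c + R' n y` near `x n` and near `2 c - x n` are `x n + R n u±`, `u± = ξ0 ± sqrt y + o(1)` (`sqrt y` near `- ξ0`: `u₊` near `0`; `u₋` near `2 ξ0`).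
(2) FRAMES AT TIME `k n + 1`: `(z n, k n + 1, f c, R' n, σ n)` (centre `f c`; `galois` allows any centre). `g n ζ = (G n ζ - z n) / σ n` is injective on `Qr α β (9 π)`, `g n 0 = 0`, `deriv = 1`: locally bounded, `g n → g` (`ulim`), `g` injective on `Qr α β (9 π)`.
(3) `β`-branch: on `V`: `y ↦ g n (log u₋(y))`: `u₋` is in the disc `ball (2 ξ0) (|ξ0| ..)`, `|u₋| ≥ |ξ0| > exp α`, `|u₋| < exp β`: holomorphic on all of `V` (a logarithm of `u₋`, imaginary part in `(-2 π, 2 π)`). `α`-branches: on discs `B1` of `V` minus the part where `|u₊| ≤ 2 exp α`: `y ↦ g n (log u₊(y))` for each local choice of the logarithm with imaginary part in `(-4 π, 4 π)`; `{u : 2 exp α < |u| < |ξ0| / 4}` is in the image of `V` under `u₊` (`|ξ0| ≥ 20 exp α`).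
(4) `galois` on a disc `B1`: `g (log u₊) = t g (log u₋) + c0` on `B1` in the limit, `t` real; the right side is holomorphic on `V`, so `A(u) := t g (log u₋(y)) + c0`, `y = (u - ξ0) ^ 2`, is holomorphic on `{|u| < |ξ0| / 4}` and `g (ζ) = A (exp ζ)` for `log (2 exp α) < Re ζ < log (|ξ0| / 4)`, `|Im ζ| < 4 π` (identity theorem on the rectangle, starting from one small disc). So `g (ζ + 2 π i) = g ζ`: contradiction with the injectivity of `g`.
-/

set_option autoImplicit false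

open Filter Topology Metric Set MeasureTheory

namespace Pool.Agent.H78.UX

open Pool.Agent.H56.UD

variable {f : ℂ → ℂ} {U P Cr E : Set ℂ} {δ b0 : ℝ} {η : ℂ → ℂ → ℂ} {ρ : ℝ} {X hh μ : ℂ → ℂ}

open Pool.Agent.H80.AJ (KK one_le_KK KK_pos distort distort_lip deriv_ne)

private theorem enc_seg {g : ℂ → ℂ} {S : Set ℂ} {r : ℝ} (hr : 0 < r) (hg : DifferentiableOn ℂ g S)
    (hi : InjOn g S) (N : ℕ) (p : ℕ → ℂ) (hp : ∀ j ≤ N, ball (p j) r ⊆ S)
    (hst : ∀ j < N, ‖p (j + 1) - p j‖ ≤ r / 2) :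
    ‖deriv g (p N)‖ ≤ KK ^ N * ‖deriv g (p 0)‖ ∧
      ‖g (p N) - g (p 0)‖ ≤ N * KK ^ N * r * ‖deriv g (p 0)‖ := by
  induction N with
  | zero =>
    refine ⟨by simp, by simp⟩
  | succ N ih =>
    obtain ⟨h1, h2⟩ := ih (fun j hj => hp j (by omega)) fun j hj => hst j (by omega)
    have hb := hp N (by omega)
    have hgb := hg.mono hb
    have hib := hi.mono hb
    have hw : p (N + 1) ∈ closedBall (p N) (r / 2) := by
      rw [mem_closedBall, dist_eq_norm]
      exact hst N (by omega)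
    have hc : p N ∈ closedBall (p N) (r / 2) := mem_closedBall_self (by linarith)
    have h3 := distort hr hgb hib hw hc
    have h4 := distort_lip hr hgb hib hw hc hc
    have hK := one_le_KK
    have hK0 := KK_pos
    have hKN : 0 < KK ^ N := pow_pos hK0 N
    have hD := norm_nonneg (deriv g (p 0))
    refine ⟨?_, ?_⟩
    · calc ‖deriv g (p (N + 1))‖ ≤ KK * ‖deriv g (p N)‖ := h3
        _ ≤ KK * (KK ^ N * ‖deriv g (p 0)‖) := mul_le_mul_of_nonneg_left h1 hK0.le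
        _ = KK ^ (N + 1) * ‖deriv g (p 0)‖ := by ring
    · have h5 : ‖g (p (N + 1)) - g (p N)‖ ≤ KK ^ (N + 1) * r * ‖deriv g (p 0)‖ := by
        calc ‖g (p (N + 1)) - g (p N)‖ ≤ KK * ‖deriv g (p N)‖ * ‖p (N + 1) - p N‖ := h4
          _ ≤ KK * (KK ^ N * ‖deriv g (p 0)‖) * r := by
              refine mul_le_mul (mul_le_mul_of_nonneg_left h1 hK0.le)
                ((hst N (by omega)).trans (by linarith)) (norm_nonneg _) (by positivity)
          _ = KK ^ (N + 1) * r * ‖deriv g (p 0)‖ := by ring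
      have h6 : N * KK ^ N * r * ‖deriv g (p 0)‖ ≤ N * KK ^ (N + 1) * r * ‖deriv g (p 0)‖ := by
        have h7 : KK ^ N ≤ KK ^ (N + 1) := pow_le_pow_right₀ hK (by omega)
        gcongr
      calc ‖g (p (N + 1)) - g (p 0)‖ = ‖(g (p (N + 1)) - g (p N)) + (g (p N) - g (p 0))‖ := by
            congr 1
            ring
        _ ≤ ‖g (p (N + 1)) - g (p N)‖ + ‖g (p N) - g (p 0)‖ := norm_add_le _ _
        _ ≤ KK ^ (N + 1) * r * ‖deriv g (p 0)‖ + N * KK ^ (N + 1) * r * ‖deriv g (p 0)‖ := by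
            linarith
        _ = ((N + 1 : ℕ) : ℝ) * KK ^ (N + 1) * r * ‖deriv g (p 0)‖ := by
            push_cast
            ring

private theorem qr_open (α β L : ℝ) : IsOpen (Qr α β L) := by
  have h1 : IsOpen {ζ : ℂ | α < ζ.re} := isOpen_lt continuous_const Complex.continuous_re
  have h2 : IsOpen {ζ : ℂ | ζ.re < β} := isOpen_lt Complex.continuous_re continuous_const
  have h3 : IsOpen {ζ : ℂ | |ζ.im| < L} := isOpen_lt Complex.continuous_im.abs continuous_const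
  exact h1.inter (h2.inter h3)

private theorem qr_convex (α β L : ℝ) : Convex ℝ (Qr α β L) := by
  intro u hu v hv a b ha hb hab
  obtain ⟨h1, h2, h3⟩ := hu
  obtain ⟨h4, h5, h6⟩ := hv
  have hre : (a • u + b • v).re = a * u.re + b * v.re := by simp
  have him : (a • u + b • v).im = a * u.im + b * v.im := by simp
  have hb' : b = 1 - a := by linarith
  refine ⟨?_, ?_, ?_⟩
  · rw [hre, hb']
    rcases eq_or_lt_of_le ha with h0 | h0
    · rw [← h0]
      linarith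
    · nlinarith [mul_nonneg hb (sub_pos.2 h4).le, mul_pos h0 (sub_pos.2 h1)]
  · rw [hre, hb']
    rcases eq_or_lt_of_le ha with h0 | h0
    · rw [← h0]
      linarith
    · nlinarith [mul_nonneg hb (sub_pos.2 h5).le, mul_pos h0 (sub_pos.2 h2)]
  · rw [him]
    rw [abs_lt] at h3 h6 ⊢
    rw [hb']
    rcases eq_or_lt_of_le ha with h0 | h0
    · rw [← h0]
      constructor <;> linarith [h6.1, h6.2]
    · constructor
      · nlinarith [mul_nonneg hb (sub_pos.2 h6.1).le, mul_pos h0 (sub_pos.2 h3.1)]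
      · nlinarith [mul_nonneg hb (sub_pos.2 h6.2).le, mul_pos h0 (sub_pos.2 h3.2)]

private theorem qr_ball {α β L τ : ℝ} {α' β' L' : ℝ} (h1 : α + τ ≤ α') (h2 : β' ≤ β - τ) (h3 : L' ≤ L - τ)
    {p : ℂ} (hp : p ∈ Qr α' β' L') : ball p τ ⊆ Qr α β L := by
  intro w hw
  rw [mem_ball, dist_eq_norm] at hw
  obtain ⟨a1, a2, a3⟩ := hp
  have b1 := (abs_le.1 ((Complex.abs_re_le_norm (w - p)).trans hw.le))
  have b2 := (abs_lt.1 (lt_of_le_of_lt (Complex.abs_re_le_norm (w - p)) hw))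
  have b3 := (abs_lt.1 (lt_of_le_of_lt (Complex.abs_im_le_norm (w - p)) hw))
  rw [Complex.sub_re] at b2
  rw [Complex.sub_im] at b3
  rw [abs_lt] at a3
  refine ⟨by linarith [b2.1], by linarith [b2.2], ?_⟩
  rw [abs_lt]
  exact ⟨by linarith [b3.1, a3.1], by linarith [b3.2, a3.2]⟩

private theorem enc_bd (α β : ℝ) (hα : α ≤ -5) (hβ : 1 ≤ β) : ∃ M : ℝ, 0 ≤ M ∧ ∀ G : ℂ → ℂ,
    DifferentiableOn ℂ G (Qr α β (9 * Real.pi)) → InjOn G (Qr α β (9 * Real.pi)) →
    ∀ ζ ∈ Qr (α + 1 / 2) (β - 1 / 4) (8 * Real.pi), ‖G ζ - G 0‖ ≤ M * ‖deriv G 0‖ := by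
  obtain ⟨N, hN⟩ := exists_nat_gt (8 * (|α| + |β| + 8 * Real.pi))
  have hpi := Real.pi_gt_three
  have hN0 : (0 : ℝ) < N := by
    have h1 := abs_nonneg α
    have h2 := abs_nonneg β
    linarith
  refine ⟨N * KK ^ N * (1 / 4), by have := KK_pos; positivity, ?_⟩
  intro G hd hi ζ hζ
  have h0 : (0 : ℂ) ∈ Qr (α + 1 / 2) (β - 1 / 4) (8 * Real.pi) := by
    refine ⟨?_, ?_, ?_⟩
    · rw [Complex.zero_re]
      linarith
    · rw [Complex.zero_re]
      linarith
    · rw [Complex.zero_im, abs_zero]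
      linarith
  have hζn : ‖ζ‖ ≤ |α| + |β| + 8 * Real.pi := by
    obtain ⟨a1, a2, a3⟩ := hζ
    have h1 : |ζ.re| ≤ |α| + |β| := by
      rw [abs_le]
      have b1 := neg_abs_le α
      have b2 := le_abs_self β
      have b3 := abs_nonneg α
      have b4 := abs_nonneg β
      constructor <;> linarith
    have h2 := Complex.norm_le_abs_re_add_abs_im ζ
    linarith
  have hp : ∀ j ≤ N, ball (((j : ℝ) / N) • ζ) (1 / 4) ⊆ Qr α β (9 * Real.pi) := by
    intro j hj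
    have hj' : ((j : ℝ) / N) ≤ 1 := by
      rw [div_le_one hN0]
      exact_mod_cast hj
    have hmem : ((j : ℝ) / N) • ζ ∈ Qr (α + 1 / 2) (β - 1 / 4) (8 * Real.pi) := by
      have h1 := qr_convex (α + 1 / 2) (β - 1 / 4) (8 * Real.pi) h0 hζ
        (show (0 : ℝ) ≤ 1 - (j : ℝ) / N by linarith) (show (0 : ℝ) ≤ (j : ℝ) / N by positivity) (by ring)
      rwa [smul_zero, zero_add] at h1
    exact qr_ball (by linarith) le_rfl (by linarith) hmem
  have hst : ∀ j < N, ‖(((j + 1 : ℕ) : ℝ) / N) • ζ - ((j : ℝ) / N) • ζ‖ ≤ 1 / 4 / 2 := by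
    intro j _
    rw [← sub_smul, norm_smul]
    have h1 : ((j + 1 : ℕ) : ℝ) / N - (j : ℝ) / N = 1 / N := by
      push_cast
      ring
    rw [h1, Real.norm_eq_abs, abs_of_pos (by positivity), div_mul_eq_mul_div, one_mul,
      div_le_iff₀ hN0]
    linarith
  have h1 := (enc_seg (by norm_num : (0 : ℝ) < 1 / 4) hd hi N (fun j => ((j : ℝ) / N) • ζ) hp hst).2
  have h2 : ((N : ℝ) / N) • ζ = ζ := by
    rw [div_self hN0.ne', one_smul]
  have h3 : (((0 : ℕ) : ℝ) / N) • ζ = 0 := by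
    rw [Nat.cast_zero, zero_div, zero_smul]
  simp only [h2, h3] at h1
  exact h1

private theorem enc_o {e : ℂ → ℂ} {c A : ℂ} (hd : HasDerivAt e A 0) (h0 : e 0 = c) {τ : ℝ} (hτ : 0 < τ) :
    ∃ d : ℝ, 0 < d ∧ ∀ v : ℂ, ‖v‖ < d → ‖e v - c - A * v‖ ≤ τ * ‖v‖ := by
  have h1 := hd.isLittleO.def hτ
  rw [Metric.eventually_nhds_iff] at h1
  obtain ⟨d, hd0, h2⟩ := h1
  refine ⟨d, hd0, fun v hv => ?_⟩
  have h3 := h2 (y := v) (by rwa [dist_zero_right])
  rw [h0, sub_zero, smul_eq_mul, mul_comm v A] at h3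
  exact h3

/-- the rescaled branches through the critical point -/
private noncomputable def Bn (z R x : ℕ → ℂ) (G : ℕ → ℂ → ℂ) (e : ℂ → ℂ) (A : ℂ) (s l : ℂ → ℂ) (n : ℕ)
    (y : ℂ) : ℂ :=
  (G n (l ((e (R n / A * s y) - x n) / R n)) - z n) / deriv (G n) 0

private theorem enc_br (h : SS f U P Cr δ η ρ) {𝒰 : Ultrafilter ℕ} {z : ℕ → ℂ} {k : ℕ → ℕ}
    {x R : ℕ → ℂ} {G : ℕ → ℂ → ℂ} {α β : ℝ}
    (hs : ∀ n, ST f U P P E δ (z n) (k n) (x n) (R n) α β (9 * Real.pi) (G n))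
    (hdn : ∀ n, deriv (G n) 0 ≠ 0) (hR : Tendsto R (𝒰 : Filter ℕ) (𝓝 0)) {c ξ0 A : ℂ} (hc : c ∈ Cr)
    (hA : HasDerivAt (η c) A 0) (hA0 : A ≠ 0)
    (hξ : Tendsto (fun n => (c - x n) / R n) (𝒰 : Filter ℕ) (𝓝 ξ0)) {S : Set ℂ}
    (hSQ : S ⊆ Qr α β (9 * Real.pi)) {g : ℂ → ℂ} {M : ℝ}
    (hM : ∀ n, ∀ ζ ∈ S, ‖(G n ζ - z n) / deriv (G n) 0‖ ≤ M)
    (hg : TendstoLocallyUniformlyOn (fun n ζ => (G n ζ - z n) / deriv (G n) 0) g (𝒰 : Filter ℕ) S)
    (hgd : DifferentiableOn ℂ g S) (hgi : InjOn g S) (hSo : IsOpen S) {y0 : ℂ} {r : ℝ} (hr : 0 < r)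
    {s l : ℂ → ℂ} (hsd : DifferentiableOn ℂ s (ball y0 r)) (hsq : ∀ y ∈ ball y0 r, s y ^ 2 = y) {B : ℝ}
    (hsB : ∀ y ∈ ball y0 r, ‖s y‖ ≤ B) {Ω : Set ℂ} (hΩ : IsOpen Ω) (hl : DifferentiableOn ℂ l Ω)
    (hle : ∀ w ∈ Ω, Complex.exp (l w) = w ∧ l w ∈ S) {κ : ℝ} (hκ : 0 < κ)
    (hκΩ : ∀ y ∈ ball y0 r, ball (ξ0 + s y) κ ⊆ Ω) :
    ∃ M' : ℝ, (∀ᶠ n in (𝒰 : Filter ℕ), Bq (Fn f z (fun n => k n + 1) (fun _ => f c)
        (fun n => (R n / A) ^ 2) (fun n => deriv (G n) 0) n)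
        (Dn f U P δ z (fun n => k n + 1) (fun n => deriv (G n) 0) n) y0 r M' (Bn z R x G (η c) A s l n)) ∧
      ∀ y ∈ ball y0 r, Tendsto (fun n => Bn z R x G (η c) A s l n y) (𝒰 : Filter ℕ)
        (𝓝 (g (l (ξ0 + s y)))) := by
  obtain ⟨ηd, ηi, η0, ηv⟩ := h.nf c hc
  have hAn : 0 < ‖A‖ := norm_pos_iff.2 hA0
  obtain ⟨B', hB'1, hB'⟩ : ∃ B' : ℝ, 1 ≤ B' ∧ ∀ y ∈ ball y0 r, ‖s y‖ ≤ B' :=
    ⟨max B 1, le_max_right _ _, fun y hy => (hsB y hy).trans (le_max_left _ _)⟩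
  have hB'0 : 0 < B' := by linarith
  have hRn : Tendsto (fun n => ‖R n‖) (𝒰 : Filter ℕ) (𝓝 0) := by
    have h1 := hR.norm
    rwa [norm_zero] at h1
  have hv : ∀ n, ∀ y ∈ ball y0 r, ‖R n / A * s y‖ ≤ ‖R n‖ * (B' / ‖A‖) := by
    intro n y hy
    rw [norm_mul, norm_div]
    calc ‖R n‖ / ‖A‖ * ‖s y‖ ≤ ‖R n‖ / ‖A‖ * B' :=
          mul_le_mul_of_nonneg_left (hB' y hy) (by positivity)
      _ = ‖R n‖ * (B' / ‖A‖) := by ring
  have hvs : ∀ d : ℝ, 0 < d → ∀ᶠ n in (𝒰 : Filter ℕ), ∀ y ∈ ball y0 r, ‖R n / A * s y‖ < d := by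
    intro d hd
    have h1 : ∀ᶠ n in (𝒰 : Filter ℕ), ‖R n‖ < d / (B' / ‖A‖) :=
      hRn.eventually (gt_mem_nhds (by positivity))
    filter_upwards [h1] with n hn y hy
    refine lt_of_le_of_lt (hv n y hy) ?_
    rwa [lt_div_iff₀ (by positivity)] at hn
  -- uniform convergence of the values
  have E1 : ∀ τ : ℝ, 0 < τ → ∀ᶠ n in (𝒰 : Filter ℕ), ∀ y ∈ ball y0 r,
      ‖(η c (R n / A * s y) - x n) / R n - (ξ0 + s y)‖ < τ := by
    intro τ hτ
    obtain ⟨d, hd0, hd⟩ := enc_o hA η0 (τ := τ * ‖A‖ / (2 * B')) (by positivity)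
    have h1 : ∀ᶠ n in (𝒰 : Filter ℕ), dist ((c - x n) / R n) ξ0 < τ / 2 :=
      (Metric.tendsto_nhds.1 hξ) _ (by linarith)
    filter_upwards [h1, hvs d hd0] with n hn1 hn2 y hy
    have hR0 := (hs n).R0
    have hRn0 : 0 < ‖R n‖ := norm_pos_iff.2 hR0
    have h2 := hd _ (hn2 y hy)
    have h3 : (η c (R n / A * s y) - x n) / R n - (ξ0 + s y) =
        ((c - x n) / R n - ξ0) + (η c (R n / A * s y) - c - A * (R n / A * s y)) / R n := by
      field_simp
      ring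
    have h4 : ‖(η c (R n / A * s y) - c - A * (R n / A * s y)) / R n‖ ≤ τ / 2 := by
      rw [norm_div, div_le_iff₀ hRn0]
      calc ‖η c (R n / A * s y) - c - A * (R n / A * s y)‖
          ≤ τ * ‖A‖ / (2 * B') * ‖R n / A * s y‖ := h2
        _ ≤ τ * ‖A‖ / (2 * B') * (‖R n‖ * (B' / ‖A‖)) :=
            mul_le_mul_of_nonneg_left (hv n y hy) (by positivity)
        _ = τ / 2 * ‖R n‖ := by
            field_simp
    rw [h3]
    rw [dist_eq_norm] at hn1
    have h5 := norm_add_le ((c - x n) / R n - ξ0)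
      ((η c (R n / A * s y) - c - A * (R n / A * s y)) / R n)
    linarith
  have hpt : ∀ y ∈ ball y0 r, Tendsto (fun n => Bn z R x G (η c) A s l n y) (𝒰 : Filter ℕ)
      (𝓝 (g (l (ξ0 + s y)))) := by
    intro y hy
    have hmem : ξ0 + s y ∈ Ω := hκΩ y hy (mem_ball_self hκ)
    have h1 : Tendsto (fun n => (η c (R n / A * s y) - x n) / R n) (𝒰 : Filter ℕ) (𝓝 (ξ0 + s y)) := by
      rw [Metric.tendsto_nhds]
      intro τ hτ
      filter_upwards [E1 τ hτ] with n hn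
      rw [dist_eq_norm]
      exact hn y hy
    have hlc : ContinuousAt l (ξ0 + s y) := (hl.differentiableAt (hΩ.mem_nhds hmem)).continuousAt
    have h2 : Tendsto (fun n => l ((η c (R n / A * s y) - x n) / R n)) (𝒰 : Filter ℕ)
        (𝓝 (l (ξ0 + s y))) := hlc.tendsto.comp h1
    have hmS : l (ξ0 + s y) ∈ S := (hle _ hmem).2
    have h3 : Tendsto (fun n => l ((η c (R n / A * s y) - x n) / R n)) (𝒰 : Filter ℕ)
        (𝓝[S] (l (ξ0 + s y))) := by
      rw [hSo.nhdsWithin_eq hmS]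
      exact h2
    exact hg.tendsto_comp (hgd.continuousOn _ hmS) hmS h3
  have E3 : ∀ᶠ n in (𝒰 : Filter ℕ), DifferentiableOn ℂ (Bn z R x G (η c) A s l n) (ball y0 r) ∧
      ∀ y ∈ ball y0 r, Bn z R x G (η c) A s l n y ∈
          Dn f U P δ z (fun n => k n + 1) (fun n => deriv (G n) 0) n ∧
        Fn f z (fun n => k n + 1) (fun _ => f c) (fun n => (R n / A) ^ 2) (fun n => deriv (G n) 0) n
          (Bn z R x G (η c) A s l n y) = y ∧ ‖Bn z R x G (η c) A s l n y‖ ≤ M := by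
    have hδ := h.hδ
    filter_upwards [E1 κ hκ, hvs (min ρ (min 1 δ)) (lt_min h.hρ (lt_min one_pos hδ))] with n hn1 hn2
    have hR0 := (hs n).R0
    have hvρ : ∀ y ∈ ball y0 r, R n / A * s y ∈ ball (0 : ℂ) ρ := by
      intro y hy
      rw [mem_ball_zero_iff]
      exact lt_of_lt_of_le (hn2 y hy) (min_le_left _ _)
    have hw : ∀ y ∈ ball y0 r, (η c (R n / A * s y) - x n) / R n ∈ Ω := by
      intro y hy
      apply hκΩ y hy
      rw [mem_ball, dist_eq_norm]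
      exact hn1 y hy
    refine ⟨?_, fun y hy => ?_⟩
    · have d1 : DifferentiableOn ℂ (fun y => R n / A * s y) (ball y0 r) := hsd.const_mul _
      have d2 : DifferentiableOn ℂ (fun y => η c (R n / A * s y)) (ball y0 r) := ηd.comp d1 hvρ
      have d3 : DifferentiableOn ℂ (fun y => (η c (R n / A * s y) - x n) / R n) (ball y0 r) :=
        (d2.sub_const _).div_const _
      have d4 : DifferentiableOn ℂ (fun y => l ((η c (R n / A * s y) - x n) / R n)) (ball y0 r) :=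
        hl.comp d3 hw
      have d5 : DifferentiableOn ℂ (fun y => G n (l ((η c (R n / A * s y) - x n) / R n))) (ball y0 r) :=
        (hs n).diff.comp d4 fun y hy => hSQ (hle _ (hw y hy)).2
      exact (d5.sub_const _).div_const _
    · obtain ⟨e1, e2⟩ := hle _ (hw y hy)
      obtain ⟨e3, e4⟩ := (hs n).val _ (hSQ e2)
      obtain ⟨e5, e6⟩ := ηv _ (hvρ y hy)
      have e7 : x n + R n * Complex.exp (l ((η c (R n / A * s y) - x n) / R n)) =
          η c (R n / A * s y) := by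
        rw [e1]
        field_simp
        ring
      have e8 : z n + deriv (G n) 0 * Bn z R x G (η c) A s l n y =
          G n (l ((η c (R n / A * s y) - x n) / R n)) := by
        unfold Bn
        rw [mul_div_cancel₀ _ (hdn n)]
        ring
      rw [e7] at e4
      refine ⟨?_, ?_, hM n _ e2⟩
      · change z n + deriv (G n) 0 * Bn z R x G (η c) A s l n y ∈ dm f U P δ (k n + 1)
        rw [e8]
        refine dm_add' e3.1 ?_
        rw [e4, dm_succ 0]
        refine ⟨e5, ?_⟩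
        rw [dm_zero, e6, Metric.mem_thickening_iff]
        refine ⟨f c, h.CP c hc, ?_⟩
        rw [dist_eq_norm, add_sub_cancel_left, norm_pow]
        have a1 := hn2 y hy
        have a2 : ‖R n / A * s y‖ < 1 :=
          lt_of_lt_of_le a1 ((min_le_right _ _).trans (min_le_left _ _))
        have a3 : ‖R n / A * s y‖ < δ :=
          lt_of_lt_of_le a1 ((min_le_right _ _).trans (min_le_right _ _))
        have a4 := norm_nonneg (R n / A * s y)
        nlinarith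
      · change (f^[k n + 1] (z n + deriv (G n) 0 * Bn z R x G (η c) A s l n y) - f c) / (R n / A) ^ 2 = y
        rw [e8, Function.iterate_succ_apply', e4, e6, add_sub_cancel_left, mul_pow, hsq y hy]
        have a1 : (R n / A) ^ 2 ≠ 0 := pow_ne_zero 2 (div_ne_zero hR0 hA0)
        exact mul_div_cancel_left₀ y a1
  -- the derivative
  obtain ⟨b, hbd, -, hbl⟩ := ulim 𝒰 isOpen_ball (E3.mono fun n hn => ⟨hn.1, fun y hy => (hn.2 y hy).2.2⟩)
  have hbv : ∀ y ∈ ball y0 r, b y = g (l (ξ0 + s y)) := fun y hy =>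
    tendsto_nhds_unique (hbl.tendsto_at hy) (hpt y hy)
  have hbi : InjOn b (ball y0 r) := by
    intro y hy y' hy' he
    rw [hbv y hy, hbv y' hy'] at he
    have m1 := hle _ (hκΩ y hy (mem_ball_self hκ))
    have m2 := hle _ (hκΩ y' hy' (mem_ball_self hκ))
    have h1 := hgi m1.2 m2.2 he
    have h2 : ξ0 + s y = ξ0 + s y' := by
      rw [← m1.1, ← m2.1, h1]
    rw [← hsq y hy, ← hsq y' hy', add_left_cancel h2]
  have hb0 : 0 < ‖deriv b y0‖ := deriv_ne hr hbd hbi (mem_closedBall_self (by linarith))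
  have hdl := (ulim_deriv 𝒰 isOpen_ball (E3.mono fun n hn => hn.1) hbl).tendsto_at (mem_ball_self hr)
  have hdl' : ∀ᶠ n in (𝒰 : Filter ℕ), ‖deriv b y0‖ / 2 < ‖deriv (Bn z R x G (η c) A s l n) y0‖ :=
    hdl.norm.eventually (lt_mem_nhds (by linarith))
  refine ⟨max M (2 / ‖deriv b y0‖), ?_, hpt⟩
  filter_upwards [E3, hdl'] with n hn1 hn2
  refine ⟨hn1.1, fun y hy => ⟨(hn1.2 y hy).1, (hn1.2 y hy).2.1,
    ((hn1.2 y hy).2.2).trans (le_max_left _ _)⟩, ?_⟩
  calc (1 : ℝ) = 2 / ‖deriv b y0‖ * (‖deriv b y0‖ / 2) := by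
        field_simp
    _ ≤ max M (2 / ‖deriv b y0‖) * ‖deriv (Bn z R x G (η c) A s l n) y0‖ := by
        refine mul_le_mul (le_max_right _ _) hn2.le (by positivity) ?_
        exact le_trans (by positivity) (le_max_right M (2 / ‖deriv b y0‖))

private theorem bq_mono {F : ℂ → ℂ} {D : Set ℂ} {w : ℂ} {r M M' : ℝ} {G : ℂ → ℂ} (hM : M ≤ M')
    (hb : Bq F D w r M G) : Bq F D w r M' G :=
  ⟨hb.diff, fun u hu => ⟨(hb.val u hu).1, (hb.val u hu).2.1, ((hb.val u hu).2.2).trans hM⟩,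
    hb.lb.trans (mul_le_mul_of_nonneg_right hM (norm_nonneg _))⟩

/-- a branch of the logarithm near `w0` -/
private theorem log_br {w0 q : ℂ} (h0 : w0 ≠ 0) (hq : Complex.exp q = w0) {α β L : ℝ}
    (hL : |q.im| + Real.pi < L) {m : ℝ} (hm : m ≤ ‖w0‖ / 2)
    (h1 : ∀ w ∈ ball w0 m, Real.exp α < ‖w‖ ∧ ‖w‖ < Real.exp β) :
    DifferentiableOn ℂ (fun w => Complex.log (w / w0) + q) (ball w0 m) ∧
    ∀ w ∈ ball w0 m, Complex.exp (Complex.log (w / w0) + q) = w ∧
      Complex.log (w / w0) + q ∈ Qr α β L := by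
  have hslit : ∀ w ∈ ball w0 m, w / w0 ∈ Complex.slitPlane := by
    intro w hw
    rw [mem_ball, dist_eq_norm] at hw
    have hn : 0 < ‖w0‖ := norm_pos_iff.2 h0
    have h2 : ‖w / w0 - 1‖ < 1 := by
      have h3 : w / w0 - 1 = (w - w0) / w0 := by
        field_simp
      rw [h3, norm_div, div_lt_one hn]
      linarith
    refine Or.inl ?_
    have h4 := abs_lt.1 (lt_of_le_of_lt (Complex.abs_re_le_norm (w / w0 - 1)) h2)
    rw [Complex.sub_re, Complex.one_re] at h4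
    linarith [h4.1]
  refine ⟨fun w hw => ?_, fun w hw => ?_⟩
  · exact (((differentiableAt_id.div_const w0).clog (hslit w hw)).add_const q).differentiableWithinAt
  · have hw0 : w / w0 ≠ 0 := Complex.slitPlane_ne_zero (hslit w hw)
    have hex : Complex.exp (Complex.log (w / w0) + q) = w := by
      rw [Complex.exp_add, Complex.exp_log hw0, hq, div_mul_cancel₀ _ h0]
    refine ⟨hex, ?_⟩
    have hn : Real.exp (Complex.log (w / w0) + q).re = ‖w‖ := by
      rw [← Complex.norm_exp, hex]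
    obtain ⟨a1, a2⟩ := h1 w hw
    refine ⟨?_, ?_, ?_⟩
    · rw [← hn] at a1
      exact Real.exp_lt_exp.1 a1
    · rw [← hn] at a2
      exact Real.exp_lt_exp.1 a2
    · rw [Complex.add_im, Complex.log_im]
      have h3 := abs_add_le (Complex.arg (w / w0)) q.im
      have h4 := Complex.abs_arg_le_pi (w / w0)
      linarith

/-- a critical point can meet a state only in its centre -/
theorem enc (h : SS f U P Cr δ η ρ) (hX : SX f U P E X hh μ b0) {α β : ℝ} (hα : α ≤ -5) (hβ : 1 ≤ β) :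
    ∃ ε : ℝ, 0 < ε ∧ ∀ {z : ℂ} {k : ℕ} {x R : ℂ} {G : ℂ → ℂ},
      ST f U P P E δ z k x R α β (9 * Real.pi) G → ‖deriv G 0‖ < ε → ∀ c ∈ Cr, ‖c - x‖ < ‖R‖ * Real.exp β / 3 →
      ‖c - x‖ ≤ 20 * Real.exp α * ‖R‖ := by
  by_contra hcon
  have hex : ∀ n : ℕ, ∃ (z : ℂ) (k : ℕ) (x R : ℂ) (G : ℂ → ℂ) (c : ℂ),
      ST f U P P E δ z k x R α β (9 * Real.pi) G ∧ ‖deriv G 0‖ < 1 / ((n : ℝ) + 1) ∧ c ∈ Cr ∧
      ‖c - x‖ < ‖R‖ * Real.exp β / 3 ∧ 20 * Real.exp α * ‖R‖ < ‖c - x‖ := by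
    intro n
    by_contra hn
    apply hcon
    refine ⟨1 / ((n : ℝ) + 1), by positivity, ?_⟩
    intro z k x R G hs hd c hc h1
    by_contra h2
    exact hn ⟨z, k, x, R, G, c, hs, hd, hc, h1, not_le.1 h2⟩
  choose z k x R G cc hs hd hcc h1 h2 using hex
  obtain ⟨𝒰, h𝒰⟩ : ∃ 𝒰 : Ultrafilter ℕ, (𝒰 : Filter ℕ) ≤ atTop := ⟨Ultrafilter.of atTop, Ultrafilter.of_le _⟩
  have hpi := Real.pi_gt_three
  have hdn : ∀ n, deriv (G n) 0 ≠ 0 := fun n =>
    (st_der h (hs n) (by linarith) (by linarith) (by positivity)).2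
  have ht : Tendsto (fun n => deriv (G n) 0) (𝒰 : Filter ℕ) (𝓝 0) := by
    refine Tendsto.mono_left ?_ h𝒰
    refine squeeze_zero_norm (fun n => (hd n).le) ?_
    exact tendsto_one_div_add_atTop_nhds_zero_nat
  have hRt : Tendsto R (𝒰 : Filter ℕ) (𝓝 0) := by
    rw [Metric.tendsto_nhds]
    intro δ' hδ'
    obtain ⟨ε, hε, hsm⟩ := st_small h hX hδ'
    have h3 : ∀ᶠ n in (𝒰 : Filter ℕ), dist (deriv (G n) 0) 0 < ε := (Metric.tendsto_nhds.1 ht) ε hε
    filter_upwards [h3] with n hn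
    rw [dist_zero_right] at hn ⊢
    exact hsm (hs n) (by linarith) hβ (by nlinarith) hn
  -- the critical point is constant
  obtain ⟨c, hc, hcU⟩ : ∃ c ∈ Cr, ∀ᶠ n in (𝒰 : Filter ℕ), cc n = c := by
    have h3 : (⋃ c ∈ Cr, {n | cc n = c}) ∈ 𝒰 := by
      have h4 : (⋃ c ∈ Cr, {n | cc n = c}) = univ := by
        refine eq_univ_of_forall fun n => ?_
        rw [mem_iUnion₂]
        exact ⟨cc n, hcc n, rfl⟩
      rw [h4]
      exact Filter.univ_mem
    rw [Ultrafilter.finite_biUnion_mem_iff h.Cf] at h3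
    exact h3
  have hlo : ∀ᶠ n in (𝒰 : Filter ℕ), 20 * Real.exp α ≤ ‖(c - x n) / R n‖ ∧
      ‖(c - x n) / R n‖ ≤ Real.exp β / 3 := by
    filter_upwards [hcU] with n hn
    have hR0 : 0 < ‖R n‖ := norm_pos_iff.2 (hs n).R0
    have a1 := h1 n
    have a2 := h2 n
    rw [hn] at a1 a2
    rw [norm_div, le_div_iff₀ hR0, div_le_iff₀ hR0]
    constructor <;> linarith
  obtain ⟨ξ0, -, hξ'⟩ : ∃ ξ0 ∈ closedBall (0 : ℂ) (Real.exp β / 3),
      ((𝒰.map fun n => (c - x n) / R n : Ultrafilter ℂ) : Filter ℂ) ≤ 𝓝 ξ0 := by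
    refine (isCompact_closedBall (0 : ℂ) (Real.exp β / 3)).ultrafilter_le_nhds _ ?_
    rw [le_principal_iff, Ultrafilter.coe_map, Filter.mem_map]
    filter_upwards [hlo] with n hn
    rw [mem_preimage, mem_closedBall_zero_iff]
    exact hn.2
  have hξ : Tendsto (fun n => (c - x n) / R n) (𝒰 : Filter ℕ) (𝓝 ξ0) := hξ'
  obtain ⟨a, ha⟩ : ∃ a : ℝ, a = ‖ξ0‖ := ⟨_, rfl⟩
  have ha1 : 20 * Real.exp α ≤ a := by
    rw [ha]
    exact ge_of_tendsto hξ.norm (hlo.mono fun n hn => hn.1)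
  have ha2 : a ≤ Real.exp β / 3 := by
    rw [ha]
    exact le_of_tendsto hξ.norm (hlo.mono fun n hn => hn.2)
  have hea := Real.exp_pos α
  have heb := Real.exp_pos β
  have ha0 : 0 < a := by linarith
  have hξ0 : ξ0 ≠ 0 := by
    intro h0
    rw [h0, norm_zero] at ha
    linarith
  -- numerical facts
  have hn1 : Real.exp (α + 1 / 2) < a / 8 * (3 / 4) := by
    have h3 : Real.exp (1 / 2) < 15 / 8 := by
      have h4 : Real.exp (1 / 2) * Real.exp (1 / 2) = Real.exp 1 := by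
        rw [← Real.exp_add]
        norm_num
      have h5 := Real.exp_one_lt_d9
      by_contra h6
      rw [not_lt] at h6
      nlinarith
    rw [Real.exp_add]
    nlinarith
  have hn2 : 9 / 4 * a < Real.exp (β - 1 / 4) := by
    have h3 : (3 : ℝ) / 4 < Real.exp (-(1 / 4)) := by
      have h4 := Real.add_one_lt_exp (x := -(1 / 4)) (by norm_num)
      linarith
    rw [sub_eq_add_neg, Real.exp_add]
    nlinarith
  -- the limit
  obtain ⟨M, hM0, hMb⟩ := enc_bd α β hα hβ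
  have hSQ : Qr (α + 1 / 2) (β - 1 / 4) (8 * Real.pi) ⊆ Qr α β (9 * Real.pi) := by
    intro ζ hζ
    exact ⟨by linarith [hζ.1], by linarith [hζ.2.1], by linarith [hζ.2.2]⟩
  have hSo := qr_open (α + 1 / 2) (β - 1 / 4) (8 * Real.pi)
  have hSc := (qr_convex (α + 1 / 2) (β - 1 / 4) (8 * Real.pi)).isPreconnected
  obtain ⟨S, hS⟩ : ∃ S, S = Qr (α + 1 / 2) (β - 1 / 4) (8 * Real.pi) := ⟨_, rfl⟩
  rw [← hS] at hSQ hSo hSc hMb
  have h0S : (0 : ℂ) ∈ S := by
    rw [hS]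
    refine ⟨?_, ?_, ?_⟩
    · rw [Complex.zero_re]
      linarith
    · rw [Complex.zero_re]
      linarith
    · rw [Complex.zero_im, abs_zero]
      linarith
  have hM : ∀ n, ∀ ζ ∈ S, ‖(G n ζ - z n) / deriv (G n) 0‖ ≤ M := by
    intro n ζ hζ
    have h3 := hMb (G n) (hs n).diff (hs n).inj ζ hζ
    rw [(hs n).base] at h3
    rw [norm_div, div_le_iff₀ (norm_pos_iff.2 (hdn n))]
    exact h3
  have hgdn : ∀ n, DifferentiableOn ℂ (fun ζ => (G n ζ - z n) / deriv (G n) 0) S := fun n =>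
    (((hs n).diff.mono hSQ).sub_const _).div_const _
  obtain ⟨g, hgd, -, hgl⟩ := ulim 𝒰 (G := fun n ζ => (G n ζ - z n) / deriv (G n) 0) hSo
    (Eventually.of_forall fun n => ⟨hgdn n, hM n⟩)
  have hdg : deriv g 0 = 1 := by
    have h3 := (ulim_deriv 𝒰 hSo (Eventually.of_forall hgdn) hgl).tendsto_at h0S
    have h4 : ∀ n, deriv (fun ζ => (G n ζ - z n) / deriv (G n) 0) 0 = 1 := by
      intro n
      rw [deriv_div_const, deriv_sub_const, div_self (hdn n)]
    have h5 : Tendsto (fun n => deriv (fun ζ => (G n ζ - z n) / deriv (G n) 0) 0) (𝒰 : Filter ℕ) (𝓝 1) := by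
      simp only [h4]
      exact tendsto_const_nhds
    exact tendsto_nhds_unique h3 h5
  have hgi : InjOn g S := by
    refine ulim_inj 𝒰 hSo hSc (Eventually.of_forall fun n => ⟨hgdn n, ?_⟩) hgl ?_
    · intro u hu v hv he
      have h3 : (G n u - z n) / deriv (G n) 0 = (G n v - z n) / deriv (G n) 0 := he
      rw [div_left_inj' (hdn n), sub_left_inj] at h3
      exact (hs n).inj (hSQ hu) (hSQ hv) h3
    · by_contra hne
      have h3 : ∀ u ∈ S, g u = g 0 := by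
        intro u hu
        by_contra h4
        exact hne ⟨u, hu, 0, h0S, h4⟩
      have h5 : g =ᶠ[𝓝 0] fun _ => g 0 := by
        filter_upwards [hSo.mem_nhds h0S] with u hu
        exact h3 u hu
      have h6 := h5.deriv_eq
      rw [hdg, deriv_const] at h6
      exact one_ne_zero h6
  -- the coordinates at the critical point
  obtain ⟨ηd, ηi, η0, ηv⟩ := h.nf c hc
  have hA : HasDerivAt (η c) (deriv (η c) 0) 0 :=
    (ηd.differentiableAt (isOpen_ball.mem_nhds (mem_ball_self h.hρ))).hasDerivAt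
  have hA0 : deriv (η c) 0 ≠ 0 :=
    norm_pos_iff.1 (deriv_ne h.hρ ηd ηi (mem_closedBall_self (by have := h.hρ; linarith)))
  obtain ⟨us, hus⟩ : ∃ us : ℂ, us = ((a / 8 : ℝ) : ℂ) := ⟨_, rfl⟩
  have husn : ‖us‖ = a / 8 := by
    rw [hus, Complex.norm_real, Real.norm_eq_abs, abs_of_pos (by positivity)]
  have hus0 : us ≠ 0 := by
    rw [← norm_pos_iff, husn]
    positivity
  obtain ⟨qs, hqs⟩ : ∃ qs : ℂ, qs = ((Real.log (a / 8) : ℝ) : ℂ) := ⟨_, rfl⟩
  have hqe : Complex.exp qs = us := by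
    rw [hqs, hus, ← Complex.ofReal_exp, Real.exp_log (by positivity)]
  have hqim : qs.im = 0 := by rw [hqs, Complex.ofReal_im]
  have hd1 : 7 / 8 * a ≤ ‖us - ξ0‖ := by
    have h3 := norm_sub_norm_le ξ0 us
    rw [norm_sub_rev, husn, ← ha] at h3
    linarith
  have hd2 : ‖us - ξ0‖ ≤ 9 / 8 * a := by
    have h3 := norm_sub_le us ξ0
    rw [husn, ← ha] at h3
    linarith
  have hne : us - ξ0 ≠ 0 := by
    rw [← norm_pos_iff]
    linarith
  obtain ⟨y0, hy0⟩ : ∃ y0 : ℂ, y0 = (us - ξ0) ^ 2 := ⟨_, rfl⟩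
  have hy00 : y0 ≠ 0 := by
    rw [hy0]
    exact pow_ne_zero 2 hne
  obtain ⟨s, hsd⟩ : ∃ s : ℂ → ℂ, s = fun y => (us - ξ0) * Complex.exp (Complex.log (y / y0) / 2) :=
    ⟨_, rfl⟩
  have hslit : ∀ y ∈ ball y0 (‖y0‖ / 2), y / y0 ∈ Complex.slitPlane := by
    intro y hy
    rw [mem_ball, dist_eq_norm] at hy
    have hn : 0 < ‖y0‖ := norm_pos_iff.2 hy00
    have h3 : ‖y / y0 - 1‖ < 1 := by
      have h4 : y / y0 - 1 = (y - y0) / y0 := by
        field_simp
      rw [h4, norm_div, div_lt_one hn]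
      linarith
    refine Or.inl ?_
    have h4 := abs_lt.1 (lt_of_le_of_lt (Complex.abs_re_le_norm (y / y0 - 1)) h3)
    rw [Complex.sub_re, Complex.one_re] at h4
    linarith [h4.1]
  have hsdiff : DifferentiableOn ℂ s (ball y0 (‖y0‖ / 2)) := by
    intro y hy
    rw [hsd]
    refine DifferentiableAt.differentiableWithinAt ?_
    exact (((differentiableAt_id.div_const y0).clog (hslit y hy)).div_const 2).cexp.const_mul _
  have hssq : ∀ y ∈ ball y0 (‖y0‖ / 2), s y ^ 2 = y := by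
    intro y hy
    have h3 : y / y0 ≠ 0 := Complex.slitPlane_ne_zero (hslit y hy)
    rw [hsd]
    change ((us - ξ0) * Complex.exp (Complex.log (y / y0) / 2)) ^ 2 = y
    rw [mul_pow, ← Complex.exp_nat_mul]
    have h4 : ((2 : ℕ) : ℂ) * (Complex.log (y / y0) / 2) = Complex.log (y / y0) := by
      push_cast
      ring
    rw [h4, Complex.exp_log h3, ← hy0, mul_div_cancel₀ _ hy00]
  have hs0 : s y0 = us - ξ0 := by
    rw [hsd]
    change (us - ξ0) * Complex.exp (Complex.log (y0 / y0) / 2) = us - ξ0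
    rw [div_self hy00, Complex.log_one, zero_div, Complex.exp_zero, mul_one]
  have hy0n : 0 < ‖y0‖ := norm_pos_iff.2 hy00
  obtain ⟨r, hr0, hr1, hr2⟩ : ∃ r : ℝ, 0 < r ∧ r ≤ ‖y0‖ / 2 ∧ ∀ y ∈ ball y0 r,
      ‖s y - (us - ξ0)‖ < a / 64 := by
    have hcont : ContinuousAt s y0 :=
      (hsdiff.differentiableAt (isOpen_ball.mem_nhds (mem_ball_self (by positivity)))).continuousAt
    obtain ⟨r, hr, h3⟩ := Metric.continuousAt_iff.1 hcont (a / 64) (by positivity)
    refine ⟨min r (‖y0‖ / 2), lt_min hr (by positivity), min_le_right _ _, fun y hy => ?_⟩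
    have h4 := h3 (x := y) (lt_of_lt_of_le (mem_ball.1 hy) (min_le_left _ _))
    rw [dist_eq_norm, hs0] at h4
    exact h4
  have hsub : ball y0 r ⊆ ball y0 (‖y0‖ / 2) := ball_subset_ball hr1
  -- the two logarithms
  obtain ⟨hl1, hl1v⟩ := log_br (α := α + 1 / 2) (β := β - 1 / 4) (L := 8 * Real.pi) hus0 hqe
    (by rw [hqim, abs_zero]; linarith) (m := a / 32) (by rw [husn]; linarith) (by
      intro w hw
      rw [mem_ball, dist_eq_norm] at hw
      have h3 := norm_sub_norm_le us w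
      have h4 := norm_sub_norm_le w us
      rw [norm_sub_rev] at h3
      rw [husn] at h3 h4
      constructor <;> linarith)
  have h2ξ : (2 : ℂ) * ξ0 ≠ 0 := mul_ne_zero two_ne_zero hξ0
  have h2ξn : ‖(2 : ℂ) * ξ0‖ = 2 * a := by
    rw [norm_mul, ← ha, Complex.norm_ofNat]
  obtain ⟨hl2, hl2v⟩ := log_br (α := α + 1 / 2) (β := β - 1 / 4) (L := 8 * Real.pi) h2ξ
    (Complex.exp_log h2ξ) (by
      rw [Complex.log_im]
      have := Complex.abs_arg_le_pi (2 * ξ0)
      linarith) (m := a / 4) (by rw [h2ξn]; linarith) (by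
      intro w hw
      rw [mem_ball, dist_eq_norm] at hw
      have h3 := norm_sub_norm_le (2 * ξ0) w
      have h4 := norm_sub_norm_le w (2 * ξ0)
      rw [norm_sub_rev] at h3
      rw [h2ξn] at h3 h4
      constructor <;> linarith)
  rw [← hS] at hl1v hl2v
  have hκ1 : ∀ y ∈ ball y0 r, ball (ξ0 + s y) (a / 64) ⊆ ball us (a / 32) := by
    intro y hy w hw
    rw [mem_ball, dist_eq_norm] at hw ⊢
    have h3 := hr2 y hy
    have h4 : w - us = (w - (ξ0 + s y)) + (s y - (us - ξ0)) := by ring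
    rw [h4]
    have h5 := norm_add_le (w - (ξ0 + s y)) (s y - (us - ξ0))
    linarith
  have hκ2 : ∀ y ∈ ball y0 r, ball (ξ0 + -s y) (a / 64) ⊆ ball (2 * ξ0) (a / 4) := by
    intro y hy w hw
    rw [mem_ball, dist_eq_norm] at hw ⊢
    have h3 := hr2 y hy
    have h4 : w - 2 * ξ0 = (w - (ξ0 + -s y)) - (s y - (us - ξ0)) - us := by ring
    rw [h4]
    have h5 := norm_sub_le (w - (ξ0 + -s y) - (s y - (us - ξ0))) us
    have h6 := norm_sub_le (w - (ξ0 + -s y)) (s y - (us - ξ0))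
    rw [husn] at h5
    linarith
  have hsB : ∀ y ∈ ball y0 r, ‖s y‖ ≤ 2 * a := by
    intro y hy
    have h3 := hr2 y hy
    have h4 : s y = (s y - (us - ξ0)) + (us - ξ0) := by ring
    rw [h4]
    have h5 := norm_add_le (s y - (us - ξ0)) (us - ξ0)
    linarith
  obtain ⟨M1, hb1, hp1⟩ := enc_br h hs hdn hRt hc hA hA0 hξ hSQ hM hgl hgd hgi hSo hr0
    (hsdiff.mono hsub) (fun y hy => hssq y (hsub hy)) hsB isOpen_ball hl1 hl1v
    (show 0 < a / 64 by positivity) hκ1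
  obtain ⟨M2, hb2, hp2⟩ := enc_br h hs hdn hRt hc hA hA0 hξ hSQ hM hgl hgd hgi hSo hr0
    (s := fun y => -s y) (hsdiff.mono hsub).neg
    (fun y hy => by rw [neg_sq]; exact hssq y (hsub hy)) (fun y hy => by rw [norm_neg]; exact hsB y hy)
    isOpen_ball hl2 hl2v (show 0 < a / 64 by positivity) hκ2
  obtain ⟨t, c1, -, hgal⟩ := galois h hX (𝒰 := 𝒰) (z := z) (k := fun n => k n + 1) (x := fun _ => f c)
    (R := fun n => (R n / deriv (η c) 0) ^ 2) (σ := fun n => deriv (G n) 0) (fun n => (hs n).zE)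
    (fun n => pow_ne_zero 2 (div_ne_zero (hs n).R0 hA0)) hdn ht hr0
    (hb2.mono fun n hn => bq_mono (le_max_right M1 M2) hn)
    (hb1.mono fun n hn => bq_mono (le_max_left M1 M2) hn)
  have hrel : ∀ y ∈ ball y0 r, g (Complex.log ((ξ0 + s y) / us) + qs) =
      t * g (Complex.log ((ξ0 + -s y) / (2 * ξ0)) + Complex.log (2 * ξ0)) + c1 := by
    intro y hy
    have h3 := hgal y hy
    have h4 := (hp1 y hy).sub (((hp2 y hy).const_mul (t : ℂ)).add_const c1)
    exact sub_eq_zero.1 (tendsto_nhds_unique h4 h3)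
  -- the identity near `qs`
  have hev : ∀ᶠ ζ in 𝓝 qs, g ζ =
      t * g (Complex.log ((2 * ξ0 - Complex.exp ζ) / (2 * ξ0)) + Complex.log (2 * ξ0)) + c1 := by
    have e1 : ∀ᶠ ζ in 𝓝 qs, (Complex.exp ζ - ξ0) ^ 2 ∈ ball y0 r := by
      have h3 : ContinuousAt (fun ζ : ℂ => (Complex.exp ζ - ξ0) ^ 2) qs := by fun_prop
      refine h3.eventually_mem (isOpen_ball.mem_nhds ?_)
      change (Complex.exp qs - ξ0) ^ 2 ∈ ball y0 r
      rw [hqe, ← hy0]
      exact mem_ball_self hr0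
    have e2 : ∀ᶠ ζ in 𝓝 qs, Complex.exp ζ ∈ ball us (a / 64) := by
      have h3 : ContinuousAt (fun ζ : ℂ => Complex.exp ζ) qs := by fun_prop
      refine h3.eventually_mem (isOpen_ball.mem_nhds ?_)
      change Complex.exp qs ∈ ball us (a / 64)
      rw [hqe]
      exact mem_ball_self (by positivity)
    have e3 : ∀ᶠ ζ in 𝓝 qs, ζ ∈ ball qs 1 := isOpen_ball.mem_nhds (mem_ball_self one_pos)
    filter_upwards [e1, e2, e3] with ζ k1 k2 k3
    have h3 := hrel _ k1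
    have h4 : s ((Complex.exp ζ - ξ0) ^ 2) = Complex.exp ζ - ξ0 := by
      have h5 := hssq _ (hsub k1)
      rcases sq_eq_sq_iff_eq_or_eq_neg.1 h5 with h6 | h6
      · exact h6
      · exfalso
        have h7 := hr2 _ k1
        rw [h6] at h7
        rw [mem_ball, dist_eq_norm] at k2
        have h8 : (2 : ℂ) * (us - ξ0) = -((-(Complex.exp ζ - ξ0) - (us - ξ0))) - (Complex.exp ζ - us) := by
          ring
        have h9 := norm_sub_le (-((-(Complex.exp ζ - ξ0) - (us - ξ0)))) (Complex.exp ζ - us)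
        rw [← h8, norm_neg, norm_mul, Complex.norm_ofNat] at h9
        linarith
    rw [h4] at h3
    have h5 : ξ0 + (Complex.exp ζ - ξ0) = Complex.exp ζ := by ring
    have h6 : ξ0 + -(Complex.exp ζ - ξ0) = 2 * ξ0 - Complex.exp ζ := by ring
    rw [h5, h6] at h3
    have h7 : Complex.log (Complex.exp ζ / us) + qs = ζ := by
      rw [← hqe, ← Complex.exp_sub]
      rw [mem_ball, dist_eq_norm] at k3
      have h8 := abs_lt.1 (lt_of_le_of_lt (Complex.abs_im_le_norm (ζ - qs)) k3)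
      rw [Complex.log_exp (by linarith [h8.1]) (by linarith [h8.2])]
      ring
    rw [h7] at h3
    exact h3
  -- the identity theorem
  obtain ⟨Q, hQ⟩ : ∃ Q, Q = Qr (α + 1 / 2) (Real.log (a / 4)) (8 * Real.pi) := ⟨_, rfl⟩
  have hQo : IsOpen Q := by
    rw [hQ]
    exact qr_open _ _ _
  have hQc : IsPreconnected Q := by
    rw [hQ]
    exact (qr_convex _ _ _).isPreconnected
  have hQS : Q ⊆ S := by
    rw [hQ, hS]
    intro ζ hζ
    refine ⟨hζ.1, hζ.2.1.trans ?_, hζ.2.2⟩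
    rw [Real.log_lt_iff_lt_exp (by positivity)]
    linarith
  have hqQ : ∀ j : ℝ, |j| < 8 * Real.pi → qs + j * Complex.I ∈ Q := by
    intro j hj
    rw [hQ]
    have hre : (qs + j * Complex.I).re = Real.log (a / 8) := by
      rw [hqs]
      simp
    have him : (qs + j * Complex.I).im = j := by
      rw [hqs]
      simp
    refine ⟨?_, ?_, ?_⟩
    · rw [hre, Real.lt_log_iff_exp_lt (by positivity)]
      linarith
    · rw [hre]
      exact Real.log_lt_log (by positivity) (by linarith)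
    · rwa [him]
  have hexQ : ∀ ζ ∈ Q, 2 * ξ0 - Complex.exp ζ ∈ ball (2 * ξ0) (a / 4) := by
    intro ζ hζ
    rw [hQ] at hζ
    rw [mem_ball, dist_eq_norm, sub_sub_cancel_left, norm_neg, Complex.norm_exp]
    have h3 := hζ.2.1
    rwa [Real.lt_log_iff_exp_lt (by positivity)] at h3
  have hf2 : DifferentiableOn ℂ (fun ζ => t * g (Complex.log ((2 * ξ0 - Complex.exp ζ) / (2 * ξ0)) +
      Complex.log (2 * ξ0)) + c1) Q := by
    have d1 : DifferentiableOn ℂ (fun ζ : ℂ => 2 * ξ0 - Complex.exp ζ) Q := by fun_prop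
    have d2 : DifferentiableOn ℂ (fun ζ => Complex.log ((2 * ξ0 - Complex.exp ζ) / (2 * ξ0)) +
        Complex.log (2 * ξ0)) Q := hl2.comp d1 hexQ
    have d3 : DifferentiableOn ℂ (fun ζ => g (Complex.log ((2 * ξ0 - Complex.exp ζ) / (2 * ξ0)) +
        Complex.log (2 * ξ0))) Q := hgd.comp d2 fun ζ hζ => (hl2v _ (hexQ ζ hζ)).2
    exact (d3.const_mul _).add_const _
  have hq0 : qs ∈ Q := by
    have h3 := hqQ 0 (by rw [abs_zero]; positivity)
    rwa [Complex.ofReal_zero, zero_mul, add_zero] at h3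
  have hident := ((hgd.mono hQS).analyticOnNhd hQo).eqOn_of_preconnected_of_eventuallyEq
    (hf2.analyticOnNhd hQo) hQc hq0 hev
  have hq2 := hqQ (2 * Real.pi) (by rw [abs_of_pos (by positivity)]; linarith)
  have h3 := hident hq0
  have h4 := hident hq2
  have h5 : Complex.exp (qs + (2 * Real.pi : ℝ) * Complex.I) = Complex.exp qs := by
    have h6 : qs + ((2 * Real.pi : ℝ) : ℂ) * Complex.I = qs + 2 * Real.pi * Complex.I := by
      push_cast
      ring
    rw [h6, Complex.exp_periodic]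
  have h4' : g (qs + (2 * Real.pi : ℝ) * Complex.I) =
      t * g (Complex.log ((2 * ξ0 - Complex.exp (qs + (2 * Real.pi : ℝ) * Complex.I)) / (2 * ξ0)) +
        Complex.log (2 * ξ0)) + c1 := h4
  have h3' : g qs = t * g (Complex.log ((2 * ξ0 - Complex.exp qs) / (2 * ξ0)) +
        Complex.log (2 * ξ0)) + c1 := h3
  rw [h5, ← h3'] at h4'
  have h7 := hgi (hQS hq2) (hQS hq0) h4'
  have h8 : ((2 * Real.pi : ℝ) : ℂ) * Complex.I = 0 := by
    have h9 := congrArg (fun w => w - qs) h7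
    simpa using h9
  rw [mul_eq_zero] at h8
  rcases h8 with h8 | h8
  · rw [Complex.ofReal_eq_zero] at h8
    linarith
  · exact Complex.I_ne_zero h8

end Pool.Agent.H78.UX
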