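import Pool.Agent.H78.UX.MA
import Pool.Agent.H56.UD.RB

/-!
# THEOREM UD for Julia set = sphere, chapter R: the limit of a sequence of states

`Ql β L`: the left half strip. `EL`: sequences `g n` of injective lifts of the exponential on `Qr (α n) β L`, `α n → -∞`, with the limit `g'` on `Ql β L`.
PROOF of `el_of`. `g n ζ = (G n ζ - z n) / deriv (G n) 0` is injective, `g n 0 = 0`, `deriv (g n) 0 = 1` (`ST.base`, `ST.inj`, `ST.diff`). For `ζ ∈ Ql β L` choose `α' < min (ζ.re) (-1) - 1`; eventually `α n < α'`, so `g n` is defined and injective on `Qr α' β L`; `ral` (`K` a closed disc at `ζ`) bounds it: `ulim_loc` on `S = Ql β L` gives `g'`. `deriv g' 0 = 1` by `ulim_deriv` on `Qr (-1) β L`; `g' 0 = 0`. `InjOn g' (Qr α' β L)` by `ulim_inj` for all `α'` (`g'` is not constant since `deriv g' 0 = 1`); two points of `Ql β L` are in one `Qr α' β L`. `val`: `st_seq`.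
PROOF of `el_gd`. `z n = g n ζ` (eventually in `D n`), `F n (z n) = exp ζ`; chain rule: `deriv (F n) (z n) * deriv (g n) ζ = exp ζ` and `deriv (g n) ζ → deriv g' ζ ≠ 0` (`ulim_deriv`; `g'` injective; `deriv_ne` H80/AJ), so the derivatives are bounded and bounded below.
PROOF of `el_sc`. The set `Ql β L \ {ζ | exp ζ ∈ Ph}` is preconnected (`ph_exp`, `con_gen`); its image under `g'` (continuous) is preconnected, in `Sg` (`el_gd`), and contains both points: `IsPreconnected.subset_connectedComponentIn`.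
-/

set_option autoImplicit false

open Filter Topology Metric Set MeasureTheory

namespace Pool.Agent.H78.UX

open Pool.Agent.H56.UD

variable {f : ℂ → ℂ} {U P Cr E : Set ℂ} {δ b0 : ℝ} {η : ℂ → ℂ → ℂ} {ρ : ℝ} {X hh μ : ℂ → ℂ}

private theorem rb_convex (α β L : ℝ) : Convex ℝ (Qr α β L) := by
  have h1 : Convex ℝ {ζ : ℂ | α < ζ.re} := convex_halfSpace_re_gt α
  have h2 : Convex ℝ {ζ : ℂ | ζ.re < β} := convex_halfSpace_re_lt β
  have h3 : Convex ℝ {ζ : ℂ | -L < ζ.im} := convex_halfSpace_im_gt (-L)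
  have h4 : Convex ℝ {ζ : ℂ | ζ.im < L} := convex_halfSpace_im_lt L
  have h5 : Qr α β L = {ζ : ℂ | α < ζ.re} ∩ ({ζ : ℂ | ζ.re < β} ∩
      ({ζ : ℂ | -L < ζ.im} ∩ {ζ : ℂ | ζ.im < L})) := by
    ext ζ
    simp only [Qr, mem_setOf_eq, mem_inter_iff, abs_lt]
  rw [h5]
  exact h1.inter (h2.inter (h3.inter h4))

private theorem rb_sub {α β L : ℝ} : Qr α β L ⊆ Ql β L := fun _ hζ => ⟨hζ.2.1, hζ.2.2⟩

private theorem rb_mono {α α' β L : ℝ} (h : α ≤ α') : Qr α' β L ⊆ Qr α β L :=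
  fun _ hζ => ⟨h.trans_lt hζ.1, hζ.2⟩

private theorem rb_open (β L : ℝ) : IsOpen (Ql β L) :=
  (isOpen_lt Complex.continuous_re continuous_const).inter
    (isOpen_lt (continuous_abs.comp Complex.continuous_im) continuous_const)

theorem el_of (h : SS f U P Cr δ η ρ) (hX : SX f U P E X hh μ b0) {𝒰 : Ultrafilter ℕ} {z : ℕ → ℂ} {k : ℕ → ℕ}
    {x R : ℕ → ℂ} {α : ℕ → ℝ} {β L : ℝ} {G : ℕ → ℂ → ℂ} (hs : ∀ n, ST f U P P E δ (z n) (k n) (x n) (R n) (α n) β L (G n))
    (hα : ∀ n, α n ≤ -1) (hβ : 1 ≤ β) (hL : 1 ≤ L) (ht : Tendsto (fun n => deriv (G n) 0) (𝒰 : Filter ℕ) (𝓝 0))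
    (hαt : Tendsto α (𝒰 : Filter ℕ) atBot) :
    ∃ g' : ℂ → ℂ, EL 𝒰 (Fn f z k x R (fun n => deriv (G n) 0)) (Dn f U P δ z k (fun n => deriv (G n) 0)) β L α
      (fun n ζ => (G n ζ - z n) / deriv (G n) 0) g' := by
  have hβ0 : 0 < β := by linarith
  have hL0 : 0 < L := by linarith
  have hσ : ∀ n, deriv (G n) 0 ≠ 0 := fun n =>
    (st_der h (hs n) (by have := hα n; linarith) hβ0 hL0).2
  obtain ⟨g, hg⟩ : ∃ g : ℕ → ℂ → ℂ, g = fun n ζ => (G n ζ - z n) / deriv (G n) 0 := ⟨_, rfl⟩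
  have hgn : ∀ n ζ, g n ζ = (G n ζ - z n) / deriv (G n) 0 := fun n ζ => by rw [hg]
  rw [← hg]
  have hdiff : ∀ n, DifferentiableOn ℂ (g n) (Qr (α n) β L) := by
    intro n
    rw [hg]
    exact ((hs n).diff.sub_const _).div_const _
  have hinj : ∀ n, InjOn (g n) (Qr (α n) β L) := by
    intro n a ha b hb hab
    rw [hgn, hgn, div_left_inj' (hσ n), sub_left_inj] at hab
    exact (hs n).inj ha hb hab
  have h0 : ∀ n, g n 0 = 0 := by
    intro n
    rw [hgn, (hs n).base, sub_self, zero_div]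
  have hopen := rb_open β L
  -- the limit
  obtain ⟨g', hd', hl⟩ := ulim_loc 𝒰 (G := g) (S := Ql β L) hopen (by
    intro u hu
    obtain ⟨α', hα'⟩ : ∃ α' : ℝ, α' = min u.re (-1) - 1 := ⟨_, rfl⟩
    have ha1 : α' < u.re := by
      have := min_le_left u.re (-1 : ℝ)
      linarith
    have ha2 : α' < 0 := by
      have := min_le_right u.re (-1 : ℝ)
      linarith
    have hu' : u ∈ Qr α' β L := ⟨ha1, hu.1, hu.2⟩
    obtain ⟨r, hr, hrs⟩ := Metric.nhds_basis_closedBall.mem_iff.1 ((ma_open α' β L).mem_nhds hu')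
    obtain ⟨M, -, hM⟩ := ral ha2 hβ0 hL0 (isCompact_closedBall u r) hrs
    refine ⟨r, M, hr, (ball_subset_closedBall.trans hrs).trans rb_sub, ?_⟩
    filter_upwards [hαt.eventually_le_atBot α'] with n hn
    have hsub : Qr α' β L ⊆ Qr (α n) β L := rb_mono hn
    refine ⟨(hdiff n).mono ((ball_subset_closedBall.trans hrs).trans hsub), fun v hv => ?_⟩
    have h1 := (hM (G n) ((hs n).diff.mono hsub) ((hs n).inj.mono hsub) v
      (ball_subset_closedBall hv)).1
    rw [(hs n).base] at h1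
    rw [hgn, norm_div, div_le_iff₀ (norm_pos_iff.2 (hσ n))]
    exact h1)
  have hz0 : (0 : ℂ) ∈ Ql β L := ⟨by simpa using hβ0, by simpa using hL0⟩
  have hz1 : (0 : ℂ) ∈ Qr (-1) β L := ⟨by simp, by simpa using hβ0, by simpa using hL0⟩
  have hg0 : g' 0 = 0 := by
    have h1 := hl.tendsto_at hz0
    simp only [h0] at h1
    exact (tendsto_nhds_unique tendsto_const_nhds h1).symm
  have hg1 : deriv g' 0 = 1 := by
    have h1 := ulim_deriv 𝒰 (ma_open (-1) β L)
      (Eventually.of_forall fun n => (hdiff n).mono (rb_mono (hα n))) (hl.mono rb_sub)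
    have h2 := h1.tendsto_at hz1
    have h3 : ∀ n, deriv (g n) 0 = 1 := by
      intro n
      have h4 : HasDerivAt (G n) (deriv (G n) 0) 0 :=
        (((hs n).diff _ (rb_mono (hα n) hz1)).differentiableAt
          ((ma_open _ β L).mem_nhds (rb_mono (hα n) hz1))).hasDerivAt
      have h5 := (h4.sub_const (z n)).div_const (deriv (G n) 0)
      rw [div_self (hσ n)] at h5
      rw [hg]
      exact h5.deriv
    simp only [h3] at h2
    exact (tendsto_nhds_unique tendsto_const_nhds h2).symm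
  refine ⟨g', hαt, hβ0, hL0, hdiff, hinj, ?_, hl, hd', ?_, hg0, hg1⟩
  · intro n ζ hζ
    rw [hgn]
    exact (st_seq h hX hs hα hβ hL ht).2 n ζ hζ
  · intro a ha b hb hab
    obtain ⟨α', hα'⟩ : ∃ α' : ℝ, α' = min (min a.re b.re) (-1) - 1 := ⟨_, rfl⟩
    have h1 := min_le_left (min a.re b.re) (-1 : ℝ)
    have h2 := min_le_left a.re b.re
    have h3 := min_le_right a.re b.re
    have h4 := min_le_right (min a.re b.re) (-1 : ℝ)
    have ha' : a ∈ Qr α' β L := ⟨by linarith, ha.1, ha.2⟩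
    have hb' : b ∈ Qr α' β L := ⟨by linarith, hb.1, hb.2⟩
    have hz' : (0 : ℂ) ∈ Qr α' β L := rb_mono (by linarith) hz1
    refine ulim_inj 𝒰 (ma_open α' β L) (rb_convex α' β L).isPreconnected ?_ (hl.mono rb_sub) ?_
      ha' hb' hab
    · filter_upwards [hαt.eventually_le_atBot α'] with n hn
      exact ⟨(hdiff n).mono (rb_mono hn), (hinj n).mono (rb_mono hn)⟩
    · by_contra hcon
      push Not at hcon
      have h5 : g' =ᶠ[𝓝 0] fun _ => g' 0 := by
        filter_upwards [(ma_open α' β L).mem_nhds hz'] with u hu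
        exact hcon u hu 0 hz'
      rw [h5.deriv_eq, deriv_const] at hg1
      exact zero_ne_one hg1

end Pool.Agent.H78.UX
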