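import Pool.Agent.H78.UX.MA

/-!
# THEOREM UD for Julia set = sphere, chapter R: gluing (finite stage)

PROOF. `Λ = 9 π + |β| + 10`, `ε = 1 / 32` (or smaller). Let `σ = deriv G 0 ≠ 0` (`st_der`), `Γ ζ = z + σ G1 ζ`. (1) `Γ 0 = G 0`: `G` is injective on `ball 0 1 ⊆ Qr α (log 10) (9 π)` (`α ≤ -1`, `log 10 > 2`), `univ_cover` (H80/AJ): `ball z (‖σ‖ / 16) ⊆ G '' ball 0 1`; `‖Γ 0 - z‖ < ‖σ‖ / 32`: `Γ 0 = G ζ'`, `‖ζ'‖ < 1`, `R exp ζ' = R exp 0`, so `ζ' = 0`. (2) `lift_unique` (DA) on the convex set `ball 0 Λ ∩ Qr α (log 10) (9 π)` (both are lifts of `x + R exp ζ` into `dm`): `Γ = G` there. (3) `G' ζ = if ζ.re < log 10 then G ζ else Γ ζ`. On `Qr α β (9 π)` near a point `ζ` with `ζ.re < log 10`: `G' = G`; with `ζ.re ≥ log 10`: `ζ ∈ ball 0 Λ` and `G' = Γ` in a neighbourhood (points with real part in `(0, log 10)` near `ζ` are in `ball 0 Λ ∩ Qr α (log 10) (9 π)`): differentiable. Values: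 clear. (4) Injective: `G' ζ = G' ζ'` implies `R exp ζ = R exp ζ'`, so `ζ' = ζ + 2 π i m` with the same real part; if it is `< log 10` use `ST.inj`; otherwise `‖σ‖ ‖ζ - ζ'‖ ≤ ‖σ‖ 2 ε` so `‖ζ - ζ'‖ < 1`, `m = 0`. (5) `base`: `G' 0 = G 0 = z`. If `β ≤ log 10` the same formulas work (`G' = G`).
-/

set_option autoImplicit false

open Filter Topology Metric Set MeasureTheory Pool.Agent.H80.AJ

namespace Pool.Agent.H78.UX

open Pool.Agent.H56.UD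

variable {f : ℂ → ℂ} {U P Cr E : Set ℂ} {δ b0 : ℝ} {η : ℂ → ℂ → ℂ} {ρ : ℝ} {X hh μ : ℂ → ℂ}

private theorem ri_exp {a b : ℂ} (h : Complex.exp a = Complex.exp b) : a.re = b.re ∧ (‖a - b‖ < 1 → a = b) := by
  obtain ⟨n, hn⟩ := Complex.exp_eq_exp_iff_exists_int.1 h
  have h1 : (a - b).im = n * (2 * Real.pi) := by
    rw [hn]
    simp
  have h2 : a.re = b.re := by
    rw [hn]
    simp
  refine ⟨h2, fun h3 => ?_⟩
  have h4 := (Complex.abs_im_le_norm (a - b)).trans_lt h3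
  rw [h1, abs_mul, abs_of_pos (by positivity : (0 : ℝ) < 2 * Real.pi)] at h4
  have h5 := Real.pi_gt_three
  have h6 : |(n : ℝ)| < 1 := by
    by_contra hc
    push Not at hc
    nlinarith
  have h7 : n = 0 := by
    have h8 : |n| < 1 := by exact_mod_cast h6
    exact Int.abs_lt_one_iff.1 h8
  rw [hn, h7]
  simp

private theorem ri_conv (α β L : ℝ) : Convex ℝ (Qr α β L) := by
  have h1 : Qr α β L = {c : ℂ | α < c.re} ∩ ({c : ℂ | c.re < β} ∩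
      ({c : ℂ | -L < c.im} ∩ {c : ℂ | c.im < L})) := by
    ext ζ
    unfold Qr
    simp only [Set.mem_ofPred_eq, Set.mem_inter_iff, abs_lt]
  rw [h1]
  exact (convex_halfSpace_re_gt _).inter ((convex_halfSpace_re_lt _).inter
    ((convex_halfSpace_im_gt _).inter (convex_halfSpace_im_lt _)))

private theorem ri_log : 1 < Real.log 10 := by
  rw [Real.lt_log_iff_exp_lt (by norm_num)]
  have := Real.exp_one_lt_d9
  linarith

theorem glue (h : SS f U P Cr δ η ρ) (β : ℝ) : ∃ Λ ε : ℝ, 0 < ε ∧ ∀ {z : ℂ} {k : ℕ} {x R : ℂ} {α : ℝ} {G : ℂ → ℂ},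
    α ≤ -1 → ST f U P P E δ z k x R α (Real.log 10) (9 * Real.pi) G →
    (∃ G1 : ℂ → ℂ, DifferentiableOn ℂ G1 (ball 0 Λ) ∧ ∀ ζ ∈ ball (0 : ℂ) Λ, z + deriv G 0 * G1 ζ ∈ dm f U P δ k ∧
      f^[k] (z + deriv G 0 * G1 ζ) = x + R * Complex.exp ζ ∧ ‖G1 ζ - ζ‖ < ε) →
    ∃ G' : ℂ → ℂ, ST f U P P E δ z k x R α β (9 * Real.pi) G' ∧ EqOn G G' (Qr α (Real.log 10) (9 * Real.pi)) := by
  refine ⟨9 * Real.pi + |β| + 10, 1 / 32, by norm_num, ?_⟩
  intro z k x R α G hα hs ⟨G1, hG1d, hG1⟩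
  obtain ⟨Λ, hΛ⟩ : ∃ Λ : ℝ, Λ = 9 * Real.pi + |β| + 10 := ⟨_, rfl⟩
  rw [← hΛ] at hG1d hG1
  have hpi := Real.pi_gt_three
  have hlog := ri_log
  have hΛ1 : 1 < Λ := by
    rw [hΛ]
    have := abs_nonneg β
    linarith
  obtain ⟨σ, hσ⟩ : ∃ σ, σ = deriv G 0 := ⟨_, rfl⟩
  have hσ0 : σ ≠ 0 := by
    rw [hσ]
    exact (st_der h hs (by linarith) (by linarith) (by positivity)).2
  have hσn : 0 < ‖σ‖ := norm_pos_iff.2 hσ0
  rw [← hσ] at hG1
  obtain ⟨Γ, hΓ⟩ : ∃ Γ : ℂ → ℂ, Γ = fun ζ => z + σ * G1 ζ := ⟨_, rfl⟩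
  have hΓd : DifferentiableOn ℂ Γ (ball 0 Λ) := by
    rw [hΓ]
    exact (hG1d.const_mul σ).const_add z
  have hΓv : ∀ ζ ∈ ball (0 : ℂ) Λ, Γ ζ ∈ dm f U P δ k ∧ f^[k] (Γ ζ) = x + R * Complex.exp ζ := by
    intro ζ hζ
    obtain ⟨h1, h2, -⟩ := hG1 ζ hζ
    rw [hΓ]
    exact ⟨h1, h2⟩
  have hexp : ∀ {a b : ℂ}, x + R * Complex.exp a = x + R * Complex.exp b → Complex.exp a = Complex.exp b :=
    fun hab => mul_left_cancel₀ hs.R0 (add_left_cancel hab)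
  have hb1 : ball (0 : ℂ) 1 ⊆ Qr α (Real.log 10) (9 * Real.pi) := by
    intro u hu
    rw [mem_ball_zero_iff] at hu
    have h1 := (Complex.abs_re_le_norm u).trans_lt hu
    have h2 := (Complex.abs_im_le_norm u).trans_lt hu
    have h3 := abs_lt.1 h1
    exact ⟨by linarith [h3.1], by linarith [h3.2], by linarith⟩
  have h0Λ : (0 : ℂ) ∈ ball (0 : ℂ) Λ := mem_ball_self (by linarith)
  have h0Q : (0 : ℂ) ∈ Qr α (Real.log 10) (9 * Real.pi) := hb1 (mem_ball_self one_pos)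
  -- (1)
  have hΓ0 : Γ 0 = G 0 := by
    have h1 := univ_cover one_pos (hs.diff.mono hb1) (hs.inj.mono hb1)
    rw [hs.base, ← hσ] at h1
    have h2 : Γ 0 ∈ ball z (1 * ‖σ‖ / 16) := by
      have h3 := (hG1 0 h0Λ).2.2
      rw [sub_zero] at h3
      rw [hΓ, mem_ball, dist_eq_norm]
      show ‖z + σ * G1 0 - z‖ < 1 * ‖σ‖ / 16
      rw [add_sub_cancel_left, norm_mul]
      nlinarith
    obtain ⟨ζ', hζ', he⟩ := h1 h2
    have h3 := (hs.val ζ' (hb1 hζ')).2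
    rw [he, (hΓv 0 h0Λ).2] at h3
    have h4 := (ri_exp (hexp h3).symm).2 (by
      rw [sub_zero]
      exact mem_ball_zero_iff.1 hζ')
    rw [← he, h4]
  -- (2)
  have hEq : EqOn G Γ (ball 0 Λ ∩ Qr α (Real.log 10) (9 * Real.pi)) := by
    refine lift_unique h ((convex_ball _ _).inter (ri_conv _ _ _)).isPreconnected
      (hs.diff.continuousOn.mono inter_subset_right) (hΓd.continuousOn.mono inter_subset_left)
      (fun u hu => (hs.val u hu.2).1) (fun u hu => (hΓv u hu.1).1)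
      (fun u hu => by rw [(hs.val u hu.2).2, (hΓv u hu.1).2]) (fun u hu h1 => ?_) ⟨h0Λ, h0Q⟩ hΓ0.symm
    have h2 := der_lift h (ma_open _ _ _) hs.diff hs.val hu.2
    rw [h1, zero_mul] at h2
    have h3 : deriv (fun ζ : ℂ => x + R * Complex.exp ζ) u = R * Complex.exp u :=
      (((Complex.hasDerivAt_exp u).const_mul R).const_add x).deriv
    rw [h3] at h2
    exact mul_ne_zero hs.R0 (Complex.exp_ne_zero u) h2.symm
  -- (3)
  obtain ⟨G', hG'⟩ : ∃ G' : ℂ → ℂ, G' = fun ζ => if ζ.re < Real.log 10 then G ζ else Γ ζ := ⟨_, rfl⟩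
  have hlt : ∀ ζ : ℂ, ζ.re < Real.log 10 → G' ζ = G ζ := by
    intro ζ hζ
    rw [hG']
    exact if_pos hζ
  have hge : ∀ ζ : ℂ, ¬ ζ.re < Real.log 10 → G' ζ = Γ ζ := by
    intro ζ hζ
    rw [hG']
    exact if_neg hζ
  have hin : ∀ ζ ∈ Qr α β (9 * Real.pi), ¬ ζ.re < Real.log 10 → ζ ∈ ball (0 : ℂ) Λ := by
    intro ζ hζ hr
    obtain ⟨h1, h2, h3⟩ := hζ
    push Not at hr
    rw [mem_ball_zero_iff]
    have h4 := Complex.norm_le_abs_re_add_abs_im ζ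
    have h5 : |ζ.re| ≤ |β| := by
      rw [abs_of_pos (by linarith)]
      exact h2.le.trans (le_abs_self β)
    linarith
  have hval : ∀ ζ ∈ Qr α β (9 * Real.pi), G' ζ ∈ dm f U P δ k ∧ f^[k] (G' ζ) = x + R * Complex.exp ζ := by
    intro ζ hζ
    by_cases hr : ζ.re < Real.log 10
    · rw [hlt ζ hr]
      exact hs.val ζ ⟨hζ.1, hr, hζ.2.2⟩
    · rw [hge ζ hr]
      exact hΓv ζ (hin ζ hζ hr)
  refine ⟨G', ⟨hs.zE, hs.xP, hs.R0, ?_, ?_, hval, ?_⟩, ?_⟩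
  · intro ζ hζ
    by_cases hr : ζ.re < Real.log 10
    · have h1 : ζ ∈ Qr α (Real.log 10) (9 * Real.pi) := ⟨hζ.1, hr, hζ.2.2⟩
      have h2 : DifferentiableAt ℂ G ζ := hs.diff.differentiableAt ((ma_open _ _ _).mem_nhds h1)
      refine (h2.congr_of_eventuallyEq ?_).differentiableWithinAt
      filter_upwards [(ma_open _ _ _).mem_nhds h1] with u hu
      exact hlt u hu.2.1
    · have h1 : ζ ∈ ball (0 : ℂ) Λ := hin ζ hζ hr
      have h2 : DifferentiableAt ℂ Γ ζ := hΓd.differentiableAt (isOpen_ball.mem_nhds h1)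
      refine (h2.congr_of_eventuallyEq ?_).differentiableWithinAt
      filter_upwards [isOpen_ball.mem_nhds h1, (ma_open _ _ _).mem_nhds hζ] with u hu1 hu2
      by_cases hr2 : u.re < Real.log 10
      · rw [hlt u hr2]
        exact hEq ⟨hu1, hu2.1, hr2, hu2.2.2⟩
      · exact hge u hr2
  · intro ζ hζ ζ' hζ' he
    have h1 := (hval ζ hζ).2
    rw [he, (hval ζ' hζ').2] at h1
    obtain ⟨h2, h3⟩ := ri_exp (hexp h1.symm)
    by_cases hr : ζ.re < Real.log 10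
    · have hr' : ζ'.re < Real.log 10 := by rwa [← h2]
      rw [hlt ζ hr, hlt ζ' hr'] at he
      exact hs.inj ⟨hζ.1, hr, hζ.2.2⟩ ⟨hζ'.1, hr', hζ'.2.2⟩ he
    · have hr' : ¬ ζ'.re < Real.log 10 := by rwa [← h2]
      rw [hge ζ hr, hge ζ' hr', hΓ] at he
      have h4 : G1 ζ = G1 ζ' := mul_left_cancel₀ hσ0 (add_left_cancel he)
      have h5 := (hG1 ζ (hin ζ hζ hr)).2.2
      have h6 := (hG1 ζ' (hin ζ' hζ' hr')).2.2
      rw [h4] at h5
      apply h3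
      have h7 : ζ - ζ' = (G1 ζ' - ζ') - (G1 ζ' - ζ) := by ring
      rw [h7]
      have h8 := norm_sub_le (G1 ζ' - ζ') (G1 ζ' - ζ)
      linarith
  · rw [hlt 0 (by rw [Complex.zero_re]; linarith), hs.base]
  · intro ζ hζ
    exact (hlt ζ hζ.2.1).symm

end Pool.Agent.H78.UX
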