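import Pool.Agent.H78.UX.MA
import Pool.Agent.H56.UD.MD

/-!
# THEOREM UD for Julia set = sphere, chapter M: transport of states

`Tb j x x' r' h`: `h` is the univalent branch of `f^(-j)` on `ball x' r'` with `h x' = x`.
PROOF of `trans`. `x' = f^[j] x ∈ P` (`P_it`). `R' = f^[i+j] z - x'`, `h (x' + R') = f^[i] z = x + R` (hypothesis `hz`). For `ζ ∈ Qr (α + 1/10) (log 10) (9 π)`: `u = x' + R' exp ζ ∈ ball x' r'` (`‖R'‖ 10 < r'`), `(h u - x) / (R exp ζ) = 1 + small`, `|small| ≤ C (10 + 1) ‖R'‖ / r' ≤ 1 / 1000` if `K1 = 11000 C` (`aff_q` with `u0 = x' + R'`). `λ ζ = ζ + Complex.log ((h u - x) / (R exp ζ))`: holomorphic, `‖λ ζ - ζ‖ ≤ 1/100`, `exp (λ ζ) = (h u - x) / R`, `λ 0 = 0`; `λ ζ ∈ Qr α (log 10 + 1) (10 π)`. `G' = G ∘ λ`: `f^[i] (G' ζ) = x + R exp (λ ζ) = h u`, `G' ζ ∈ dm i`, `h u ∈ dm j`, so `G' ζ ∈ dm (i + j)` (`dm_add'`), `f^[i+j] (G' ζ) = u`. `λ` is injective (`exp (λ ζ)` determines `u` since `h` is injective,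 so `exp ζ`; then `ζ - ζ' ∈ 2 π i ℤ` and `|λ ζ - λ ζ' - (ζ - ζ')| ≤ 1/50`). `deriv λ 0`: `deriv (G') 0 = deriv G 0 * deriv λ 0`, `deriv λ 0 = h' (x' + R') R' / R`, `‖deriv λ 0‖ ≤ 1 + 1/100` (`aff`: `h'` and `R / R'` are both `h' x' (1 + small)`).
-/

set_option autoImplicit false

open Filter Topology Metric Set MeasureTheory

namespace Pool.Agent.H78.UX

open Pool.Agent.H56.UD

variable {f : ℂ → ℂ} {U P Cr E : Set ℂ} {δ b0 : ℝ} {η : ℂ → ℂ → ℂ} {ρ : ℝ} {X hh μ : ℂ → ℂ}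

private theorem md_log {w : ℂ} {ε : ℝ} (hε : ε ≤ 1 / 2) (hw : ‖w - 1‖ ≤ ε) :
    w ∈ Complex.slitPlane ∧ ‖Complex.log w‖ ≤ 3 / 2 * ε ∧ w ≠ 0 := by
  have h1 : w = 1 + (w - 1) := by ring
  have h2 : ‖w - 1‖ < 1 := by linarith
  refine ⟨?_, ?_, ?_⟩
  · rw [h1]
    exact Complex.mem_slitPlane_of_norm_lt_one h2
  · rw [h1]
    exact (Complex.norm_log_one_add_half_le_self (hw.trans hε)).trans (by linarith)
  · rintro rfl
    rw [zero_sub, norm_neg, norm_one] at h2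
    exact lt_irrefl _ h2

private theorem md_open (α β L : ℝ) : IsOpen (Qr α β L) := by
  have h1 : IsOpen {ζ : ℂ | α < ζ.re} := isOpen_lt continuous_const Complex.continuous_re
  have h2 : IsOpen {ζ : ℂ | ζ.re < β} := isOpen_lt Complex.continuous_re continuous_const
  have h3 : IsOpen {ζ : ℂ | |ζ.im| < L} :=
    isOpen_lt (continuous_abs.comp Complex.continuous_im) continuous_const
  have h4 : Qr α β L = {ζ : ℂ | α < ζ.re} ∩ ({ζ : ℂ | ζ.re < β} ∩ {ζ : ℂ | |ζ.im| < L}) := rfl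
  rw [h4]
  exact h1.inter (h2.inter h3)

/-- transport -/
theorem trans (h : SS f U P Cr δ η ρ) : ∃ K1 : ℝ, 1 ≤ K1 ∧ ∀ {z : ℂ} {i j : ℕ} {x R x' : ℂ} {α r' : ℝ} {G g : ℂ → ℂ},
    ST f U P P E δ z i x R α (Real.log 10 + 1) (10 * Real.pi) G → α ≤ -5 → Tb f U P δ j x x' r' g →
    g (f^[i + j] z) = f^[i] z → K1 * ‖f^[i + j] z - x'‖ < r' →
    ∃ G' : ℂ → ℂ, ST f U P P E δ z (i + j) x' (f^[i + j] z - x') (α + 1 / 10) (Real.log 10) (9 * Real.pi) G' ∧
      ‖deriv G' 0‖ ≤ 101 / 100 * ‖deriv G 0‖ ∧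
      ∀ ζ ∈ Qr (α + 1 / 10) (Real.log 10) (9 * Real.pi), f^[i] (G' ζ) = g (x' + (f^[i + j] z - x') * Complex.exp ζ) := by
  obtain ⟨C, hC1, hC⟩ := aff_q
  refine ⟨11000 * C, by linarith, ?_⟩
  intro z i j x R x' α r' G g hs hα hT hgz hK
  have hC0 : 0 < C := by linarith
  have hlog10 : 1 < Real.log 10 := by
    rw [Real.lt_log_iff_exp_lt (by norm_num)]
    exact Real.exp_one_lt_d9.trans (by norm_num)
  have hpi : 3 < Real.pi := Real.pi_gt_three
  have hR : R = f^[i] z - x := st_val hs (by linarith) (by linarith) (by linarith)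
  obtain ⟨R', hR'⟩ : ∃ R', R' = f^[i + j] z - x' := ⟨_, rfl⟩
  rw [← hR'] at hK ⊢
  have hn0 : 0 ≤ ‖R'‖ := norm_nonneg _
  have hr' : 0 < r' := lt_of_le_of_lt (by positivity) hK
  have hx' : x' ∈ ball x' r' := mem_ball_self hr'
  have hR'0 : R' ≠ 0 := by
    intro h0
    have h1 : f^[i + j] z = x' := sub_eq_zero.1 (hR'.symm.trans h0)
    rw [h1, hT.cen] at hgz
    exact hs.R0 (by rw [hR, ← hgz, sub_self])
  have hx'P : x' ∈ P := by
    have h1 := (hT.val x' hx').2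
    rw [hT.cen] at h1
    rw [← h1]
    exact P_it h j hs.xP
  have hginj : InjOn g (ball x' r') := by
    intro u hu v hv huv
    rw [← (hT.val u hu).2, ← (hT.val v hv).2, huv]
  have hsmall : 10 * ‖R'‖ < r' / C := by
    rw [lt_div_iff₀ hC0]
    have h1 : 10 * ‖R'‖ * C ≤ 11000 * C * ‖R'‖ := by nlinarith [mul_nonneg hC0.le hn0]
    linarith
  have hCr : r' / C ≤ r' := div_le_self hr'.le hC1
  have hy : f^[i + j] z = x' + R' := by rw [hR']; ring
  have hyb : x' + R' ∈ ball x' (r' / C) := by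
    rw [mem_ball, dist_eq_norm, add_sub_cancel_left]
    linarith
  have hgy : g (x' + R') - g x' = R := by
    rw [← hy, hgz, hT.cen, hR]
  -- the points over the rectangle
  have hexp : ∀ ζ ∈ Qr (α + 1 / 10) (Real.log 10) (9 * Real.pi), ‖Complex.exp ζ‖ < 10 := by
    intro ζ hζ
    rw [Complex.norm_exp]
    have h1 := Real.exp_lt_exp.2 hζ.2.1
    rwa [Real.exp_log (by norm_num)] at h1
  have hub : ∀ ζ ∈ Qr (α + 1 / 10) (Real.log 10) (9 * Real.pi),
      x' + R' * Complex.exp ζ ∈ ball x' (r' / C) := by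
    intro ζ hζ
    rw [mem_ball, dist_eq_norm, add_sub_cancel_left, norm_mul]
    have h1 := hexp ζ hζ
    have h2 : ‖R'‖ * ‖Complex.exp ζ‖ ≤ ‖R'‖ * 10 := mul_le_mul_of_nonneg_left h1.le hn0
    linarith
  have hub' : ∀ ζ ∈ Qr (α + 1 / 10) (Real.log 10) (9 * Real.pi),
      x' + R' * Complex.exp ζ ∈ ball x' r' := fun ζ hζ => ball_subset_ball hCr (hub ζ hζ)
  obtain ⟨q, hq⟩ : ∃ q : ℂ → ℂ, q = fun ζ => (g (x' + R' * Complex.exp ζ) - x) / (R * Complex.exp ζ) :=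
    ⟨_, rfl⟩
  have hq1 : ∀ ζ ∈ Qr (α + 1 / 10) (Real.log 10) (9 * Real.pi), ‖q ζ - 1‖ ≤ 1 / 1000 := by
    intro ζ hζ
    have hne : x' + R' * Complex.exp ζ ≠ x' := by
      intro h0
      rw [add_eq_left] at h0
      exact (mul_ne_zero hR'0 (Complex.exp_ne_zero ζ)) h0
    have hne2 : x' + R' ≠ x' := by
      intro h0
      rw [add_eq_left] at h0
      exact hR'0 h0
    have h1 := hC g x' r' hr' hT.diff hginj (x' + R') hyb hne2 (x' + R' * Complex.exp ζ)
      (hub ζ hζ) hne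
    rw [hgy, hT.cen, add_sub_cancel_left, add_sub_cancel_left, mul_div_cancel_left₀ _ hR'0,
      div_div] at h1
    rw [hq]
    refine h1.trans ?_
    rw [div_le_iff₀ hr', norm_mul]
    have h2 := (hexp ζ hζ).le
    have h3 : ‖R'‖ * ‖Complex.exp ζ‖ ≤ ‖R'‖ * 10 := mul_le_mul_of_nonneg_left h2 hn0
    have h4 : C * (‖R'‖ * ‖Complex.exp ζ‖ + ‖R'‖) ≤ C * (11 * ‖R'‖) :=
      mul_le_mul_of_nonneg_left (by linarith) hC0.le
    linarith
  have hlog : ∀ ζ ∈ Qr (α + 1 / 10) (Real.log 10) (9 * Real.pi),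
      q ζ ∈ Complex.slitPlane ∧ ‖Complex.log (q ζ)‖ ≤ 1 / 500 ∧ q ζ ≠ 0 := by
    intro ζ hζ
    obtain ⟨h1, h2, h3⟩ := md_log (by norm_num) (hq1 ζ hζ)
    exact ⟨h1, h2.trans (by norm_num), h3⟩
  have hqd : DifferentiableOn ℂ q (Qr (α + 1 / 10) (Real.log 10) (9 * Real.pi)) := by
    have h1 : DifferentiableOn ℂ (fun ζ => x' + R' * Complex.exp ζ)
        (Qr (α + 1 / 10) (Real.log 10) (9 * Real.pi)) :=
      ((Complex.differentiable_exp.const_mul R').const_add x').differentiableOn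
    have h2 : DifferentiableOn ℂ (fun ζ => g (x' + R' * Complex.exp ζ))
        (Qr (α + 1 / 10) (Real.log 10) (9 * Real.pi)) := hT.diff.comp h1 fun ζ hζ => hub' ζ hζ
    rw [hq]
    refine (h2.sub_const x).div (Complex.differentiable_exp.const_mul R).differentiableOn
      fun ζ _ => mul_ne_zero hs.R0 (Complex.exp_ne_zero ζ)
  have hld : DifferentiableOn ℂ (fun ζ => Complex.log (q ζ))
      (Qr (α + 1 / 10) (Real.log 10) (9 * Real.pi)) := hqd.clog fun ζ hζ => (hlog ζ hζ).1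
  obtain ⟨lam, hlam⟩ : ∃ lam : ℂ → ℂ, lam = fun ζ => ζ + Complex.log (q ζ) := ⟨_, rfl⟩
  have hlamd : DifferentiableOn ℂ lam (Qr (α + 1 / 10) (Real.log 10) (9 * Real.pi)) := by
    rw [hlam]
    exact differentiableOn_id.add hld
  have hlam_mem : ∀ ζ ∈ Qr (α + 1 / 10) (Real.log 10) (9 * Real.pi),
      lam ζ ∈ Qr α (Real.log 10 + 1) (10 * Real.pi) := by
    intro ζ hζ
    have h1 := (hlog ζ hζ).2.1
    have h2 := (Complex.abs_re_le_norm _).trans h1
    have h3 := (Complex.abs_im_le_norm _).trans h1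
    rw [abs_le] at h2
    rw [hlam]
    refine ⟨?_, ?_, ?_⟩
    · have h4 := hζ.1
      rw [Complex.add_re]
      linarith [h2.1]
    · have h4 := hζ.2.1
      rw [Complex.add_re]
      linarith [h2.2]
    · have h4 := hζ.2.2
      rw [Complex.add_im]
      refine (abs_add_le _ _).trans_lt ?_
      linarith
  have hlam_exp : ∀ ζ ∈ Qr (α + 1 / 10) (Real.log 10) (9 * Real.pi),
      x + R * Complex.exp (lam ζ) = g (x' + R' * Complex.exp ζ) := by
    intro ζ hζ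
    have h1 : lam ζ = ζ + Complex.log (q ζ) := by rw [hlam]
    rw [h1, Complex.exp_add, Complex.exp_log (hlog ζ hζ).2.2]
    have h2 : q ζ = (g (x' + R' * Complex.exp ζ) - x) / (R * Complex.exp ζ) := by rw [hq]
    rw [h2, ← mul_assoc, mul_div_cancel₀ _ (mul_ne_zero hs.R0 (Complex.exp_ne_zero ζ))]
    ring
  have h0mem : (0 : ℂ) ∈ Qr (α + 1 / 10) (Real.log 10) (9 * Real.pi) := by
    refine ⟨?_, ?_, ?_⟩
    · rw [Complex.zero_re]
      linarith
    · rw [Complex.zero_re]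
      linarith
    · rw [Complex.zero_im, abs_zero]
      linarith
  have hq0 : q 0 = 1 := by
    rw [hq]
    simp only [Complex.exp_zero, mul_one]
    have h1 : g (x' + R') - x = R := by rw [← hgy, hT.cen]
    rw [h1]
    exact div_self hs.R0
  have hlam0 : lam 0 = 0 := by
    rw [hlam]
    show (0 : ℂ) + Complex.log (q 0) = 0
    rw [hq0, Complex.log_one, add_zero]
  have hfi : ∀ ζ ∈ Qr (α + 1 / 10) (Real.log 10) (9 * Real.pi),
      f^[i] (G (lam ζ)) = g (x' + R' * Complex.exp ζ) := by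
    intro ζ hζ
    rw [(hs.val _ (hlam_mem ζ hζ)).2, hlam_exp ζ hζ]
  refine ⟨fun ζ => G (lam ζ), ⟨hs.zE, hx'P, hR'0, ?_, ?_, ?_, ?_⟩, ?_, hfi⟩
  · exact hs.diff.comp hlamd fun ζ hζ => hlam_mem ζ hζ
  · intro ζ hζ ζ' hζ' hGG
    have h1 : lam ζ = lam ζ' := hs.inj (hlam_mem ζ hζ) (hlam_mem ζ' hζ') hGG
    have h2 : g (x' + R' * Complex.exp ζ) = g (x' + R' * Complex.exp ζ') := by
      rw [← hlam_exp ζ hζ, ← hlam_exp ζ' hζ', h1]
    have h3 := hginj (hub' ζ hζ) (hub' ζ' hζ') h2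
    have h4 : Complex.exp ζ = Complex.exp ζ' := by
      have h5 := add_left_cancel h3
      exact mul_left_cancel₀ hR'0 h5
    have h5 : q ζ = q ζ' := by
      rw [hq]
      show (g (x' + R' * Complex.exp ζ) - x) / (R * Complex.exp ζ) =
        (g (x' + R' * Complex.exp ζ') - x) / (R * Complex.exp ζ')
      rw [h4]
    have h6 : ζ + Complex.log (q ζ) = ζ' + Complex.log (q ζ') := by
      have h7 := h1
      rw [hlam] at h7
      exact h7
    rw [h5] at h6
    exact add_right_cancel h6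
  · intro ζ hζ
    have h1 := (hs.val _ (hlam_mem ζ hζ)).1
    have h2 := hT.val _ (hub' ζ hζ)
    refine ⟨dm_add' h1.1 ?_, ?_⟩
    · rw [hfi ζ hζ]
      exact h2.1
    · rw [add_comm i j, Function.iterate_add_apply, hfi ζ hζ]
      exact h2.2
  · show G (lam 0) = z
    rw [hlam0]
    exact hs.base
  · -- the derivative at `0`
    have hcb : closedBall (0 : ℂ) 1 ⊆ Qr (α + 1 / 10) (Real.log 10) (9 * Real.pi) := by
      intro ζ hζ
      rw [mem_closedBall, dist_zero_right] at hζ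
      have h2 := (Complex.abs_re_le_norm ζ).trans hζ
      have h3 := (Complex.abs_im_le_norm ζ).trans hζ
      rw [abs_le] at h2
      refine ⟨by linarith [h2.1], by linarith [h2.2], by linarith⟩
    have hdc : DiffContOnCl ℂ (fun ζ => Complex.log (q ζ)) (ball 0 1) := by
      refine DifferentiableOn.diffContOnCl ?_
      rw [closure_ball _ one_ne_zero]
      exact hld.mono hcb
    have h1 : ‖deriv (fun ζ => Complex.log (q ζ)) 0‖ ≤ 1 / 500 / 1 :=
      Complex.norm_deriv_le_of_forall_mem_sphere_norm_le one_pos hdc fun ζ hζ =>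
        (hlog ζ (hcb (sphere_subset_closedBall hζ))).2.1
    have hnh : Qr (α + 1 / 10) (Real.log 10) (9 * Real.pi) ∈ 𝓝 (0 : ℂ) :=
      (md_open _ _ _).mem_nhds h0mem
    have hld0 : DifferentiableAt ℂ (fun ζ => Complex.log (q ζ)) 0 := hld.differentiableAt hnh
    have hlam_der : deriv lam 0 = 1 + deriv (fun ζ => Complex.log (q ζ)) 0 := by
      rw [hlam]
      have h2 := (hasDerivAt_id (0 : ℂ)).add hld0.hasDerivAt
      exact h2.deriv
    have hGd : DifferentiableAt ℂ G (lam 0) := by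
      refine hs.diff.differentiableAt ?_
      exact (md_open _ _ _).mem_nhds (hlam_mem 0 h0mem)
    have hlamd0 : DifferentiableAt ℂ lam 0 := hlamd.differentiableAt hnh
    have h3 : deriv (fun ζ => G (lam ζ)) 0 = deriv G (lam 0) * deriv lam 0 :=
      (hGd.hasDerivAt.comp (0 : ℂ) hlamd0.hasDerivAt).deriv
    rw [h3, hlam0, norm_mul, mul_comm]
    refine mul_le_mul_of_nonneg_right ?_ (norm_nonneg _)
    rw [hlam_der]
    refine (norm_add_le _ _).trans ?_
    rw [norm_one]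
    linarith

end Pool.Agent.H78.UX
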