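import Pool.Agent.H78.UX.MD

/-!
# THEOREM UD for Julia set = sphere, chapter M: one step without critical points

`local_br`: PROOF. `PS.loc` at `y = f x`, `z = x`. Case (i): a branch `g` on `ball (f x) δ1`; `g` univalent; `R' = f w - f x`, `w = g (f w)` if `w` is near `x` (`‖w - x‖ < δ3`; two preimages of `f w` near `x` agree: `deriv g ≠ 0`, or `univ_cover`: `ball x (δ1 ‖g'‖ / 16) ⊆ g '' ball`; a lower bound of `‖g'‖` on `J`: `f` is Lipschitz near `J`). For `K ‖R'‖ < δ1 / 4`: on `ball (f x) (K ‖R'‖)`, `aff`: values in `ball x (2 K ‖w - x‖)`. Case (ii): `x = η c v_x`, the nearest critical point: `‖c - x‖ ≥ D = 100 C K ‖w - x‖` implies `‖v_x‖ ≥ D / (2 ‖A‖)`, `w = η c v_w`, `R' = v_w ^ 2 - v_x ^ 2`; the branch `g u = η c (sqrt (u - f c))` (root near `v_x`) is univalent on `ball (f x) (‖v_x‖ ^ 2)`, and `K ‖R'‖ ≤ ‖v_x‖ ^ 2 / C`.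
-/

set_option autoImplicit false

open Filter Topology Metric Set MeasureTheory

namespace Pool.Agent.H78.UX

open Pool.Agent.H56.UD

variable {f : ℂ → ℂ} {U P Cr E : Set ℂ} {δ b0 : ℝ} {η : ℂ → ℂ → ℂ} {ρ : ℝ} {X hh μ : ℂ → ℂ}

open Pool.Agent.H80.AJ (KK KK_pos one_le_KK univ_cover distort distort_lip deriv_ne)

/-- a square root near `a` -/
private theorem lb_sqrt {a : ℂ} (ha : a ≠ 0) (y : ℂ) : ∃ s : ℂ → ℂ,
    DifferentiableOn ℂ s (ball y (‖a‖ ^ 2)) ∧ s y = a ∧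
      ∀ u ∈ ball y (‖a‖ ^ 2), s u ^ 2 = a ^ 2 + (u - y) := by
  have ha2 : a ^ 2 ≠ 0 := pow_ne_zero 2 ha
  have hsl : ∀ u ∈ ball y (‖a‖ ^ 2), 1 + (u - y) / a ^ 2 ∈ Complex.slitPlane := by
    intro u hu
    refine Complex.mem_slitPlane_of_norm_lt_one ?_
    rw [mem_ball, dist_eq_norm] at hu
    rw [norm_div, norm_pow, div_lt_one (by positivity)]
    exact hu
  refine ⟨fun u => a * Complex.exp (Complex.log (1 + (u - y) / a ^ 2) / 2), ?_, ?_, ?_⟩
  · intro u hu
    have h1 : DifferentiableAt ℂ (fun u : ℂ => 1 + (u - y) / a ^ 2) u := by fun_prop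
    have h2 := h1.clog (hsl u hu)
    exact ((h2.div_const 2).cexp.const_mul a).differentiableWithinAt
  · show a * Complex.exp (Complex.log (1 + (y - y) / a ^ 2) / 2) = a
    rw [sub_self, zero_div, add_zero, Complex.log_one, zero_div, Complex.exp_zero, mul_one]
  · intro u hu
    show (a * Complex.exp (Complex.log (1 + (u - y) / a ^ 2) / 2)) ^ 2 = _
    have h3 : (1 + (u - y) / a ^ 2) ≠ 0 := Complex.slitPlane_ne_zero (hsl u hu)
    rw [mul_pow, ← Complex.exp_nat_mul]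
    have h4 : ((2 : ℕ) : ℂ) * (Complex.log (1 + (u - y) / a ^ 2) / 2) =
        Complex.log (1 + (u - y) / a ^ 2) := by
      push_cast
      ring
    rw [h4, Complex.exp_log h3]
    field_simp

/-- a branch on a disc of radius `r` gives the assertion for `w` near `x` -/
private theorem lb_core {g : ℂ → ℂ} (Uo : IsOpen U) (fd : DifferentiableOn ℂ f U) {x w : ℂ}
    {r K : ℝ} (hx : x ∈ U) (hfx : f x ∈ P) (hr : 0 < r) (hrδ : r ≤ δ)
    (hg : DifferentiableOn ℂ g (ball (f x) r)) (hgx : g (f x) = x)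
    (hgv : ∀ u ∈ ball (f x) r, g u ∈ U ∧ f (g u) = u) (hK : 1 ≤ K) (hw : w ≠ x)
    (hwx : 32 * K * ‖w - x‖ * ‖deriv f x‖ < r) :
    w ∈ U ∧ f w ≠ f x ∧ Tb f U P δ 1 x (f x) (K * ‖f w - f x‖) g ∧ (1 < K → g (f w) = w) ∧
      ∀ u ∈ ball (f x) (K * ‖f w - f x‖), g u ∈ ball x (16 * KK * K * ‖w - x‖) := by
  have hinj : InjOn g (ball (f x) r) := by
    intro u hu u' hu' he
    rw [← (hgv u hu).2, ← (hgv u' hu').2, he]
  have hcen : f x ∈ ball (f x) r := mem_ball_self hr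
  have hd : deriv f x * deriv g (f x) = 1 := by
    have h1 : HasDerivAt g (deriv g (f x)) (f x) :=
      (hg.differentiableAt (isOpen_ball.mem_nhds hcen)).hasDerivAt
    have h2 : HasDerivAt f (deriv f x) (g (f x)) := by
      rw [hgx]
      exact (fd.differentiableAt (Uo.mem_nhds hx)).hasDerivAt
    have h3 : HasDerivAt (f ∘ g) (deriv f x * deriv g (f x)) (f x) := h2.comp (f x) h1
    have h4 : HasDerivAt (f ∘ g) 1 (f x) := by
      refine (hasDerivAt_id (f x)).congr_of_eventuallyEq ?_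
      filter_upwards [isOpen_ball.mem_nhds hcen] with u hu
      exact (hgv u hu).2
    exact h3.unique h4
  have hnd : ‖deriv f x‖ * ‖deriv g (f x)‖ = 1 := by rw [← norm_mul, hd, norm_one]
  obtain ⟨D, hD⟩ : ∃ D, D = ‖deriv g (f x)‖ := ⟨_, rfl⟩
  rw [← hD] at hnd
  have hD0 : 0 < D := by
    rcases (hD ▸ norm_nonneg _ : 0 ≤ D).lt_or_eq with h1 | h1
    · exact h1
    · rw [← h1, mul_zero] at hnd
      exact absurd hnd zero_ne_one
  have hwx0 : 0 < ‖w - x‖ := norm_pos_iff.2 (sub_ne_zero.2 hw)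
  have hK0 : 0 < K := by linarith
  have hrD : 32 * K * ‖w - x‖ < r * D := by
    have h1 := mul_lt_mul_of_pos_right hwx hD0
    rwa [mul_assoc (32 * K * ‖w - x‖), hnd, mul_one] at h1
  have hKw : ‖w - x‖ ≤ K * ‖w - x‖ := le_mul_of_one_le_left hwx0.le hK
  have hcov : ∀ s : ℝ, 0 < s → s ≤ r → ball x (s * D / 16) ⊆ g '' ball (f x) s := by
    intro s hs hsr
    have h1 := univ_cover hs (hg.mono (ball_subset_ball hsr)) (hinj.mono (ball_subset_ball hsr))
    rwa [hgx, ← hD] at h1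
  have hwim : w ∈ g '' ball (f x) r := by
    refine hcov r hr le_rfl ?_
    rw [mem_ball, dist_eq_norm]
    linarith
  obtain ⟨u0, hu0, hgu0⟩ := hwim
  have hfw : f w = u0 := by rw [← hgu0]; exact (hgv u0 hu0).2
  have hwU : w ∈ U := by rw [← hgu0]; exact (hgv u0 hu0).1
  have hgfw : g (f w) = w := by rw [hfw]; exact hgu0
  have hne : f w ≠ f x := by
    intro he
    apply hw
    rw [← hgfw, he, hgx]
  have hR : ‖f w - f x‖ * D ≤ 16 * ‖w - x‖ := by
    by_contra hcon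
    push Not at hcon
    obtain ⟨s, hs⟩ : ∃ s, s = min ‖f w - f x‖ r := ⟨_, rfl⟩
    have hs1 : s ≤ ‖f w - f x‖ := hs ▸ min_le_left _ _
    have hs2 : s ≤ r := hs ▸ min_le_right _ _
    have hs0 : 0 < s := by
      rw [hs]
      exact lt_min (norm_pos_iff.2 (sub_ne_zero.2 hne)) hr
    have hs3 : 16 * ‖w - x‖ < s * D := by
      rcases min_choice ‖f w - f x‖ r with h1 | h1
      · rw [hs, h1]
        exact hcon
      · rw [hs, h1]
        linarith
    have h2 : w ∈ g '' ball (f x) s := by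
      refine hcov s hs0 hs2 ?_
      rw [mem_ball, dist_eq_norm]
      linarith
    obtain ⟨u1, hu1, hgu1⟩ := h2
    have h3 : f w = u1 := by
      rw [← hgu1]
      exact (hgv u1 (ball_subset_ball hs2 hu1)).2
    rw [← h3, mem_ball, dist_eq_norm] at hu1
    linarith
  have hKR : K * ‖f w - f x‖ < r / 2 := by
    have h1 : (K * ‖f w - f x‖) * D ≤ 16 * K * ‖w - x‖ := by
      calc (K * ‖f w - f x‖) * D = K * (‖f w - f x‖ * D) := by ring
        _ ≤ K * (16 * ‖w - x‖) := mul_le_mul_of_nonneg_left hR hK0.le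
        _ = 16 * K * ‖w - x‖ := by ring
    have h2 : (K * ‖f w - f x‖) * D < r / 2 * D := by linarith
    exact lt_of_mul_lt_mul_right h2 hD0.le
  have hsub : ball (f x) (K * ‖f w - f x‖) ⊆ ball (f x) r := ball_subset_ball (by linarith)
  refine ⟨hwU, hne, ⟨hg.mono hsub, fun u hu => ?_, hgx⟩, fun _ => hgfw, fun u hu => ?_⟩
  · have h1 := hgv u (hsub hu)
    refine ⟨(dm_succ 0 _).2 ⟨h1.1, ?_⟩, ?_⟩
    · rw [h1.2, dm_zero, mem_thickening_iff]
      exact ⟨f x, hfx, lt_of_lt_of_le (mem_ball.1 (hsub hu)) hrδ⟩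
    · rw [Function.iterate_one]
      exact h1.2
  · have hu1 : u ∈ closedBall (f x) (r / 2) := by
      rw [mem_ball] at hu
      rw [mem_closedBall]
      linarith
    have hc1 : f x ∈ closedBall (f x) (r / 2) := mem_closedBall_self (by linarith)
    have h1 := distort_lip hr hg hinj hu1 hc1 hc1
    rw [hgx, ← hD] at h1
    rw [mem_ball, dist_eq_norm] at hu ⊢
    have hKK := KK_pos
    calc ‖g u - x‖ ≤ KK * D * ‖u - f x‖ := h1
      _ < KK * D * (K * ‖f w - f x‖) := mul_lt_mul_of_pos_left hu (by positivity)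
      _ = KK * K * (‖f w - f x‖ * D) := by ring
      _ ≤ KK * K * (16 * ‖w - x‖) := mul_le_mul_of_nonneg_left hR (by positivity)
      _ = 16 * KK * K * ‖w - x‖ := by ring

/-- one step without critical points -/
theorem local_br (h : SS f U P Cr δ η ρ) : ∃ C : ℝ, 1 ≤ C ∧ ∀ K : ℝ, 1 ≤ K → ∃ δ3 : ℝ, 0 < δ3 ∧ ∀ x ∈ P, ∀ w : ℂ,
    w ≠ x → ‖w - x‖ < δ3 → (∀ c ∈ Cr, C * K * ‖w - x‖ ≤ ‖c - x‖) →
    w ∈ U ∧ f w ≠ f x ∧ ∃ g : ℂ → ℂ, Tb f U P δ 1 x (f x) (K * ‖f w - f x‖) g ∧ (1 < K → g (f w) = w) ∧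
      ∀ u ∈ ball (f x) (K * ‖f w - f x‖), g u ∈ ball x (C * K * ‖w - x‖) := by
  have hKK := KK_pos
  have hKK1 := one_le_KK
  obtain ⟨δ1, hδ1, hδ1δ, hloc⟩ := h.loc
  -- a bound of the derivative on `J`
  obtain ⟨M, hM1, hM⟩ : ∃ M : ℝ, 1 ≤ M ∧ ∀ x ∈ P, ‖deriv f x‖ ≤ M := by
    have hc : ContinuousOn (deriv f) P := (h.fd.deriv h.Uo).continuousOn.mono h.PU
    obtain ⟨M, hM⟩ := h.Pc.exists_bound_of_continuousOn hc
    exact ⟨max M 1, le_max_right _ _, fun x hx => (hM x hx).trans (le_max_left _ _)⟩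
  -- a lower bound of the derivatives of the coordinates
  obtain ⟨a, ha0, ha⟩ : ∃ a : ℝ, 0 < a ∧ ∀ c ∈ Cr, a ≤ ‖deriv (η c) 0‖ := by
    rcases Cr.eq_empty_or_nonempty with h1 | h1
    · exact ⟨1, one_pos, fun c hc => by rw [h1] at hc; exact absurd hc (notMem_empty c)⟩
    · obtain ⟨c0, hc0, hmin⟩ := exists_min_image Cr (fun c => ‖deriv (η c) 0‖) h.Cf h1
      refine ⟨‖deriv (η c0) 0‖, ?_, hmin⟩
      exact deriv_ne h.hρ (h.nf c0 hc0).1 (h.nf c0 hc0).2.1
        (mem_closedBall_self (by have := h.hρ; positivity))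
  have hρ := h.hρ
  have hδ := h.hδ
  refine ⟨65 * KK ^ 2, by nlinarith, fun K hK => ?_⟩
  have hK0 : 0 < K := by linarith
  refine ⟨min (δ1 / (32 * K * M)) (δ * a / (32 * K * ρ * KK)), by positivity,
    fun x hx w hw hwx hC => ?_⟩
  have hwx0 : 0 < ‖w - x‖ := norm_pos_iff.2 (sub_ne_zero.2 hw)
  have hC16 : 16 * KK * K * ‖w - x‖ ≤ 65 * KK ^ 2 * K * ‖w - x‖ := by
    refine mul_le_mul_of_nonneg_right (mul_le_mul_of_nonneg_right ?_ hK0.le) hwx0.le
    nlinarith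
  have hw1 := lt_of_lt_of_le hwx (min_le_left _ _)
  have hw2 := lt_of_lt_of_le hwx (min_le_right _ _)
  rw [lt_div_iff₀ (by positivity)] at hw1 hw2
  rcases hloc (f x) (h.Pf x hx) x (h.PU hx) (mem_ball_self hδ1) with ⟨g, hg1, hg2, hg3⟩ | ⟨c, hc, hb, v, hv, hvx⟩
  · have hlt : 32 * K * ‖w - x‖ * ‖deriv f x‖ < δ1 := by
      calc 32 * K * ‖w - x‖ * ‖deriv f x‖ ≤ 32 * K * ‖w - x‖ * M :=
            mul_le_mul_of_nonneg_left (hM x hx) (by positivity)
        _ = ‖w - x‖ * (32 * K * M) := by ring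
        _ < δ1 := hw1
    obtain ⟨r1, r2, r3, r4, r5⟩ := lb_core h.Uo h.fd (h.PU hx) (h.Pf x hx) hδ1 hδ1δ hg1 hg2 hg3 hK
      hw hlt
    exact ⟨r1, r2, g, r3, r4, fun u hu => ball_subset_ball hC16 (r5 u hu)⟩
  · obtain ⟨n1, n2, n3, n4⟩ := h.nf c hc
    have hfx : f x = f c + v ^ 2 := by rw [← hvx]; exact (n4 v hv).2
    have hv2 : ‖v‖ < ρ / 2 := by
      have h1 := hb (mem_ball_self hδ1)
      rw [mem_ball, dist_eq_norm, hfx, add_sub_cancel_left, norm_pow] at h1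
      have h2 : ‖v‖ ^ 2 < (ρ / 2) ^ 2 := by
        calc ‖v‖ ^ 2 < ρ ^ 2 / 4 := h1
          _ = (ρ / 2) ^ 2 := by ring
      exact lt_of_pow_lt_pow_left₀ 2 (by positivity) h2
    have hvc : v ∈ closedBall (0 : ℂ) (ρ / 2) := by
      rw [mem_closedBall, dist_zero_right]
      exact hv2.le
    have h0c : (0 : ℂ) ∈ closedBall (0 : ℂ) (ρ / 2) := mem_closedBall_self (by positivity)
    obtain ⟨A, hA⟩ : ∃ A, A = ‖deriv (η c) 0‖ := ⟨_, rfl⟩
    have haA : a ≤ A := hA ▸ ha c hc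
    have hA0 : 0 < A := by linarith
    have hcx : ‖c - x‖ ≤ KK * A * ‖v‖ := by
      have h1 := distort_lip hρ n1 n2 h0c hvc h0c
      rwa [n3, hvx, ← hA, zero_sub, norm_neg] at h1
    have hv0 : v ≠ 0 := by
      intro hv0
      rw [hv0, norm_zero, mul_zero] at hcx
      have h1 := hC c hc
      have h2 : 0 < 65 * KK ^ 2 * K * ‖w - x‖ := by positivity
      linarith
    have hvn : 0 < ‖v‖ := norm_pos_iff.2 hv0
    have hB : A ≤ KK * ‖deriv (η c) v‖ := by
      rw [hA]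
      exact distort hρ n1 n2 h0c hvc
    obtain ⟨B, hBd⟩ : ∃ B, B = ‖deriv (η c) v‖ := ⟨_, rfl⟩
    rw [← hBd] at hB
    have hB0 : 0 < B := by
      by_contra hcon
      push Not at hcon
      have : KK * B ≤ 0 := mul_nonpos_of_nonneg_of_nonpos hKK.le hcon
      linarith
    have hder : deriv f x * deriv (η c) v = 2 * v := by
      have h1 : HasDerivAt (η c) (deriv (η c) v) v :=
        (n1.differentiableAt (isOpen_ball.mem_nhds hv)).hasDerivAt
      have h2 : HasDerivAt f (deriv f x) (η c v) := by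
        rw [hvx]
        exact (h.fd.differentiableAt (h.Uo.mem_nhds (h.PU hx))).hasDerivAt
      have h3 : HasDerivAt (f ∘ η c) (deriv f x * deriv (η c) v) v := h2.comp v h1
      have h4 : HasDerivAt (f ∘ η c) (2 * v) v := by
        have h5 : HasDerivAt (fun v : ℂ => f c + v ^ 2) (2 * v) v := by
          simpa using (hasDerivAt_pow 2 v).const_add (f c)
        refine h5.congr_of_eventuallyEq ?_
        filter_upwards [isOpen_ball.mem_nhds hv] with u hu
        exact (n4 u hu).2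
      exact h3.unique h4
    have hfB : ‖deriv f x‖ * B = 2 * ‖v‖ := by
      rw [hBd, ← norm_mul, hder, norm_mul]
      simp
    have hfA : ‖deriv f x‖ * A ≤ 2 * KK * ‖v‖ := by
      calc ‖deriv f x‖ * A ≤ ‖deriv f x‖ * (KK * B) := mul_le_mul_of_nonneg_left hB (norm_nonneg _)
        _ = KK * (‖deriv f x‖ * B) := by ring
        _ = 2 * KK * ‖v‖ := by rw [hfB]; ring
    obtain ⟨s, s1, s2, s3⟩ := lb_sqrt hv0 (f x)
    have hs : ∀ u ∈ ball (f x) (‖v‖ ^ 2), s u ∈ ball (0 : ℂ) ρ := by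
      intro u hu
      rw [mem_ball, dist_zero_right]
      rw [mem_ball, dist_eq_norm] at hu
      have h1 : ‖s u‖ ^ 2 < ρ ^ 2 := by
        have hu' : u ∈ ball (f x) (‖v‖ ^ 2) := by rw [mem_ball, dist_eq_norm]; exact hu
        calc ‖s u‖ ^ 2 = ‖v ^ 2 + (u - f x)‖ := by rw [← norm_pow, s3 u hu']
          _ ≤ ‖v ^ 2‖ + ‖u - f x‖ := norm_add_le _ _
          _ < ‖v‖ ^ 2 + ‖v‖ ^ 2 := by
              rw [norm_pow]
              linarith
          _ ≤ ρ ^ 2 := by nlinarith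
      exact lt_of_pow_lt_pow_left₀ 2 hρ.le h1
    obtain ⟨r, hr⟩ : ∃ r, r = min (‖v‖ ^ 2) δ := ⟨_, rfl⟩
    have hr0 : 0 < r := by
      rw [hr]
      exact lt_min (by positivity) hδ
    have hr1 : r ≤ ‖v‖ ^ 2 := hr ▸ min_le_left _ _
    have hr2 : r ≤ δ := hr ▸ min_le_right _ _
    have hsub : ball (f x) r ⊆ ball (f x) (‖v‖ ^ 2) := ball_subset_ball hr1
    have hlt : 32 * K * ‖w - x‖ * ‖deriv f x‖ < r := by
      have h1 : 32 * K * ‖w - x‖ * (‖deriv f x‖ * A) ≤ 32 * K * ‖w - x‖ * (2 * KK * ‖v‖) :=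
        mul_le_mul_of_nonneg_left hfA (by positivity)
      rw [hr]
      refine lt_min ?_ ?_
      · have h2 := hC c hc
        have h3 : 65 * KK * (KK * K * ‖w - x‖) ≤ KK * A * ‖v‖ := by
          calc 65 * KK * (KK * K * ‖w - x‖) = 65 * KK ^ 2 * K * ‖w - x‖ := by ring
            _ ≤ _ := h2.trans hcx
        have h4 : 65 * (KK * K * ‖w - x‖) ≤ A * ‖v‖ := by
          have h5 : KK * (65 * (KK * K * ‖w - x‖)) ≤ KK * (A * ‖v‖) := by linarith
          exact le_of_mul_le_mul_left h5 hKK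
        have h6 : 0 < KK * K * ‖w - x‖ := by positivity
        have h7 : 64 * (KK * K * ‖w - x‖) < A * ‖v‖ := by linarith
        have h8 : (32 * K * ‖w - x‖ * ‖deriv f x‖) * A < ‖v‖ ^ 2 * A := by
          calc (32 * K * ‖w - x‖ * ‖deriv f x‖) * A
              = 32 * K * ‖w - x‖ * (‖deriv f x‖ * A) := by ring
            _ ≤ 32 * K * ‖w - x‖ * (2 * KK * ‖v‖) := h1
            _ = 64 * (KK * K * ‖w - x‖) * ‖v‖ := by ring
            _ < A * ‖v‖ * ‖v‖ := mul_lt_mul_of_pos_right h7 hvn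
            _ = ‖v‖ ^ 2 * A := by ring
        exact lt_of_mul_lt_mul_right h8 hA0.le
      · have h8 : (32 * K * ‖w - x‖ * ‖deriv f x‖) * A < δ * A := by
          calc (32 * K * ‖w - x‖ * ‖deriv f x‖) * A
              = 32 * K * ‖w - x‖ * (‖deriv f x‖ * A) := by ring
            _ ≤ 32 * K * ‖w - x‖ * (2 * KK * ‖v‖) := h1
            _ ≤ 32 * K * ‖w - x‖ * (2 * KK * (ρ / 2)) := by
                refine mul_le_mul_of_nonneg_left ?_ (by positivity)
                exact mul_le_mul_of_nonneg_left hv2.le (by positivity)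
            _ = ‖w - x‖ * (32 * K * ρ * KK) := by ring
            _ < δ * a := hw2
            _ ≤ δ * A := mul_le_mul_of_nonneg_left haA hδ.le
        exact lt_of_mul_lt_mul_right h8 hA0.le
    have hg1 : DifferentiableOn ℂ (fun u => η c (s u)) (ball (f x) r) :=
      n1.comp (s1.mono hsub) fun u hu => hs u (hsub hu)
    have hg2 : (fun u => η c (s u)) (f x) = x := by
      show η c (s (f x)) = x
      rw [s2, hvx]
    have hg3 : ∀ u ∈ ball (f x) r, (fun u => η c (s u)) u ∈ U ∧ f ((fun u => η c (s u)) u) = u := by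
      intro u hu
      have h1 := n4 (s u) (hs u (hsub hu))
      refine ⟨h1.1, ?_⟩
      show f (η c (s u)) = u
      rw [h1.2, s3 u (hsub hu), hfx]
      ring
    obtain ⟨r1', r2', r3', r4', r5'⟩ := lb_core h.Uo h.fd (h.PU hx) (h.Pf x hx) hr0 hr2 hg1 hg2 hg3 hK
      hw hlt
    exact ⟨r1', r2', _, r3', r4', fun u hu => ball_subset_ball hC16 (r5' u hu)⟩

end Pool.Agent.H78.UX
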