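import Pool.Agent.H78.UX.MA
import Pool.Agent.H56.UD.BI
import Pool.Agent.H31.IU.Ini

/-!
# THEOREM UD for Julia set = sphere, chapter M: the first state (INI)

PROOF: modules `Pool.Agent.H31.IU.*` (helper31). The only input from chapter B is `clx`.
-/

set_option autoImplicit false

open Filter Topology Metric Set MeasureTheory

namespace Pool.Agent.H78.UX

open Pool.Agent.H56.UD

variable {f : ℂ → ℂ} {U P Cr E : Set ℂ} {δ b0 : ℝ} {η : ℂ → ℂ → ℂ} {ρ : ℝ} {X hh μ : ℂ → ℂ}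

/-- the first state -/
theorem ini (h : SS f U P Cr δ η ρ) (hX : SX f U P E X hh μ b0) {θ C r0 : ℝ} (hθ : 0 < θ) (hθ1 : θ < 1) (hC : 1 ≤ C)
    (hr0 : 0 < r0) (hU : UG θ C r0 P) (α β L ε : ℝ) (hε : 0 < ε) :
    ∃ (z : ℂ) (k : ℕ) (x R : ℂ) (G : ℂ → ℂ), ST f U P P E δ z k x R α β L G ∧ ‖deriv G 0‖ < ε :=
  Pool.Agent.H78.UX.IN.ini_of h hX hθ hθ1 hC hr0 hU (fun hl hg ho => clx hl hg ho) α β L hε

end Pool.Agent.H78.UX
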