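import Pool.Agent.H55.PB.Lu
import Pool.Agent.H78.UX.DB

/-!
# THEOREM UD for Julia set = sphere, chapter PB: uniqueness of the lifts of the collar
-/

set_option autoImplicit false

open Filter Topology Metric Set

namespace Pool.Agent.H78.UX

open Pool.Agent.H56.UD Pool.Agent.H55.PB

variable {f : ℂ → ℂ} {U P Cr : Set ℂ} {δ : ℝ} {η : ℂ → ℂ → ℂ} {ρ : ℝ}
variable {θ C r : ℝ} {x : ℂ} {ψ q : ℂ → ℂ} {k : ℕ}

theorem lder (h : SS f U P Cr δ η ρ) (hθ : 0 < θ) (hG : GD θ C P x r ψ) (hq : Lf (f^[k]) (dm f U P δ k) θ ψ q) {ζ : ℂ}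
    (hζ : ζ ∈ Qc θ) : deriv (f^[k]) (q ζ) ≠ 0 := by
  intro h0
  have h1 := der_lift h (Qc_open θ) hq.diff (H := fun ζ => ψ (Complex.exp ζ)) hq.val hζ
  rw [h0, zero_mul] at h1
  have h2 : Complex.exp ζ ∈ ball (0 : ℂ) 1 := mem_ball_zero_iff.2 (Qc_norm hθ hζ).2
  have h3 : HasDerivAt (fun ζ => ψ (Complex.exp ζ)) (deriv ψ (Complex.exp ζ) * Complex.exp ζ) ζ :=
    HasDerivAt.comp ζ (hG.diff.differentiableAt (isOpen_ball.mem_nhds h2)).hasDerivAt (Complex.hasDerivAt_exp ζ)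
  rw [h3.deriv] at h1
  exact (mul_ne_zero (der1 hG.diff hG.inj h2) (Complex.exp_ne_zero ζ)) h1.symm

/-- uniqueness -/
theorem luniq (h : SS f U P Cr δ η ρ) (hθ : 0 < θ) (hG : GD θ C P x r ψ) (hq : Lf (f^[k]) (dm f U P δ k) θ ψ q)
    {S : Set ℂ} (hS : IsPreconnected S) (hSQ : S ⊆ Qc θ) {G : ℂ → ℂ} (hGc : ContinuousOn G S)
    (hGv : ∀ u ∈ S, G u ∈ dm f U P δ k ∧ f^[k] (G u) = ψ (Complex.exp u)) {ζ0 : ℂ} (h0 : ζ0 ∈ S) (he : q ζ0 = G ζ0) :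
    EqOn q G S := by
  refine lift_unique h hS (hq.diff.continuousOn.mono hSQ) hGc (fun u hu => (hq.val u (hSQ hu)).1)
    (fun u hu => (hGv u hu).1) (fun u hu => ?_) (fun u hu => lder h hθ hG hq (hSQ hu)) h0 he
  rw [(hq.val u (hSQ hu)).2, (hGv u hu).2]

/-- closing at one point -/
theorem per1 (h : SS f U P Cr δ η ρ) (hθ : 0 < θ) (hG : GD θ C P x r ψ) (hq : Lf (f^[k]) (dm f U P δ k) θ ψ q)
    {m : ℕ} {ζ0 : ℂ} (h0 : ζ0 ∈ Qc θ) (h1 : ζ0 + m * (2 * Real.pi * Complex.I) ∈ Qc θ)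
    (he : q (ζ0 + m * (2 * Real.pi * Complex.I)) = q ζ0) : Cls θ m q := by
  have hcv : Convex ℝ (Qc θ ∩ (fun ζ => ζ + m * (2 * Real.pi * Complex.I)) ⁻¹' Qc θ) :=
    (Qc_convex θ).inter ((Qc_convex θ).translate_preimage_left _)
  have hu := luniq h hθ hG hq (G := fun ζ => q (ζ + m * (2 * Real.pi * Complex.I))) hcv.isPreconnected inter_subset_left
    (hq.diff.continuousOn.comp (by fun_prop) fun ζ hζ => hζ.2) (fun ζ hζ => ?_) ⟨h0, h1⟩ he.symm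
  · intro ζ hζ hζ2
    exact (hu ⟨hζ, hζ2⟩).symm
  · have h2 := hq.val _ hζ.2
    have h3 := exp_int ζ m
    push_cast at h3
    refine ⟨h2.1, ?_⟩
    rw [h2.2, h3]

/-- small units: if the inner part meets `P`, it is in a small disc with centre in `P` -/
theorem small (h : SS f U P Cr δ η ρ) (hθ : 0 < θ) (hθ1 : θ < 1) {ρ2 ε : ℝ} (h1 : θ < ρ2)
    (h2 : ρ2 < 1) (hε : 0 < ε) :
    ∃ δ2 : ℝ, 0 < δ2 ∧ ∀ (k : ℕ) (x : ℂ) (r : ℝ) (ψ φ β s : ℂ → ℂ) (n : ℕ), r < δ2 →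
      GD θ C P x r ψ → Ty θ n β s → PU (f^[k]) (dm f U P δ k) θ ψ φ β →
      ∀ v0 ∈ ball (0 : ℂ) 1, ‖β v0‖ < ρ2 → φ v0 ∈ P → ∀ v ∈ ball (0 : ℂ) 1, ‖β v‖ < ρ2 → φ v ∈ ball (φ v0) ε := by
  have hρ0 : 0 < ρ2 := lt_trans hθ h1
  have hx1 : (1 - ρ2 ^ 2) ^ 2 ≤ 1 := by
    have : 0 < 1 - ρ2 ^ 2 := by nlinarith
    nlinarith [sq_nonneg ρ2]
  have hx0 : 0 < (1 - ρ2 ^ 2) ^ 2 := by
    have : 0 < 1 - ρ2 ^ 2 := by nlinarith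
    positivity
  have hle : ρ2 ≤ 1 - (1 - ρ2 ^ 2) ^ 2 / 16 := by
    have e1 : (1 - ρ2 ^ 2) ^ 2 = (1 - ρ2) * ((1 - ρ2) * (1 + ρ2) ^ 2) := by ring
    have e2 : (1 - ρ2) * (1 + ρ2) ^ 2 ≤ 16 := by
      have : (1 + ρ2) ^ 2 ≤ 4 := by nlinarith
      have h3 : 0 ≤ (1 + ρ2) ^ 2 := sq_nonneg _
      nlinarith
    have e3 : (1 - ρ2 ^ 2) ^ 2 ≤ (1 - ρ2) * 16 := by
      rw [e1]
      exact mul_le_mul_of_nonneg_left e2 (by linarith)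
    linarith
  obtain ⟨δ2, hδ2, hsh⟩ := sh2 (C := C) h hθ1 (ρ0 := 1 - (1 - ρ2 ^ 2) ^ 2 / 16) (ε := ε) (by linarith) (by linarith) hε
  refine ⟨δ2, hδ2, fun k x r ψ φ β s n hrδ hG hT hP v0 hv0 hv02 hv0P v hv hv2 => ?_⟩
  have hin : ∀ v ∈ ball (0 : ℂ) 1, ‖β v‖ < ρ2 → v ∈ closedBall (0 : ℂ) (1 - (1 - ρ2 ^ 2) ^ 2 / 16) := by
    intro v hv hv2
    rw [mem_closedBall_zero_iff]
    rcases hT with ⟨-, ht, -⟩ | ⟨-, α, hα, rfl, -⟩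
    · rw [ht] at hv2
      linarith
    · obtain ⟨v', hv', hv'2⟩ := mob_pre hρ0 h2 (α := α) (u := bet α v) (by linarith) hv2.le
      have hα1 : ‖α‖ < 1 := lt_of_le_of_lt hα hθ1
      rcases bet_eq hα1 (v := v) (v' := v') (mem_ball_zero_iff.1 hv) (by linarith) hv'2.symm with e | e
      · rw [← e]; exact hv'
      · rw [e, norm_neg] at hv'
        exact hv'
  rw [mem_ball, dist_eq_norm]
  exact hsh k x r ψ φ β hrδ hG hP ⟨v0, hin v0 hv0 hv02, hv0P⟩ v (hin v hv hv2) v0 (hin v0 hv0 hv02)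

end Pool.Agent.H78.UX
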