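import Pool.Agent.H78.UX.PD

/-!
# THEOREM UD for Julia set = sphere, chapter PB: lifts of collars which close after one or two turns come from pull back units

Induction on `k` with the strengthened claim `Good`: the type (degree `n`, map `β`, coordinate `s` of the collar) of the
unit and `φ ∘ s = q` on the rectangle of the collar.
-/

set_option autoImplicit false

open Filter Topology Metric Set

namespace Pool.Agent.H78.UX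

open Pool.Agent.H56.UD Pool.Agent.H55.PB

variable {f : ℂ → ℂ} {U P Cr : Set ℂ} {δ : ℝ} {η : ℂ → ℂ → ℂ} {ρ : ℝ}

/-- the inner part of a unit is star shaped -/
theorem star_in {θ ρ2 : ℝ} {n : ℕ} {β s : ℂ → ℂ} (hθ : 0 < θ) (hρ2 : θ < ρ2) (hρ3 : ρ2 < 1) (hT : Ty θ n β s) :
    (0 : ℂ) ∈ ball (0 : ℂ) 1 ∩ {v | ‖β v‖ < ρ2} ∧ StarConvex ℝ (0 : ℂ) (ball (0 : ℂ) 1 ∩ {v | ‖β v‖ < ρ2}) ∧
      IsOpen (ball (0 : ℂ) 1 ∩ {v | ‖β v‖ < ρ2}) := by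
  rcases hT with ⟨-, hβ, -⟩ | ⟨-, α, hα, rfl, -⟩
  · have he : ball (0 : ℂ) 1 ∩ {v | ‖β v‖ < ρ2} = ball (0 : ℂ) ρ2 := by
      ext v
      rw [mem_inter_iff, mem_ofPred_eq, hβ, mem_ball_zero_iff, mem_ball_zero_iff]
      exact ⟨fun h => h.2, fun h => ⟨h.trans hρ3, h⟩⟩
    rw [he]
    have h0 : (0 : ℂ) ∈ ball (0 : ℂ) ρ2 := mem_ball_self (hθ.trans hρ2)
    exact ⟨h0, (convex_ball _ _).starConvex h0, isOpen_ball⟩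
  · have hα1 : ‖α‖ < 1 := by linarith
    refine ⟨⟨mem_ball_self one_pos, ?_⟩, ?_, ?_⟩
    · show ‖bet α 0‖ < ρ2
      have : bet α 0 = α := by
        unfold bet
        simp
      rw [this]
      linarith
    · intro v hv a b ha hb hab
      obtain ⟨h1, h2⟩ := hv
      have h2' : ‖bet α v‖ < ρ2 := h2
      rw [smul_zero, zero_add]
      refine ⟨?_, ?_⟩
      · rw [mem_ball_zero_iff] at h1 ⊢
        rw [norm_smul, Real.norm_eq_abs, abs_of_nonneg hb]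
        nlinarith [norm_nonneg v]
      · show ‖bet α (b • v)‖ < ρ2
        have h3 := star (θ := max θ ‖bet α v‖) (α := α) (v := v) (t := b) (lt_max_of_lt_left hθ)
          (max_lt (hρ2.trans hρ3) (h2'.trans hρ3)) (hα.trans (le_max_left _ _)) h1 (le_max_right _ _) hb (by linarith)
        rw [Complex.real_smul]
        exact lt_of_le_of_lt h3 (max_lt hρ2 h2')
    · have h1 : ContinuousOn (fun v => ‖bet α v‖) (ball (0 : ℂ) 1) := (bet_diff hα1).continuousOn.norm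
      exact h1.isOpen_inter_preimage isOpen_ball isOpen_Iio

/-- the step -/
theorem step (h : SS f U P Cr δ η ρ) {θ C r ρ2 δ1 : ℝ} {x : ℂ} {ψ q : ℂ → ℂ} {k : ℕ} (hθ : 0 < θ) (hθ1 : θ < 1)
    (hx : x ∈ P) (hG : GD θ C P x r ψ) (hq : Lf (f^[k + 1]) (dm f U P δ (k + 1)) θ ψ q) (hcl : Cls θ 2 q)
    {n : ℕ} {φ1 β s : ℂ → ℂ} (hT : Ty θ n β s)
    (hP : PU (f^[k]) (dm f U P δ k) θ ψ φ1 β) (h1 : ∀ ζ ∈ Qc θ, φ1 (s ζ) = f (q ζ))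
    (h2 : n = 2 → ¬ Cls θ 1 (fun ζ => f (q ζ))) (hρ2 : θ < ρ2) (hρ3 : ρ2 < 1)
    (hloc : ∀ y ∈ P, ∀ z ∈ U, f z ∈ ball y δ1 →
      (∃ g : ℂ → ℂ, DifferentiableOn ℂ g (ball y δ1) ∧ g (f z) = z ∧ ∀ u ∈ ball y δ1, g u ∈ U ∧ f (g u) = u) ∨
      (∃ c ∈ Cr, ball y δ1 ⊆ ball (f c) (ρ ^ 2 / 4) ∧ z ∈ η c '' ball 0 ρ)) 
    (hsmP : ∀ v0 ∈ ball (0 : ℂ) 1, ‖β v0‖ < ρ2 → φ1 v0 ∈ P → ∀ v ∈ ball (0 : ℂ) 1, ‖β v‖ < ρ2 → φ1 v ∈ ball (φ1 v0) δ1) : Good f U P δ θ (k + 1) ψ q := by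
  have hρ0 : 0 < ρ2 := lt_trans hθ hρ2
  obtain ⟨ζ0, b0, -, -⟩ := base hθ hρ2 hρ3
  have hs0 := hT.sm hθ hθ1 b0.1
  have hs1 : ‖β (s ζ0)‖ < ρ2 := by rw [hs0.2]; exact ((Qs_iff hρ0).1 b0).2
  by_cases hcr : ∀ v ∈ ball (0 : ℂ) 1 ∩ {v | ‖β v‖ < ρ2}, ∀ c ∈ Cr, φ1 v ≠ f c
  · obtain ⟨i1, i2, i3⟩ := star_in hθ hρ2 hρ3 hT
    obtain ⟨φ0, k1, k2, k3⟩ := h.lift1 _ φ1 0 (s ζ0) (q ζ0) i1 i2 i3 (hP.diff.mono inter_subset_left) hcr ⟨hs0.1, hs1⟩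
      ((dm_succ _ _).1 (hq.val ζ0 b0.1).1).1 (h1 ζ0 b0.1).symm
    exact stepA h hθ hθ1 hG hq hcl hT hP h1 h2 hρ2 hρ3 (φ0 := φ0) k1 (fun v hv hv2 => k3 v ⟨hv, hv2⟩) b0 k2.symm
  push Not at hcr
  obtain ⟨v9, ⟨hv91, hv92⟩, c9, hc9, hv93⟩ := hcr
  have hyP : φ1 v9 ∈ P := by
    rw [hv93]
    exact h.CP c9 hc9
  obtain ⟨y, hyd⟩ : ∃ y, y = φ1 v9 := ⟨_, rfl⟩
  have hy : y ∈ P := by rw [hyd]; exact hyP
  have hsm : ∀ v ∈ ball (0 : ℂ) 1, ‖β v‖ < ρ2 → φ1 v ∈ ball y δ1 := by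
    rw [hyd]
    exact hsmP v9 hv91 hv92 hyP
  have hz : f (q ζ0) ∈ ball y δ1 := by rw [← h1 ζ0 b0.1]; exact hsm _ hs0.1 hs1
  rcases hloc y hy (q ζ0) ((dm_succ _ _).1 (hq.val ζ0 b0.1).1).1 hz with ⟨g, gd, g0, gv⟩ | ⟨c, hc, hcb, hcz⟩
  · refine stepA h hθ hθ1 hG hq hcl hT hP h1 h2 hρ2 hρ3 (φ0 := fun v => g (φ1 v)) ?_ ?_ b0 ?_
    · exact gd.comp (hP.diff.mono inter_subset_left) fun v hv => hsm v hv.1 hv.2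
    · intro v hv hv2
      exact gv _ (hsm v hv hv2)
    · show q ζ0 = g (φ1 (s ζ0))
      rw [h1 ζ0 b0.1, g0]
  · have hsm2 : ∀ v ∈ ball (0 : ℂ) 1, ‖β v‖ < ρ2 → ‖φ1 v - f c‖ < ρ ^ 2 / 4 := by
      intro v hv hv2
      rw [← dist_eq_norm]
      exact hcb (hsm v hv hv2)
    by_cases hcn : f c ∈ φ1 '' ball 0 1
    · obtain ⟨v0, hv0, hcv⟩ := hcn
      have hb : ‖β v0‖ ≤ θ := by
        by_contra hcon
        push Not at hcon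
        refine hG.col (β v0) hcon (mem_ball_zero_iff.1 (hT.bm hθ1 hv0)) ?_
        rw [← (hP.val v0 hv0).2, hcv]
        exact P_it h k (h.CP c hc)
      rcases hT with ⟨rfl, hβ, rfl⟩ | ⟨rfl, α, hα, rfl, rfl⟩
      · refine stepB2 h hθ hθ1 hG hq hcl hβ hP h1 hρ2 hρ3 hc (fun v hv hv2 => hsm2 v hv (by rwa [hβ])) b0 hcz hcv ?_
        rwa [hβ] at hb
      · exact (stepB3 h hθ hθ1 hG hq hcl hα hP h1 hρ2 hρ3 hc hsm2 b0 hcz hv0 hcv hb).elim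
    · exact stepB1 h hθ hθ1 hG hq hcl hT hP h1 h2 hρ2 hρ3 hc hsm2 b0 hcz hcn

theorem good_all (h : SS f U P Cr δ η ρ) {θ C : ℝ} (hθ : 0 < θ) (hθ1 : θ < 1) :
    ∃ δ2 : ℝ, 0 < δ2 ∧ ∀ (k : ℕ) (x : ℂ) (r : ℝ) (ψ q : ℂ → ℂ), x ∈ P → 0 < r → r < δ2 → GD θ C P x r ψ →
      Lf (f^[k]) (dm f U P δ k) θ ψ q → Cls θ 2 q → Good f U P δ θ k ψ q := by
  obtain ⟨δ1, hδ1, -, hloc⟩ := h.loc
  have hρ2 : θ < (1 + θ) / 2 := by linarith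
  have hρ3 : (1 + θ) / 2 < 1 := by linarith
  obtain ⟨δ2, hδ2, hsm⟩ := small (C := C) h hθ hθ1 hρ2 hρ3 hδ1
  refine ⟨min δ2 δ, lt_min hδ2 h.hδ, fun k => ?_⟩
  induction k with
  | zero =>
    intro x r ψ q hx hr hrδ hG hq _
    exact base_case h hθ hx (le_of_lt (lt_of_lt_of_le hrδ (min_le_right _ _))) hG hq
  | succ k ih =>
    intro x r ψ q hx hr hrδ hG hq hcl
    have hq1 : Lf (f^[k]) (dm f U P δ k) θ ψ (fun ζ => f (q ζ)) := by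
      refine ⟨h.fd.comp hq.diff fun ζ hζ => ((dm_succ _ _).1 (hq.val ζ hζ).1).1, fun ζ hζ => ?_⟩
      have e1 := hq.val ζ hζ
      exact ⟨((dm_succ _ _).1 e1.1).2, by rw [← Function.iterate_succ_apply]; exact e1.2⟩
    have hcl1 : Cls θ 2 (fun ζ => f (q ζ)) := by
      intro ζ hζ hζ2
      show f (q _) = f (q ζ)
      rw [hcl ζ hζ hζ2]
    obtain ⟨n, φ1, β, s, hT, hP, h1, h2⟩ := ih x r ψ _ hx hr hrδ hG hq1 hcl1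
    exact step h hθ hθ1 hx hG hq hcl hT hP h1 h2 hρ2 hρ3 hloc
      (hsm k x r ψ φ1 β s n (lt_of_lt_of_le hrδ (min_le_left _ _)) hG hT hP)

/-- lifts of collars which close after one or two turns come from pull back units -/
theorem pbk0 (h : SS f U P Cr δ η ρ) {θ C : ℝ} (hθ : 0 < θ) (hθ1 : θ < 1) :
    ∃ δ2 : ℝ, 0 < δ2 ∧ ∀ (k : ℕ) (x : ℂ) (r : ℝ) (ψ q : ℂ → ℂ), x ∈ P → 0 < r → r < δ2 → GD θ C P x r ψ →
      Lf (f^[k]) (dm f U P δ k) θ ψ q → Cls θ 2 q →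
      ∃ φ β : ℂ → ℂ, PU (f^[k]) (dm f U P δ k) θ ψ φ β ∧ q '' Qc θ ⊆ φ '' ball 0 1 ∧ (Cls θ 1 q → ∀ v, β v = v) := by
  obtain ⟨δ2, hδ2, hg⟩ := good_all h hθ hθ1
  refine ⟨δ2, hδ2, fun k x r ψ q hx hr hrδ hG hq hcl => ?_⟩
  obtain ⟨n, φ, β, s, hT, hP, h1, h2⟩ := hg k x r ψ q hx hr hrδ hG hq hcl
  refine ⟨φ, β, hP, ?_, fun h3 => ?_⟩
  · rintro _ ⟨ζ, hζ, rfl⟩
    exact ⟨s ζ, (hT.sm hθ hθ1 hζ).1, h1 ζ hζ⟩
  · rcases hT with ⟨-, hb, -⟩ | ⟨hn, -⟩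
    · exact hb
    · exact absurd h3 (h2 hn)

end Pool.Agent.H78.UX
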